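import Pool.Agent.ConfSewing.SeamCharts

set_option autoImplicit false

open Set Filter Topology
open scoped Manifold ContDiff ComplexConjugate

namespace Pool.Agent.ConfSewing

namespace Sewing

variable {α : Sewing} {x s₁ s₂ δ : ℝ}

/-- every point of the surface is interior or on the seam -/
lemma cases_point (p : α.Surf) : (∃ z ∈ openStrip, p = α.projExt z) ∨
    (∃ y : ℝ, 0 < y ∧ p = α.projExt y) := by
  obtain ⟨z, hz, rfl⟩ := α.exists_rep p
  rcases hz.1.2.1.eq_or_lt with h0 | h0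
  · right
    refine ⟨z.re, hz.1.1, ?_⟩
    congr 1
    exact Complex.ext (by simp) (by simp [← h0])
  · rcases hz.1.2.2.eq_or_lt with h1 | h1
    · right
      have h2 : z.re ∈ α.toFun '' Ioi 0 := by rw [α.image_eq]; exact hz.2 h1
      obtain ⟨y, hy, hyz⟩ := h2
      refine ⟨y, hy, ?_⟩
      rw [← α.projExt_glue hy]
      congr 1
      exact Complex.ext (by simp [hyz]) (by simp [h1])
    · left
      exact ⟨z, ⟨hz.1.1, h0, h1⟩, rfl⟩

lemma seam_not_interior {y : ℝ} (hy : 0 < y) : α.projExt y ∉ α.projExt '' openStrip := by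
  rw [intData.mem_image_iff (α.bottom_mem hy)]
  intro h
  have := h.2.1
  simp at this

namespace Brk

lemma slope_right (h : α.Brk x s₁ s₂ δ) {y s δ' : ℝ} (h' : α.Brk y s s δ') (h1 : x ≤ y)
    (h2 : y < x + δ) : s = s₂ := by
  have hd' := h'.δpos
  set u := min ((y + (x + δ)) / 2) (y + δ' / 2) with hu
  have hu1 : y < u := by rw [hu]; apply lt_min <;> linarith
  have hu2 : u < x + δ := lt_of_le_of_lt (min_le_left _ _) (by linarith)
  have hu3 : u < y + δ' := lt_of_le_of_lt (min_le_right _ _) (by linarith)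
  have e1 := h.right u (by linarith) hu2
  have e2 := h.right y h1 h2
  have e3 := h'.right u hu1.le hu3
  have e4 : s * (u - y) = s₂ * (u - y) := by linarith
  exact mul_right_cancel₀ (by linarith : u - y ≠ 0).symm.symm e4

lemma slope_left (h : α.Brk x s₁ s₂ δ) {y s δ' : ℝ} (h' : α.Brk y s s δ') (h1 : x - δ < y)
    (h2 : y ≤ x) : s = s₁ := by
  have hd' := h'.δpos
  set u := max ((y + (x - δ)) / 2) (y - δ' / 2) with hu
  have hu1 : u < y := by rw [hu]; apply max_lt <;> linarith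
  have hu2 : x - δ < u := lt_of_lt_of_le (by linarith) (le_max_left _ _)
  have hu3 : y - δ' < u := lt_of_lt_of_le (by linarith) (le_max_right _ _)
  have e1 := h.left u hu2 (by linarith)
  have e2 := h.left y h1 h2
  have e3 := h'.left u hu3 hu1.le
  have e4 : s * (u - y) = s₁ * (u - y) := by linarith
  exact mul_right_cancel₀ (by linarith : u - y ≠ 0) e4

lemma regular_right (h : α.Brk x s₁ s₂ δ) {y : ℝ} (h1 : x < y) (h2 : y < x + δ) :
    ∃ δ', α.Brk y s₂ s₂ δ' := by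
  have hx := h.xpos
  refine ⟨min (y - x) (x + δ - y), h.s₂pos, h.s₂pos, lt_min (by linarith) (by linarith),
    lt_of_le_of_lt (min_le_left _ _) (by linarith), ?_, ?_⟩
  · intro u hu1 hu2
    have h3 : u < x + δ := by
      have := min_le_right (y - x) (x + δ - y); linarith
    rw [h.right u (by linarith) h3, h.right y h1.le h2]; ring
  · intro u hu1 hu2
    have h3 : x < u := by
      have := min_le_left (y - x) (x + δ - y); linarith
    rw [h.right u h3.le (by linarith), h.right y h1.le h2]; ring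

lemma regular_left (h : α.Brk x s₁ s₂ δ) {y : ℝ} (h1 : x - δ < y) (h2 : y < x) :
    ∃ δ', α.Brk y s₁ s₁ δ' := by
  have hx := h.xpos
  have hδ := h.δlt
  refine ⟨min (x - y) (y - (x - δ)), h.s₁pos, h.s₁pos, lt_min (by linarith) (by linarith),
    lt_of_le_of_lt (min_le_right _ _) (by linarith), ?_, ?_⟩
  · intro u hu1 hu2
    have h3 : u < x := by
      have := min_le_left (x - y) (y - (x - δ)); linarith
    rw [h.left u (by linarith) h3.le, h.left y h1 h2.le]; ring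
  · intro u hu1 hu2
    have h3 : x - δ < u := by
      have := min_le_right (x - y) (y - (x - δ)); linarith
    rw [h.left u h3 (by linarith), h.left y h1 h2.le]; ring

end Brk

/-- canonical parametrisations -/
def Canon (p : α.Surf) (ζ₀ : ℂ) (lam : ℂ → α.Surf) : Prop :=
  (∃ z ∈ openStrip, p = α.projExt z ∧ ζ₀ = z ∧ lam = α.projExt) ∨
  (∃ y s δ : ℝ, α.Brk y s s δ ∧ p = α.projExt y ∧ ζ₀ = 0 ∧ lam = α.lamS y s)

lemma Canon.param {p : α.Surf} {ζ₀ : ℂ} {lam : ℂ → α.Surf} (h : Canon p ζ₀ lam) :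
    ∃ mu, Param p ζ₀ lam mu := by
  rcases h with ⟨z, hz, rfl, rfl, rfl⟩ | ⟨y, s, δ, hb, rfl, rfl, rfl⟩
  · exact ⟨_, param_interior hz⟩
  · exact ⟨_, param_seam hb⟩

/-- functions that are holomorphic and regular at all canonical parametrisations -/
def Good (N : Set α.Surf) (Φ : α.Surf → ℂ) : Prop :=
  ∀ p ∈ N, ∀ ζ₀ lam, Canon p ζ₀ lam → ∃ a : ℂ, a ≠ 0 ∧ HasStrictDerivAt (Φ ∘ lam) a ζ₀

/-! ### interior chart -/

lemma good_interior : Good (α.projExt '' openStrip) ((fun z => z) ∘ α.rep) := by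
  rintro p hp ζ₀ lam (⟨z, hz, rfl, rfl, rfl⟩ | ⟨y, s, δ, hb, rfl, rfl, rfl⟩)
  · refine ⟨1, one_ne_zero, ?_⟩
    apply (hasStrictDerivAt_id ζ₀).congr_of_eventuallyEq
    filter_upwards [isOpen_openStrip.mem_nhds hz] with w hw
    exact (rep_projExt_interior hw).symm
  · exact absurd hp (seam_not_interior hb.xpos)

/-- the interior chart -/
noncomputable def chart₀ (α : Sewing) : OpenPartialHomeomorph α.Surf ℂ :=
  mkOPH (α.projExt '' openStrip) ((fun z => z) ∘ α.rep) intData.isOpen_image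
    intData.continuousOn
    (by
      intro p _ q _ hpq
      rw [← α.projExt_rep p, ← α.projExt_rep q]
      exact congrArg _ hpq)
    (by
      rintro p ⟨z, hz, rfl⟩ V hV
      have hc : Canon (α.projExt z) z α.projExt := Or.inl ⟨z, hz, rfl, rfl, rfl⟩
      obtain ⟨a, ha, hd⟩ := good_interior _ (mem_image_of_mem _ hz) _ _ hc
      exact open_of_param intData.isOpen_image (mem_image_of_mem _ hz) (param_interior hz) ha hd hV)

/-! ### seam charts -/

lemma seam_deriv_interior (h : α.Brk x s₁ s₂ δ) {z : ℂ} (hz : z ∈ openStrip)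
    (hzU : z ∈ α.seamU x s₁ s₂ δ) :
    ∃ a : ℂ, a ≠ 0 ∧ HasStrictDerivAt ((α.seamF x s₁ s₂ ∘ α.rep) ∘ α.projExt) a z := by
  have hcd := h.chartData
  have hκ := kap_ne (s₁ / s₂)
  have hs2 := h.s₂pos
  have hs2c : (s₂ : ℂ) ≠ 0 := by exact_mod_cast hs2.ne'
  have hU : ∀ᶠ w in 𝓝 z, w ∈ α.seamU x s₁ s₂ δ := by
    obtain ⟨O, hO, hOe⟩ := hcd.opn
    rw [hOe] at hzU
    filter_upwards [hO.mem_nhds hzU.1, isOpen_openStrip.mem_nhds hz] with w hw1 hw2
    rw [hOe]
    exact ⟨hw1, α.openStrip_subset hw2⟩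
  rcases hzU.1 with hz1 | hz1
  · have hsl : (z - x : ℂ) ∈ Complex.slitPlane := by
      rw [Complex.mem_slitPlane_iff]; right
      simpa using hz.2.1.ne'
    refine ⟨_, cpow_deriv_ne hκ hsl, ?_⟩
    have hA := hasStrictDerivAt_cpow' (κ := kap (s₁ / s₂)) hsl
    have hB : HasStrictDerivAt (fun w : ℂ => w - x) 1 z := (hasStrictDerivAt_id z).sub_const (x : ℂ)
    have h1 := hA.comp z hB
    rw [mul_one] at h1
    apply h1.congr_of_eventuallyEq
    have : ∀ᶠ w : ℂ in 𝓝 z, w.im < 1 / 2 :=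
      (isOpen_lt Complex.continuous_im continuous_const).mem_nhds hz1.1
    filter_upwards [hU, this] with w hw1 hw2
    show _ = (α.seamF x s₁ s₂ ∘ α.rep) (α.projExt w)
    rw [hcd.comp_rep hw1, seamF_bot hw2]
    rfl
  · have him : ((z - Complex.I - α.toFun x) / s₂ : ℂ).im < 0 := by
      rw [Complex.div_ofReal_im]
      apply div_neg_of_neg_of_pos _ hs2
      have := hz.2.2
      simp
      linarith
    have hsl : ((z - Complex.I - α.toFun x) / s₂ : ℂ) ∈ Complex.slitPlane := by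
      rw [Complex.mem_slitPlane_iff]; right
      exact him.ne
    refine ⟨_, mul_ne_zero (cpow_deriv_ne hκ hsl) (inv_ne_zero hs2c), ?_⟩
    have h0 : HasStrictDerivAt (fun w : ℂ => (w - Complex.I - α.toFun x) / s₂) (s₂ : ℂ)⁻¹ z := by
      have hB : HasStrictDerivAt (fun w : ℂ => w - Complex.I - α.toFun x) 1 z :=
        ((hasStrictDerivAt_id z).sub_const Complex.I).sub_const (α.toFun x : ℂ)
      have := hB.mul_const (s₂ : ℂ)⁻¹
      simp only [← div_eq_mul_inv, one_div] at this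
      exact this
    have h1 := (hasStrictDerivAt_cpow' (κ := kap (s₁ / s₂)) hsl).comp z h0
    apply h1.congr_of_eventuallyEq
    have h2 : ∀ᶠ w : ℂ in 𝓝 z, 1 / 2 < w.im :=
      (isOpen_lt continuous_const Complex.continuous_im).mem_nhds hz1.1
    have h3 : ∀ᶠ w : ℂ in 𝓝 z, ((w - Complex.I - α.toFun x) / s₂ : ℂ) ∈ Complex.slitPlane :=
      (Complex.isOpen_slitPlane.preimage (by fun_prop :
        Continuous fun w : ℂ => ((w - Complex.I - α.toFun x) / s₂ : ℂ))).mem_nhds hsl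
    filter_upwards [hU, h2, h3] with w hw1 hw2 hw3
    show _ = (α.seamF x s₁ s₂ ∘ α.rep) (α.projExt w)
    rw [hcd.comp_rep hw1, seamF_top hw2, dn_eq_cpow (Complex.slitPlane_arg_ne_pi hw3)]
    rfl

lemma seam_deriv_seam (h : α.Brk x s₁ s₂ δ) {y s δ' : ℝ} (h' : α.Brk y s s δ')
    (h1 : x - δ < y) (h2 : y < x + δ) :
    ∃ a : ℂ, a ≠ 0 ∧ HasStrictDerivAt ((α.seamF x s₁ s₂ ∘ α.rep) ∘ α.lamS y s) a 0 := by
  have hcd := h.chartData
  have hκ := kap_ne (s₁ / s₂)
  have hs1 := h.s₁pos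
  have hs2 := h.s₂pos
  have hs2c : (s₂ : ℂ) ≠ 0 := by exact_mod_cast hs2.ne'
  have hy := h'.xpos
  have hyU : (y : ℂ) ∈ α.seamU x s₁ s₂ δ := mem_seamU_bottom h h1 h2
  have hev := seam_nhds hy s h'.s₁pos (hcd.isOpen_image.mem_nhds (mem_image_of_mem _ hyU))
  have him1 : ∀ᶠ ζ : ℂ in 𝓝 0, ζ.im < 1 / 2 ∧ 1 / 2 < 1 + s * ζ.im := by
    apply ((isOpen_lt Complex.continuous_im continuous_const).inter
      (isOpen_lt continuous_const (by fun_prop : Continuous fun ζ : ℂ =>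
        1 + s * ζ.im))).mem_nhds
    constructor
    · simp
    · simp; norm_num
  -- the values
  have hval : ∀ᶠ ζ : ℂ in 𝓝 0,
      (0 ≤ ζ.im → ((α.seamF x s₁ s₂ ∘ α.rep) ∘ α.lamS y s) ζ =
        up (kap (s₁ / s₂)) ((y - x : ℝ) + ζ)) ∧
      (ζ.im < 0 → ((α.seamF x s₁ s₂ ∘ α.rep) ∘ α.lamS y s) ζ =
        dn (kap (s₁ / s₂)) (((α.toFun y - α.toFun x : ℝ) + s * ζ) / s₂)) := by
    filter_upwards [hev, him1] with ζ hζ1 hζ2
    constructor
    · intro h0
      have h3 := (hcd.mem_image_iff (hζ1.1 h0).1).mp (hζ1.1 h0).2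
      rw [Function.comp_apply, lamS, if_pos h0, hcd.comp_rep h3, seamF_bot (by simpa using hζ2.1)]
      congr 1
      push_cast
      ring
    · intro h0
      have h3 := (hcd.mem_image_iff (hζ1.2 h0.le).1).mp (hζ1.2 h0.le).2
      rw [Function.comp_apply, lamS, if_neg (not_le.mpr h0), hcd.comp_rep h3,
        seamF_top (by simpa using hζ2.2)]
      congr 1
      push_cast
      ring
  have hshift : ∀ c : ℝ, HasStrictDerivAt (fun ζ : ℂ => (c : ℂ) + ζ) 1 0 := by
    intro c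
    exact (hasStrictDerivAt_id (0 : ℂ)).const_add (c : ℂ)
  rcases lt_trichotomy y x with hyx | hyx | hyx
  · -- left
    have hs : s = s₁ := h.slope_left h' h1 hyx.le
    subst hs
    have hre : (((y - x : ℝ) : ℂ) + 0).re < 0 := by simpa using hyx
    have hne : (((y - x : ℝ) : ℂ) + 0) ≠ 0 := by
      intro h0; rw [h0] at hre; simp at hre
    refine ⟨_, lm_deriv_ne (κ := kap (s / s₂)) hκ hne, ?_⟩
    have h3 := (hasStrictDerivAt_lm (κ := kap (s / s₂)) hre).comp (0 : ℂ) (hshift (y - x))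
    rw [mul_one] at h3
    apply h3.congr_of_eventuallyEq
    have h4 : ∀ᶠ ζ : ℂ in 𝓝 0, (((y - x : ℝ) : ℂ) + ζ).re < 0 :=
      (isOpen_lt (by fun_prop : Continuous fun ζ : ℂ => (((y - x : ℝ) : ℂ) + ζ).re)
        continuous_const).mem_nhds hre
    filter_upwards [hval, h4] with ζ hζ1 hζ2
    rcases le_or_gt 0 ζ.im with h0 | h0
    · rw [hζ1.1 h0, up_eq_lm hζ2 (by simpa using h0)]
      rfl
    · rw [hζ1.2 h0]
      have e1 : (((α.toFun y - α.toFun x : ℝ) : ℂ) + s * ζ) / s₂ =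
          ((s / s₂ : ℝ) : ℂ) * (((y - x : ℝ) : ℂ) + ζ) := by
        rw [h.left y h1 hyx.le]
        push_cast
        field_simp
        ring
      rw [e1, dn_eq_lm h.rpos hζ2 (by simpa using h0.le)]
      rfl
  · -- centre
    subst hyx
    have e1 : s = s₁ := h.slope_left h' h1 le_rfl
    have e2 : s = s₂ := h.slope_right h' le_rfl h2
    have hk : kap (s₁ / s₂) = 1 := by rw [← e1, ← e2, div_self h'.s₁pos.ne', kap_one]
    refine ⟨1, one_ne_zero, ?_⟩
    apply (hasStrictDerivAt_id (0 : ℂ)).congr_of_eventuallyEq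
    filter_upwards [hval] with ζ hζ1
    rw [hk] at hζ1
    rcases le_or_gt 0 ζ.im with h0 | h0
    · rw [hζ1.1 h0, up_one]; simp
    · rw [hζ1.2 h0, dn_one, ← e2]
      have hsc : (s : ℂ) ≠ 0 := by exact_mod_cast h'.s₁pos.ne'
      rw [sub_self, Complex.ofReal_zero, zero_add, mul_div_cancel_left₀ _ hsc]
      rfl
  · -- right
    have hs : s = s₂ := h.slope_right h' hyx.le h2
    subst hs
    have hsl : (((y - x : ℝ) : ℂ) + 0) ∈ Complex.slitPlane := by
      rw [Complex.mem_slitPlane_iff]; left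
      simpa using hyx
    refine ⟨_, cpow_deriv_ne hκ hsl, ?_⟩
    have h3 := (hasStrictDerivAt_cpow' (κ := kap (s₁ / s)) hsl).comp (0 : ℂ) (hshift (y - x))
    rw [mul_one] at h3
    apply h3.congr_of_eventuallyEq
    have h4 : ∀ᶠ ζ : ℂ in 𝓝 0, (((y - x : ℝ) : ℂ) + ζ) ∈ Complex.slitPlane :=
      (Complex.isOpen_slitPlane.preimage (by fun_prop :
        Continuous fun ζ : ℂ => (((y - x : ℝ) : ℂ) + ζ))).mem_nhds hsl
    filter_upwards [hval, h4] with ζ hζ1 hζ2
    rcases le_or_gt 0 ζ.im with h0 | h0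
    · rw [hζ1.1 h0]
      rfl
    · rw [hζ1.2 h0]
      have e1 : (((α.toFun y - α.toFun x : ℝ) : ℂ) + s * ζ) / s = ((y - x : ℝ) : ℂ) + ζ := by
        rw [h.right y hyx.le h2]
        push_cast
        field_simp
        ring
      rw [e1, dn_eq_cpow (Complex.slitPlane_arg_ne_pi hζ2)]
      rfl

lemma good_seam (h : α.Brk x s₁ s₂ δ) :
    Good (α.projExt '' (α.seamU x s₁ s₂ δ)) (α.seamF x s₁ s₂ ∘ α.rep) := by
  rintro p hp ζ₀ lam (⟨z, hz, rfl, rfl, rfl⟩ | ⟨y, s, δ', hb, rfl, rfl, rfl⟩)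
  · exact seam_deriv_interior h hz ((h.chartData.mem_image_iff (α.openStrip_subset hz)).mp hp)
  · have hy := (h.chartData.mem_image_iff (α.bottom_mem hb.xpos)).mp hp
    rcases hy.1 with h1 | h1
    · exact seam_deriv_seam h hb (by simpa using h1.2.1) (by simpa using h1.2.2)
    · have := h1.1
      rw [Complex.ofReal_im] at this
      norm_num at this

/-- openness at the centre of a seam chart -/
lemma seam_open_centre (h : α.Brk x s₁ s₂ δ) {V : Set α.Surf} (hV : V ∈ 𝓝 (α.projExt x)) :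
    (α.seamF x s₁ s₂ ∘ α.rep) '' (V ∩ α.projExt '' (α.seamU x s₁ s₂ δ)) ∈
      𝓝 ((α.seamF x s₁ s₂ ∘ α.rep) (α.projExt x)) := by
  have hcd := h.chartData
  have hs2 := h.s₂pos
  have hs2c : (s₂ : ℂ) ≠ 0 := by exact_mod_cast hs2.ne'
  have hδ := h.δpos
  have hxU : (x : ℂ) ∈ α.seamU x s₁ s₂ δ := mem_seamU_bottom h (by linarith) (by linarith)
  have hN := hcd.isOpen_image.mem_nhds (mem_image_of_mem α.projExt hxU)
  have hev := seam_nhds h.xpos s₂ h.s₂pos (inter_mem hV hN)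
  have him1 : ∀ᶠ ζ : ℂ in 𝓝 0, ζ.im < 1 / 2 ∧ 1 / 2 < 1 + s₂ * ζ.im := by
    apply ((isOpen_lt Complex.continuous_im continuous_const).inter
      (isOpen_lt continuous_const (by fun_prop : Continuous fun ζ : ℂ =>
        1 + s₂ * ζ.im))).mem_nhds
    constructor
    · simp
    · simp; norm_num
  obtain ⟨r, hr, hball⟩ := Metric.eventually_nhds_iff_ball.mp (hev.and him1)
  obtain ⟨C, hC, hsurj⟩ := up_dn_surj (s₁ / s₂)
  have h0 : (α.seamF x s₁ s₂ ∘ α.rep) (α.projExt x) = 0 := by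
    rw [hcd.comp_rep hxU, seamF_bot (by norm_num), sub_self, up_zero (kap_ne _)]
  rw [h0, Metric.mem_nhds_iff]
  refine ⟨min 1 (r / C), lt_min one_pos (by positivity), ?_⟩
  intro w hw
  rw [mem_ball_zero_iff] at hw
  obtain ⟨ζ, hζ, hcase⟩ := hsurj w (lt_of_lt_of_le hw (min_le_left _ _))
  have hζr : ζ ∈ Metric.ball (0 : ℂ) r := by
    rw [mem_ball_zero_iff]
    refine lt_of_le_of_lt hζ ?_
    have := lt_of_lt_of_le hw (min_le_right _ _)
    rw [lt_div_iff₀ hC] at this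
    linarith
  obtain ⟨hb1, hb2⟩ := hball ζ hζr
  rcases hcase with ⟨him, he⟩ | ⟨him, he⟩
  · obtain ⟨hc, hm⟩ := hb1.1 him
    refine ⟨α.projExt (x + ζ), hm, ?_⟩
    have h3 := (hcd.mem_image_iff hc).mp hm.2
    rw [hcd.comp_rep h3, seamF_bot (by simpa using hb2.1), add_sub_cancel_left, he]
  · obtain ⟨hc, hm⟩ := hb1.2 him
    refine ⟨α.projExt (α.toFun x + Complex.I + s₂ * ζ), hm, ?_⟩
    have h3 := (hcd.mem_image_iff hc).mp hm.2
    rw [hcd.comp_rep h3, seamF_top (by simpa using hb2.2)]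
    have e1 : (α.toFun x + Complex.I + s₂ * ζ - Complex.I - α.toFun x : ℂ) / s₂ = ζ := by
      field_simp
      ring
    rw [e1, he]

/-- points in the image of a seam region -/
lemma seam_cases (h : α.Brk x s₁ s₂ δ) {p : α.Surf} (hp : p ∈ α.projExt '' (α.seamU x s₁ s₂ δ)) :
    (∃ z ∈ openStrip, p = α.projExt z) ∨
    (∃ y : ℝ, 0 < y ∧ x - δ < y ∧ y < x + δ ∧ p = α.projExt y) := by
  rcases cases_point p with h1 | ⟨y, hy, rfl⟩
  · exact Or.inl h1
  · right
    have h2 := (h.chartData.mem_image_iff (α.bottom_mem hy)).mp hp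
    rcases h2.1 with h3 | h3
    · exact ⟨y, hy, by simpa using h3.2.1, by simpa using h3.2.2, rfl⟩
    · have := h3.1
      rw [Complex.ofReal_im] at this
      norm_num at this

lemma canon_or_centre (h : α.Brk x s₁ s₂ δ) {p : α.Surf}
    (hp : p ∈ α.projExt '' (α.seamU x s₁ s₂ δ)) :
    (∃ ζ₀ lam, Canon p ζ₀ lam) ∨ p = α.projExt x := by
  rcases seam_cases h hp with ⟨z, hz, rfl⟩ | ⟨y, hy, h1, h2, rfl⟩
  · exact Or.inl ⟨_, _, Or.inl ⟨z, hz, rfl, rfl, rfl⟩⟩
  · rcases lt_trichotomy y x with h3 | h3 | h3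
    · obtain ⟨δ', hb⟩ := h.regular_left h1 h3
      exact Or.inl ⟨_, _, Or.inr ⟨y, _, _, hb, rfl, rfl, rfl⟩⟩
    · right; rw [h3]
    · obtain ⟨δ', hb⟩ := h.regular_right h3 h2
      exact Or.inl ⟨_, _, Or.inr ⟨y, _, _, hb, rfl, rfl, rfl⟩⟩

/-- the seam chart -/
noncomputable def chartS (h : α.Brk x s₁ s₂ δ) : OpenPartialHomeomorph α.Surf ℂ :=
  mkOPH (α.projExt '' (α.seamU x s₁ s₂ δ)) (α.seamF x s₁ s₂ ∘ α.rep) h.chartData.isOpen_image
    h.chartData.continuousOn
    (by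
      rintro p ⟨z, hz, rfl⟩ q ⟨w, hw, rfl⟩ hpq
      rw [h.chartData.comp_rep hz, h.chartData.comp_rep hw] at hpq
      exact h.inj hz hw hpq)
    (by
      intro p hp V hV
      rcases canon_or_centre h hp with ⟨ζ₀, lam, hc⟩ | rfl
      · obtain ⟨mu, hP⟩ := hc.param
        obtain ⟨a, ha, hd⟩ := good_seam h p hp _ _ hc
        exact open_of_param h.chartData.isOpen_image hp hP ha hd hV
      · exact seam_open_centre h hV)

end Sewing

end Pool.Agent.ConfSewing
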