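import Pool.Agent.ConfSewing.Defs

set_option autoImplicit false

open Set Filter Topology
open scoped Manifold ContDiff

namespace Pool.Agent.ConfSewing

namespace Sewing

variable (α : Sewing)

lemma isQuotientMap_proj : IsQuotientMap α.proj := isQuotientMap_quot_mk

lemma continuous_proj : Continuous α.proj := α.isQuotientMap_proj.continuous

lemma proj_surjective : Function.Surjective α.proj := α.isQuotientMap_proj.surjective

lemma proj_eq_iff (z w : α.carrier) : α.proj z = α.proj w ↔
    (z = w ∨ ((z : ℂ).im = 0 ∧ (w : ℂ) = α.toFun (z : ℂ).re + Complex.I) ∨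
    ((w : ℂ).im = 0 ∧ (z : ℂ) = α.toFun (w : ℂ).re + Complex.I)) :=
  Quotient.eq (r := α.setoid)

lemma projExt_of_mem {z : ℂ} (h : z ∈ α.carrier) : α.projExt z = α.proj ⟨z, h⟩ := by
  simp [projExt, h]

lemma projExt_coe (z : α.carrier) : α.projExt z = α.proj z := by
  rw [α.projExt_of_mem z.2]

lemma continuousOn_projExt : ContinuousOn α.projExt α.carrier := by
  rw [continuousOn_iff_continuous_domRestrict]
  have : α.carrier.domRestrict α.projExt = α.proj := by
    ext z
    exact α.projExt_coe z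
  rw [this]
  exact α.continuous_proj

lemma openStrip_subset : openStrip ⊆ α.carrier := by
  rintro z ⟨h1, h2, h3⟩
  exact ⟨⟨h1, h2.le, h3.le⟩, fun h => absurd h h3.ne⟩

lemma bottom_mem {x : ℝ} (hx : 0 < x) : (x : ℂ) ∈ α.carrier := by
  refine ⟨⟨by simpa using hx, by simp, by simp⟩, ?_⟩
  intro h
  simp at h

lemma top_mem {x : ℝ} (hx : α.start < x) : (x + Complex.I : ℂ) ∈ α.carrier := by
  refine ⟨⟨?_, by simp, by simp⟩, ?_⟩
  · simpa using lt_of_le_of_lt α.start_nonneg hx
  · intro _
    simpa using hx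

lemma projExt_glue {x : ℝ} (hx : 0 < x) :
    α.projExt (α.toFun x + Complex.I) = α.projExt x := by
  rw [α.projExt_of_mem (α.top_mem (α.toFun_gt hx)), α.projExt_of_mem (α.bottom_mem hx),
    proj_eq_iff]
  right; right
  simp

lemma projExt_eq_iff {z w : ℂ} (hz : z ∈ α.carrier) (hw : w ∈ α.carrier) :
    α.projExt z = α.projExt w ↔
    (z = w ∨ (z.im = 0 ∧ w = α.toFun z.re + Complex.I) ∨
    (w.im = 0 ∧ z = α.toFun w.re + Complex.I)) := by
  rw [α.projExt_of_mem hz, α.projExt_of_mem hw, proj_eq_iff]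
  simp [Subtype.ext_iff]

/-- Descend a function on the half-strip to the surface. -/
def desc {Y : Type*} (F : ℂ → Y)
    (hF : ∀ x : ℝ, 0 < x → F (α.toFun x + Complex.I) = F x) : α.Surf → Y :=
  Quotient.lift (s := α.setoid) (fun z : α.carrier => F z) (by
    rintro ⟨z, hz⟩ ⟨w, hw⟩ (h | ⟨h1, h2⟩ | ⟨h1, h2⟩)
    · rw [h]
    · simp only at h1 h2 ⊢
      have hz' : z = (z.re : ℂ) := Complex.ext (by simp) (by simp [h1])
      rw [h2, hF z.re hz.1.1, ← hz']
    · simp only at h1 h2 ⊢
      have hw' : w = (w.re : ℂ) := Complex.ext (by simp) (by simp [h1])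
      rw [h2, hF w.re hw.1.1, ← hw'])

lemma desc_proj {Y : Type*} (F : ℂ → Y)
    (hF : ∀ x : ℝ, 0 < x → F (α.toFun x + Complex.I) = F x) (z : α.carrier) :
    α.desc F hF (α.proj z) = F z := rfl

lemma desc_projExt {Y : Type*} (F : ℂ → Y)
    (hF : ∀ x : ℝ, 0 < x → F (α.toFun x + Complex.I) = F x) {z : ℂ} (hz : z ∈ α.carrier) :
    α.desc F hF (α.projExt z) = F z := by
  rw [α.projExt_of_mem hz]; rfl

lemma continuous_desc {Y : Type*} [TopologicalSpace Y] (F : ℂ → Y)
    (hF : ∀ x : ℝ, 0 < x → F (α.toFun x + Complex.I) = F x) (hc : ContinuousOn F α.carrier) :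
    Continuous (α.desc F hF) := by
  rw [α.isQuotientMap_proj.continuous_iff]
  rw [continuousOn_iff_continuous_domRestrict] at hc
  exact hc

/-- The height function `N(z) = (1 - y) α(x) + y x`. -/
noncomputable def heightFun (z : ℂ) : ℝ := (1 - z.im) * α.toFun z.re + z.im * z.re

noncomputable def height : α.Surf → ℝ :=
  α.desc α.heightFun (by intro x _; simp [heightFun])

lemma height_projExt {z : ℂ} (hz : z ∈ α.carrier) : α.height (α.projExt z) = α.heightFun z :=
  α.desc_projExt _ _ hz

lemma continuous_height : Continuous α.height := by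
  apply α.continuous_desc
  unfold heightFun
  have h1 : ContinuousOn (fun z : ℂ => α.toFun z.re) α.carrier :=
    α.continuousOn.comp Complex.continuous_re.continuousOn (fun z hz => hz.1.1)
  have h2 : ContinuousOn (fun z : ℂ => z.im) α.carrier := Complex.continuous_im.continuousOn
  have h3 : ContinuousOn (fun z : ℂ => z.re) α.carrier := Complex.continuous_re.continuousOn
  exact ((continuousOn_const.sub h2).mul h1).add (h2.mul h3)

end Sewing

/-! ### Complex analysis lemmas -/

/-- the closed half-strip beyond `M` -/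
def closedS (M : ℝ) : Set ℂ := {z | M ≤ z.re ∧ 0 ≤ z.im ∧ z.im ≤ 1}

/-- the open half-strip beyond `M` -/
def openS (M : ℝ) : Set ℂ := {z | M < z.re ∧ 0 < z.im ∧ z.im < 1}

lemma isOpen_openS (M : ℝ) : IsOpen (openS M) := by
  apply IsOpen.inter (isOpen_lt continuous_const Complex.continuous_re)
  exact IsOpen.inter (isOpen_lt continuous_const Complex.continuous_im)
    (isOpen_lt Complex.continuous_im continuous_const)

lemma openS_subset (M : ℝ) : openS M ⊆ closedS M := fun _ h => ⟨h.1.le, h.2.1.le, h.2.2.le⟩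

/-- retraction to the closed half-strip -/
noncomputable def ret (M : ℝ) (z : ℂ) : ℂ :=
  ((max M z.re : ℝ) : ℂ) + ((max 0 (min 1 z.im) : ℝ) : ℂ) * Complex.I

lemma ret_re (M : ℝ) (z : ℂ) : (ret M z).re = max M z.re := by
  unfold ret
  rw [Complex.add_re, Complex.ofReal_re, Complex.mul_re, Complex.ofReal_re, Complex.ofReal_im]
  simp

lemma ret_im (M : ℝ) (z : ℂ) : (ret M z).im = max 0 (min 1 z.im) := by
  unfold ret
  rw [Complex.add_im, Complex.ofReal_im, Complex.mul_im, Complex.ofReal_re, Complex.ofReal_im]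
  simp

lemma ret_mem (M : ℝ) (z : ℂ) : ret M z ∈ closedS M := by
  refine ⟨?_, ?_, ?_⟩
  · rw [ret_re]; exact le_max_left _ _
  · rw [ret_im]; exact le_max_left _ _
  · rw [ret_im]; exact max_le zero_le_one (min_le_left _ _)

lemma ret_of_mem {M : ℝ} {z : ℂ} (hz : z ∈ closedS M) : ret M z = z := by
  apply Complex.ext
  · rw [ret_re]; exact max_eq_right hz.1
  · rw [ret_im, min_eq_right hz.2.2, max_eq_right hz.2.1]

lemma continuous_ret (M : ℝ) : Continuous (ret M) := by
  unfold ret
  have h1 : Continuous fun z : ℂ => max M z.re := continuous_const.max Complex.continuous_re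
  have h2 : Continuous fun z : ℂ => max 0 (min 1 z.im) :=
    continuous_const.max (continuous_const.min Complex.continuous_im)
  exact (Complex.continuous_ofReal.comp h1).add
    ((Complex.continuous_ofReal.comp h2).mul continuous_const)

lemma isSimplyConnected_univ_C : IsSimplyConnected (univ : Set ℂ) := by
  unfold IsSimplyConnected
  have h : ContractibleSpace (univ : Set ℂ) := (convex_univ (𝕜 := ℝ)).contractibleSpace ⟨0, trivial⟩
  infer_instance

lemma exists_log {M : ℝ} {F : ℂ → ℂ} (hF : ContinuousOn F (closedS M))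
    (h0 : ∀ z ∈ closedS M, F z ≠ 0) :
    ∃ G : ℂ → ℂ, Continuous G ∧ ∀ z ∈ closedS M, Complex.exp (G z) = F z := by
  have hc : Continuous (F ∘ ret M) := by
    rw [← continuousOn_univ]
    exact hF.comp (continuous_ret M).continuousOn (fun z _ => ret_mem M z)
  obtain ⟨G, hG, hGe⟩ := Complex.exists_continuousOn_eqOn_exp_comp (U := (univ : Set ℂ))
    (g := F ∘ ret M) isSimplyConnected_univ_C isOpen_univ hc.continuousOn (by
      rintro ⟨z, _, hz⟩
      exact h0 _ (ret_mem M z) hz)
  refine ⟨G, continuousOn_univ.mp hG, fun z hz => ?_⟩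
  have := hGe (mem_univ z)
  simp only [Function.comp_apply] at this
  rw [this, ret_of_mem hz]

lemma differentiableOn_log {V : Set ℂ} (hV : IsOpen V) {F G : ℂ → ℂ} (hG : Continuous G)
    (hF : DifferentiableOn ℂ F V) (hFG : ∀ z ∈ V, Complex.exp (G z) = F z) :
    DifferentiableOn ℂ G V := by
  intro z₀ hz₀
  have hF0 : F z₀ ≠ 0 := by rw [← hFG z₀ hz₀]; exact Complex.exp_ne_zero _
  have hFd : DifferentiableAt ℂ F z₀ := hF.differentiableAt (hV.mem_nhds hz₀)
  -- near z₀ : G z = G z₀ + log (F z / F z₀)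
  have h1 : ∀ᶠ z in 𝓝 z₀, G z = G z₀ + Complex.log (F z / F z₀) := by
    have h2 : ∀ᶠ z in 𝓝 z₀, ‖G z - G z₀‖ < 1 := by
      have : Tendsto (fun z => ‖G z - G z₀‖) (𝓝 z₀) (𝓝 ‖G z₀ - G z₀‖) :=
        ((hG.tendsto z₀).sub tendsto_const_nhds).norm
      rw [sub_self, norm_zero] at this
      exact this.eventually (gt_mem_nhds zero_lt_one)
    filter_upwards [h2, hV.mem_nhds hz₀] with z hz hzV
    have h3 : F z / F z₀ = Complex.exp (G z - G z₀) := by
      rw [Complex.exp_sub, hFG z hzV, hFG z₀ hz₀]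
    have h4 : |(G z - G z₀).im| < 1 := lt_of_le_of_lt (Complex.abs_im_le_norm _) hz
    have hpi := Real.pi_gt_three
    rw [h3, Complex.log_exp]
    · ring
    · have := (abs_lt.mp h4).1; linarith
    · have := (abs_lt.mp h4).2; linarith
  have h5 : DifferentiableAt ℂ (fun z => G z₀ + Complex.log (F z / F z₀)) z₀ := by
    apply DifferentiableAt.add (differentiableAt_const _)
    apply DifferentiableAt.clog
    · exact hFd.div_const _
    · rw [div_self hF0]
      exact Complex.one_mem_slitPlane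
  exact (h5.congr_of_eventuallyEq h1).differentiableWithinAt

lemma annulus_preconnected {r R : ℝ} (hr : 0 < r) (hR : 0 < R) :
    IsPreconnected {w : ℂ | r < ‖w‖ ∧ ‖w‖ < R} := by
  have h1 : IsPreconnected {z : ℂ | Real.log r < z.re ∧ z.re < Real.log R} := by
    have : {z : ℂ | Real.log r < z.re ∧ z.re < Real.log R} =
        Complex.re ⁻¹' (Ioo (Real.log r) (Real.log R)) := rfl
    rw [this]
    apply Convex.isPreconnected
    exact (convex_Ioo _ _).is_linear_preimage Complex.reLm.isLinear
  have h2 : {w : ℂ | r < ‖w‖ ∧ ‖w‖ < R} =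
      Complex.exp '' {z : ℂ | Real.log r < z.re ∧ z.re < Real.log R} := by
    ext w
    simp only [mem_ofPred_eq, mem_image]
    constructor
    · rintro ⟨h1, h2⟩
      have hw : w ≠ 0 := by
        intro h; rw [h, norm_zero] at h1; linarith
      refine ⟨Complex.log w, ⟨?_, ?_⟩, Complex.exp_log hw⟩
      · rw [Complex.log_re]
        exact Real.log_lt_log hr h1
      · rw [Complex.log_re]
        exact Real.log_lt_log (hr.trans h1) h2
    · rintro ⟨z, ⟨h1, h2⟩, rfl⟩
      rw [Complex.norm_exp]
      constructor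
      · rwa [← Real.log_lt_iff_lt_exp hr]
      · rwa [← Real.lt_log_iff_exp_lt hR]
  rw [h2]
  exact h1.image _ Complex.continuous_exp.continuousOn

lemma no_log_on_circle {r : ℝ} (hr : 0 < r) {h : ℂ → ℂ}
    (hc : ContinuousOn h {w : ℂ | ‖w‖ = r}) (he : ∀ w : ℂ, ‖w‖ = r → Complex.exp (h w) = w) :
    False := by
  -- `k θ = h (r e^{iθ}) - iθ`
  set c : ℝ → ℂ := fun θ => (r : ℂ) * Complex.exp (θ * Complex.I) with hcdef
  have hcn : ∀ θ, ‖c θ‖ = r := by
    intro θ
    rw [hcdef]
    simp only [norm_mul, Complex.norm_exp_ofReal_mul_I, mul_one, Complex.norm_real,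
      Real.norm_eq_abs, abs_of_pos hr]
  have hcc : Continuous c := by
    rw [hcdef]; fun_prop
  set k : ℝ → ℂ := fun θ => h (c θ) - θ * Complex.I with hk
  have hkc : Continuous k := by
    have h1 : Continuous fun θ => h (c θ) := by
      rw [← continuousOn_univ]
      exact hc.comp hcc.continuousOn (fun θ _ => hcn θ)
    exact h1.sub (by fun_prop)
  have hke : ∀ θ, Complex.exp (k θ) = r := by
    intro θ
    rw [hk]
    simp only
    rw [Complex.exp_sub, he _ (hcn θ), hcdef]
    simp only
    rw [mul_div_assoc, div_self (Complex.exp_ne_zero _), mul_one]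
  have hr0 : (r : ℂ) ≠ 0 := by exact_mod_cast hr.ne'
  have hex : ∀ θ, ∃ n : ℤ, k θ = k 0 + n * (2 * Real.pi * Complex.I) := by
    intro θ
    have : Complex.exp (k θ) = Complex.exp (k 0) := by rw [hke, hke]
    exact Complex.exp_eq_exp_iff_exists_int.mp this
  choose m hm using hex
  have hmc : Continuous m := by
    rw [Int.isClosedEmbedding_coe_real.isInducing.continuous_iff]
    have : (fun θ => ((m θ : ℤ) : ℝ)) = fun θ => ((k θ - k 0).im) / (2 * Real.pi) := by
      ext θ
      rw [hm θ]
      have hpi : (Real.pi : ℝ) ≠ 0 := Real.pi_ne_zero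
      simp
    rw [show ((fun n : ℤ => (n : ℝ)) ∘ m) = fun θ => ((m θ : ℤ) : ℝ) from rfl, this]
    exact (Complex.continuous_im.comp (hkc.sub continuous_const)).div_const _
  have hconst : m (2 * Real.pi) = m 0 := PreconnectedSpace.constant inferInstance hmc
  have h0 : m 0 = 0 := by
    have := hm 0
    have h2 : (m 0 : ℂ) * (2 * Real.pi * Complex.I) = 0 := by
      have h3 : k 0 + 0 = k 0 + m 0 * (2 * Real.pi * Complex.I) := by rw [add_zero]; exact this
      exact (add_left_cancel h3).symm
    have h4 : (2 * Real.pi * Complex.I : ℂ) ≠ 0 := Complex.two_pi_I_ne_zero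
    have h5 := (mul_eq_zero.mp h2).resolve_right h4
    exact_mod_cast h5
  have h1 := hm (2 * Real.pi)
  rw [hconst, h0] at h1
  have hc2 : c (2 * Real.pi) = c 0 := by
    rw [hcdef]; simp
  rw [hk] at h1
  simp only [hc2] at h1
  have h6 : (2 * Real.pi * Complex.I : ℂ) = 0 := by
    have : h (c 0) - ((2 * Real.pi : ℝ) : ℂ) * Complex.I =
      h (c 0) - ((0 : ℝ) : ℂ) * Complex.I + ((0 : ℤ) : ℂ) * (2 * Real.pi * Complex.I) := h1
    push_cast at this
    linear_combination -this
  exact Complex.two_pi_I_ne_zero h6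

end Pool.Agent.ConfSewing
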