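import Pool.Agent.ConfSewing.Stage

set_option autoImplicit false

open Set Filter Topology MeasureTheory
open scoped ENNReal Manifold

namespace Pool.Agent.ConfSewing

lemma tail_lt {f : ℂ → ℝ≥0∞} (hf : Measurable f) {M : ℝ} (hM : ∫⁻ z in openS M, f z < ⊤)
    {ε : ℝ≥0∞} (hε : 0 < ε) : ∃ M', M ≤ M' ∧ ∫⁻ z in openS M', f z < ε := by
  set ν := volume.withDensity f with hν
  have hap : ∀ M', ν (openS M') = ∫⁻ z in openS M', f z := by
    intro M'
    rw [hν, withDensity_apply _ (isOpen_openS M').measurableSet]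
  have hanti : Antitone fun n : ℕ => openS (M + n) := by
    intro a b hab z hz
    have : (a : ℝ) ≤ b := by exact_mod_cast hab
    exact ⟨by have := hz.1; linarith, hz.2.1, hz.2.2⟩
  have h1 := tendsto_measure_iInter_atTop (μ := ν) (s := fun n : ℕ => openS (M + n))
    (fun n => (isOpen_openS _).measurableSet.nullMeasurableSet) hanti
    ⟨0, by rw [hap]; simpa using hM.ne⟩
  have h2 : ⋂ n : ℕ, openS (M + n) = ∅ := by
    rw [Set.eq_empty_iff_forall_notMem]
    intro z hz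
    rw [mem_iInter] at hz
    obtain ⟨n, hn⟩ := exists_nat_gt (z.re - M)
    have := (hz n).1
    linarith
  rw [h2, measure_empty] at h1
  obtain ⟨n, hn⟩ := (h1.eventually (gt_mem_nhds hε)).exists
  refine ⟨M + n, by linarith [Nat.cast_nonneg (α := ℝ) n], ?_⟩
  rw [← hap]
  exact hn

/-- A sewing with arbitrarily late insulating stages does not have a hyperbolic end. -/
theorem Sewing.not_hyperbolic (α : Sewing) (hx : ∀ x : ℝ, 0 < x → x ≤ α.toFun x)
    (hst : ∀ M : ℝ, ∃ (h : ℝ) (m : ℕ), StageFormula α.toFun h m ∧ 0 < h ∧ h ≤ 1 ∧ 1 ≤ h * m ∧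
      M < 3 / 2 * h * m - h)
    (cs : ChartedSpace ℂ α.Surf) (hcs : α.IsRiemannStructure cs) : ¬ α.HasHyperbolicEnd cs := by
  intro hh
  obtain ⟨M, G, n, hM0, hn, hG, hGd, hglue, hfin⟩ := α.exists_G hx cs hcs.2 hh
  obtain ⟨M', hMM', hM'⟩ := tail_lt ((measurable_deriv G).enorm.pow_const 2) hfin
    (ε := ENNReal.ofReal (1 / 9)) (by simp)
  obtain ⟨h, m, hsf, hh0, hh1, hm, hMh⟩ := hst M'
  have hw : ENNReal.ofReal 6 ≤ ‖(n * (2 * Real.pi * Complex.I) : ℂ)‖ₑ := by
    rw [← ofReal_norm]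
    apply ENNReal.ofReal_le_ofReal
    rw [norm_mul, norm_mul, norm_mul, Complex.norm_I, Complex.norm_intCast, Complex.norm_real,
      Real.norm_of_nonneg Real.pi_pos.le, Complex.norm_two, mul_one]
    have h1 : (1 : ℝ) ≤ |(n : ℝ)| := by
      have : (1 : ℤ) ≤ |n| := Int.one_le_abs hn
      exact_mod_cast this
    have h2 := Real.pi_gt_three
    nlinarith
  have hsub : openS M' ⊆ openS M := fun z hz => ⟨lt_of_le_of_lt hMM' hz.1, hz.2.1, hz.2.2⟩
  have h1 := stage_energy hG (hGd.mono hsub) hsf hh0 hh1 hm hMh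
    (fun x hx' => hglue x (hMM'.trans hx')) hw
  exact absurd (lt_of_le_of_lt h1 hM') (lt_irrefl _)

end Pool.Agent.ConfSewing
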