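import Pool.Agent.ConfSewing.PL
import Pool.Agent.ConfSewing.Tail

set_option autoImplicit false

open Set Filter Topology

namespace Pool.Agent.ConfSewing

/-- the convex PL profile -/
noncomputable def prof : ℕ → ℝ → ℝ
  | 0, u => 6 + 8 * u
  | q + 1, u => max (prof q u) (3 * 2 ^ (q + 2) + 2 * 4 ^ (q + 2) * u)

lemma prof_PLH (q : ℕ) : PLH (prof q) := by
  induction q with
  | zero => exact PLH.affine 6 (by norm_num)
  | succ q ih => exact ih.max (PLH.affine _ (by positivity))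

lemma prof_le {q : ℕ} {u A : ℝ}
    (h : ∀ j, 1 ≤ j → j ≤ q + 1 → 3 * 2 ^ j + 2 * 4 ^ j * u ≤ A) : prof q u ≤ A := by
  induction q with
  | zero =>
    have := h 1 le_rfl (by omega)
    show 6 + 8 * u ≤ A
    linarith
  | succ q ih =>
    exact max_le (ih fun j h1 h2 => h j h1 (by omega)) (h (q + 2) (by omega) (by omega))

lemma le_prof {q : ℕ} {u : ℝ} {j : ℕ} (h1 : 1 ≤ j) (h2 : j ≤ q + 1) :
    3 * 2 ^ j + 2 * 4 ^ j * u ≤ prof q u := by
  induction q with
  | zero =>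
    have : j = 1 := by omega
    subst this
    show _ ≤ 6 + 8 * u
    linarith
  | succ q ih =>
    by_cases h : j ≤ q + 1
    · exact (ih h).trans (le_max_left _ _)
    · have : j = q + 2 := by omega
      subst this
      exact le_max_right _ _

lemma term_le {j b : ℕ} (hb : 1 ≤ b) {v : ℝ} (hv0 : 0 ≤ v) (hv1 : v ≤ 1) :
    3 * 2 ^ j + 2 * 4 ^ j * (-((2 - v) / 2 ^ b)) ≤ 2 ^ (b - 1) * (1 + v) := by
  have h4 : ∀ n : ℕ, (4 : ℝ) ^ n = 2 ^ n * 2 ^ n := by
    intro n; rw [← mul_pow]; norm_num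
  obtain ⟨c, rfl⟩ : ∃ c, b = c + 1 := ⟨b - 1, by omega⟩
  rw [Nat.add_sub_cancel, pow_succ]
  rcases lt_trichotomy j c with h | h | h
  · obtain ⟨d, rfl⟩ : ∃ d, c = j + (d + 1) := ⟨c - j - 1, by omega⟩
    rw [pow_add, h4 j]
    have hD : (2 : ℝ) ≤ 2 ^ (d + 1) := by
      rw [pow_succ]
      have : (1 : ℝ) ≤ 2 ^ d := one_le_pow₀ (by norm_num)
      linarith
    set D : ℝ := 2 ^ (d + 1) with hDdef
    set X : ℝ := 2 ^ j with hX
    have hX0 : 0 < X := by positivity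
    have hD0 : 0 < D := by positivity
    have e : 3 * X + 2 * (X * X) * (-((2 - v) / (X * D * 2))) = X * (3 - (2 - v) / D) := by
      field_simp
      ring
    rw [e]
    have h5 : 3 - (2 - v) / D ≤ D * (1 + v) := by
      rw [sub_le_iff_le_add]
      have h6 : (D * (1 + v) + (2 - v) / D) = (D * D * (1 + v) + (2 - v)) / D := by
        field_simp
      rw [h6, le_div_iff₀ hD0]
      nlinarith [mul_nonneg (sub_nonneg.mpr (by linarith : (1 : ℝ) ≤ D))
        (by nlinarith : 0 ≤ D * (1 + v) - (2 - v))]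
    calc X * (3 - (2 - v) / D) ≤ X * (D * (1 + v)) := by gcongr
      _ = X * D * (1 + v) := by ring
  · subst h
    rw [h4 j]
    apply le_of_eq
    have hX0 : (0 : ℝ) < 2 ^ j := by positivity
    field_simp
    ring
  · obtain ⟨d, rfl⟩ : ∃ d, j = c + (d + 1) := ⟨j - c - 1, by omega⟩
    rw [h4, pow_add]
    have hD : (2 : ℝ) ≤ 2 ^ (d + 1) := by
      rw [pow_succ]
      have : (1 : ℝ) ≤ 2 ^ d := one_le_pow₀ (by norm_num)
      linarith
    set D : ℝ := 2 ^ (d + 1) with hDdef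
    set X : ℝ := 2 ^ c with hX
    have hX0 : 0 < X := by positivity
    have hD0 : 0 < D := by positivity
    have e : 3 * (X * D) + 2 * ((X * D) * (X * D)) * (-((2 - v) / (X * 2))) =
        X * (3 * D - D * D * (2 - v)) := by
      field_simp; ring
    rw [e]
    have h5 : 3 * D - D * D * (2 - v) ≤ 1 + v := by
      nlinarith [mul_nonneg (sub_nonneg.mpr (by linarith : (1 : ℝ) ≤ D))
        (by nlinarith : 0 ≤ D * (2 - v) - (1 + v))]
    gcongr

lemma prof_val {q b : ℕ} (hb : 2 ≤ b) (hb' : b ≤ q + 2) {v : ℝ} (hv0 : 0 ≤ v) (hv1 : v ≤ 1) :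
    prof q (-((2 - v) / 2 ^ b)) = 2 ^ (b - 1) * (1 + v) := by
  apply le_antisymm
  · exact prof_le fun j _ _ => term_le (by omega) hv0 hv1
  · refine le_trans (le_of_eq ?_) (le_prof (j := b - 1) (by omega) (by omega))
    obtain ⟨c, rfl⟩ : ∃ c, b = c + 1 := ⟨b - 1, by omega⟩
    have h4 : ∀ n : ℕ, (4 : ℝ) ^ n = 2 ^ n * 2 ^ n := by
      intro n; rw [← mul_pow]; norm_num
    rw [Nat.add_sub_cancel, pow_succ, h4 c]
    have hX0 : (0 : ℝ) < 2 ^ c := by positivity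
    field_simp
    ring

lemma prof_zero (q : ℕ) : prof q 0 = 3 * 2 ^ (q + 1) := by
  apply le_antisymm
  · apply prof_le
    intro j h1 h2
    rw [mul_zero, add_zero]
    gcongr
    norm_num
  · have := le_prof (q := q) (u := 0) (j := q + 1) (by omega) le_rfl
    linarith

lemma prof_end (q : ℕ) : prof q (-(3 / 4)) = 0 := by
  apply le_antisymm
  · apply prof_le
    intro j h1 h2
    obtain ⟨c, rfl⟩ : ∃ c, j = c + 1 := ⟨j - 1, by omega⟩
    have h4 : ∀ n : ℕ, (4 : ℝ) ^ n = 2 ^ n * 2 ^ n := by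
      intro n; rw [← mul_pow]; norm_num
    have h5 : (1 : ℝ) ≤ 2 ^ c := one_le_pow₀ (by norm_num)
    rw [h4, pow_succ]
    nlinarith
  · have := le_prof (q := q) (u := -(3 / 4)) (j := 1) le_rfl (by omega)
    linarith

/-! ### tiles -/

/-- left half of a tile -/
noncomputable def tl (h : ℝ) (l : ℕ) (x : ℝ) : ℝ :=
  3 * h * l + h / 2 ^ (l + 3) * prof (l + 1) (h⁻¹ * (x - (3 / 2 * h * l + 3 / 4 * h)))
/-- right half of a tile -/
noncomputable def tr (h : ℝ) (l : ℕ) (x : ℝ) : ℝ :=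
  3 * h * (l + 1) - h / 2 ^ (l + 5) * prof (l + 3) (h⁻¹ * ((3 / 2 * h * l + 3 / 4 * h) - x))
/-- a tile -/
noncomputable def tile (h : ℝ) (l : ℕ) : ℝ → ℝ := glue (3 / 2 * h * l + 3 / 4 * h) (tl h l) (tr h l)

section tile

variable {h : ℝ} (hh : 0 < h)
include hh

lemma tl_left (l : ℕ) {b a : ℕ} (hb : 2 ≤ b) (hab : a + b = l + 4) (ha : 1 ≤ a) {v : ℝ}
    (hv0 : 0 ≤ v) (hv1 : v ≤ 1) :
    tl h l (3 / 2 * h * l + 3 / 4 * h - h / 2 ^ b * (2 - v)) = 3 * h * l + h / 2 ^ a * (1 + v) := by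
  unfold tl
  have e : h⁻¹ * (3 / 2 * h * l + 3 / 4 * h - h / 2 ^ b * (2 - v) - (3 / 2 * h * l + 3 / 4 * h)) =
      -((2 - v) / 2 ^ b) := by
    field_simp; ring
  rw [e, prof_val hb (by omega) hv0 hv1]
  have e2 : (2 : ℝ) ^ (l + 3) = 2 ^ a * 2 ^ (b - 1) := by
    rw [← pow_add]; congr 1; omega
  rw [e2]
  field_simp

lemma tr_right (l : ℕ) {b a : ℕ} (hb : 2 ≤ b) (hab : a + b = l + 6) (ha : 1 ≤ a) {v : ℝ}
    (hv0 : 0 ≤ v) (hv1 : v ≤ 1) :
    tr h l (3 / 2 * h * l + 3 / 4 * h + h / 2 ^ b * (2 - v)) =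
      3 * h * (l + 1) - h / 2 ^ a * (1 + v) := by
  unfold tr
  have e : h⁻¹ * (3 / 2 * h * l + 3 / 4 * h - (3 / 2 * h * l + 3 / 4 * h + h / 2 ^ b * (2 - v))) =
      -((2 - v) / 2 ^ b) := by
    field_simp; ring
  rw [e, prof_val hb (by omega) hv0 hv1]
  have e2 : (2 : ℝ) ^ (l + 5) = 2 ^ a * 2 ^ (b - 1) := by
    rw [← pow_add]; congr 1; omega
  rw [e2]
  field_simp

lemma tl_mid (l : ℕ) : tl h l (3 / 2 * h * l + 3 / 4 * h) = 3 * h * l + 3 / 2 * h := by
  unfold tl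
  rw [sub_self, mul_zero, prof_zero, pow_succ 2 (l + 2)]
  field_simp

lemma tr_mid (l : ℕ) : tr h l (3 / 2 * h * l + 3 / 4 * h) = 3 * h * l + 3 / 2 * h := by
  unfold tr
  rw [sub_self, mul_zero, prof_zero, pow_succ 2 (l + 4)]
  field_simp
  ring

lemma tl_start (l : ℕ) : tl h l (3 / 2 * h * l) = 3 * h * l := by
  unfold tl
  have e : h⁻¹ * (3 / 2 * h * l - (3 / 2 * h * l + 3 / 4 * h)) = -(3 / 4) := by
    field_simp; ring
  rw [e, prof_end]; ring

lemma tr_end (l : ℕ) : tr h l (3 / 2 * h * (l + 1)) = 3 * h * (l + 1) := by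
  unfold tr
  have e : h⁻¹ * (3 / 2 * h * l + 3 / 4 * h - 3 / 2 * h * (l + 1)) = -(3 / 4) := by
    field_simp; ring
  rw [e, prof_end]; ring

lemma tile_PLH (l : ℕ) : PLH (tile h l) := by
  apply PLH.glue
  · exact (prof_PLH _).comp_affine _ _ (by positivity) (by positivity)
  · exact (prof_PLH _).refl_affine _ _ (by positivity) (by positivity)
  · rw [tl_mid hh, tr_mid hh]

lemma tile_start (l : ℕ) : tile h l (3 / 2 * h * l) = 3 * h * l := by
  unfold tile
  rw [glue_of_le (by linarith), tl_start hh]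

lemma tile_end (l : ℕ) : tile h l (3 / 2 * h * (l + 1)) = 3 * h * (l + 1) := by
  unfold tile
  rw [glue_of_lt (by linarith), tr_end hh]

lemma tile_left (l : ℕ) {b a : ℕ} (hb : 2 ≤ b) (hab : a + b = l + 4) (ha : 1 ≤ a) {v : ℝ}
    (hv0 : 0 ≤ v) (hv1 : v ≤ 1) :
    tile h l (3 / 2 * h * l + 3 / 4 * h - h / 2 ^ b * (2 - v)) =
      3 * h * l + h / 2 ^ a * (1 + v) := by
  unfold tile
  rw [glue_of_le, tl_left hh l hb hab ha hv0 hv1]
  have : 0 ≤ h / 2 ^ b * (2 - v) := by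
    apply mul_nonneg (by positivity); linarith
  linarith

lemma tile_right (l : ℕ) {b a : ℕ} (hb : 2 ≤ b) (hab : a + b = l + 6) (ha : 1 ≤ a) {v : ℝ}
    (hv0 : 0 ≤ v) (hv1 : v ≤ 1) :
    tile h l (3 / 2 * h * l + 3 / 4 * h + h / 2 ^ b * (2 - v)) =
      3 * h * (l + 1) - h / 2 ^ a * (1 + v) := by
  unfold tile
  rw [glue_of_lt, tr_right hh l hb hab ha hv0 hv1]
  have : 0 < h / 2 ^ b * (2 - v) := by
    apply mul_pos (by positivity); linarith
  linarith

/-- the boundaries of tiles -/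
noncomputable def bd (h : ℝ) (m k : ℕ) : ℝ := 3 / 2 * h * ((m + k : ℕ) : ℝ)

lemma bd_strictMono (m : ℕ) : StrictMono (bd h m) := by
  apply strictMono_nat_of_lt_succ
  intro k
  unfold bd
  push_cast
  nlinarith

omit hh in
lemma two_PLH : PLH fun x : ℝ => 2 * x := by
  have := PLH.affine 0 (s := 2) (by norm_num)
  simpa using this

/-- the stage function -/
noncomputable def stage (h : ℝ) (m : ℕ) : ℝ → ℝ :=
  glueInf (bd h m) (fun x => 2 * x) (fun k => tile h (m + k))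

lemma stage_m0 (m : ℕ) : (fun x : ℝ => 2 * x) (bd h m 0) = (fun k => tile h (m + k)) 0 (bd h m 0) := by
  simp only [bd, add_zero]
  rw [tile_start hh]; ring

lemma stage_m1 (m : ℕ) (k : ℕ) : (fun k => tile h (m + k)) k (bd h m (k + 1)) =
    (fun k => tile h (m + k)) (k + 1) (bd h m (k + 1)) := by
  simp only [bd]
  rw [show m + (k + 1) = (m + k) + 1 by ring, tile_start hh]
  have : (((m + k) + 1 : ℕ) : ℝ) = ((m + k : ℕ) : ℝ) + 1 := by push_cast; ring
  rw [this, tile_end hh]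

lemma stage_PLH (m : ℕ) : PLH (stage h m) := by
  apply glueInf_PLH (bd_strictMono hh m) (stage_m0 hh m) (stage_m1 hh m) two_PLH
    (fun k => tile_PLH hh _)
  intro x
  obtain ⟨n, hn⟩ := exists_nat_gt (x / (3 / 2 * h))
  refine ⟨n, ?_⟩
  rw [div_lt_iff₀ (by positivity)] at hn
  unfold bd
  push_cast
  nlinarith [Nat.cast_nonneg (α := ℝ) m]

lemma stage_low {m : ℕ} {x : ℝ} (hx : x ≤ 3 / 2 * h * m) : stage h m x = 2 * x := by
  apply glueInf_low (bd_strictMono hh m)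
  simpa [bd] using hx

lemma stage_tile {m l : ℕ} (hl : m ≤ l) {x : ℝ} (hx : 3 / 2 * h * l ≤ x)
    (hx' : x ≤ 3 / 2 * h * (l + 1)) : stage h m x = tile h l x := by
  obtain ⟨k, rfl⟩ := Nat.exists_eq_add_of_le hl
  apply glueInf_piece (bd_strictMono hh m) (stage_m0 hh m) (stage_m1 hh m)
  · exact hx
  · unfold bd; push_cast at hx' ⊢; linarith

lemma stage_bd {m l : ℕ} (hl : m ≤ l) : stage h m (3 / 2 * h * l) = 3 * h * l := by
  rw [stage_tile hh hl le_rfl (by nlinarith), tile_start hh]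

end tile

/-! ### the sewing function -/

section beta

/-- the scale in block `n` -/
noncomputable def hs (m : ℕ → ℕ) (n : ℕ) : ℝ := 2 / 3 * (5 ^ n / m n)

variable (m : ℕ → ℕ) (hm : ∀ n, 1 ≤ m n)

/-- the function `β` -/
noncomputable def bet : ℝ → ℝ :=
  glueInf (fun n => 5 ^ n) (fun x => 2 * x) (fun n => stage (hs m n) (m n))

include hm

lemma hs_pos (n : ℕ) : 0 < hs m n := by
  have : (0 : ℝ) < m n := by exact_mod_cast hm n
  unfold hs; positivity

lemma hs_mul (n : ℕ) : 3 / 2 * hs m n * m n = 5 ^ n := by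
  have : (0 : ℝ) < m n := by exact_mod_cast hm n
  unfold hs; field_simp

omit hm in
lemma five_strictMono : StrictMono fun n : ℕ => (5 : ℝ) ^ n :=
  pow_right_strictMono₀ (by norm_num)

lemma stage_five (n : ℕ) : stage (hs m n) (m n) (5 ^ n) = 2 * 5 ^ n := by
  have h1 := stage_bd (hs_pos m hm n) (le_refl (m n))
  have h2 := hs_mul m hm n
  rw [h2] at h1
  rw [h1]; linarith

lemma stage_five_succ (n : ℕ) : stage (hs m n) (m n) (5 ^ (n + 1)) = 2 * 5 ^ (n + 1) := by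
  have h1 := stage_bd (hs_pos m hm n) (show m n ≤ 5 * m n by omega)
  have h2 := hs_mul m hm n
  have h3 : 3 / 2 * hs m n * ((5 * m n : ℕ) : ℝ) = 5 ^ (n + 1) := by
    push_cast; rw [pow_succ, ← h2]; ring
  rw [h3] at h1
  rw [h1, ← h3]; ring

lemma bet_m0 : (fun x : ℝ => 2 * x) ((fun n : ℕ => (5 : ℝ) ^ n) 0) =
    (fun n => stage (hs m n) (m n)) 0 ((fun n : ℕ => (5 : ℝ) ^ n) 0) := by
  simp only
  rw [stage_five m hm]

lemma bet_m1 (n : ℕ) : (fun n => stage (hs m n) (m n)) n ((fun n : ℕ => (5 : ℝ) ^ n) (n + 1)) =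
    (fun n => stage (hs m n) (m n)) (n + 1) ((fun n : ℕ => (5 : ℝ) ^ n) (n + 1)) := by
  simp only
  rw [stage_five m hm, stage_five_succ m hm]

lemma bet_PLH : PLH (bet m) := by
  apply glueInf_PLH five_strictMono (bet_m0 m hm) (bet_m1 m hm) two_PLH
    (fun n => stage_PLH (hs_pos m hm n) _)
  intro x
  exact pow_unbounded_of_one_lt x (by norm_num)

omit hm in
lemma bet_low {x : ℝ} (hx : x ≤ 1) : bet m x = 2 * x := by
  apply glueInf_low five_strictMono
  simpa using hx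

lemma bet_block {n : ℕ} {x : ℝ} (hx : 5 ^ n ≤ x) (hx' : x ≤ 5 ^ (n + 1)) :
    bet m x = stage (hs m n) (m n) x :=
  glueInf_piece five_strictMono (bet_m0 m hm) (bet_m1 m hm) hx hx'

lemma bet_tile {n l : ℕ} (hl : m n ≤ l) (hl' : l < 5 * m n) {x : ℝ}
    (hx : 3 / 2 * hs m n * l ≤ x) (hx' : x ≤ 3 / 2 * hs m n * (l + 1)) :
    bet m x = tile (hs m n) l x := by
  have h0 := hs_pos m hm n
  have h1 := hs_mul m hm n
  have h2 : (m n : ℝ) ≤ l := by exact_mod_cast hl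
  have h3 : (l : ℝ) + 1 ≤ 5 * m n := by exact_mod_cast hl'
  rw [bet_block m hm (n := n), stage_tile h0 hl hx hx']
  · rw [← h1]; nlinarith
  · rw [pow_succ, ← h1]; nlinarith

lemma bet_stageFormula (n : ℕ) : StageFormula (bet m) (hs m n) (m n) := by
  have h0 := hs_pos m hm n
  have key : ∀ (b : ℕ) (v : ℝ), 2 ≤ b → 0 ≤ v → v ≤ 1 →
      0 ≤ hs m n / 2 ^ b * (2 - v) ∧ hs m n / 2 ^ b * (2 - v) ≤ hs m n / 2 := by
    intro b v hb hv0 hv1
    have h1 : hs m n / 2 ^ b ≤ hs m n / 4 := by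
      apply div_le_div_of_nonneg_left h0.le (by norm_num)
      calc (4 : ℝ) = 2 ^ 2 := by norm_num
        _ ≤ 2 ^ b := pow_le_pow_right₀ (by norm_num) hb
    have h2 : 0 < hs m n / 2 ^ b := by positivity
    constructor <;> nlinarith
  have hmn := hm n
  constructor
  · intro l a b hl hl' hb ha hab v hv0 hv1
    obtain ⟨k1, k2⟩ := key b v hb hv0 hv1
    rw [bet_tile m hm hl (by omega), tile_left h0 l hb hab ha hv0 hv1]
    · linarith
    · linarith
  · intro l a b hl hl' hb ha hab v hv0 hv1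
    obtain ⟨k1, k2⟩ := key b v hb hv0 hv1
    rw [bet_tile m hm hl (by omega), tile_right h0 l hb hab ha hv0 hv1]
    · linarith
    · linarith

lemma exists_tile {n : ℕ} {x : ℝ} (hx : 5 ^ n ≤ x) (hx' : x < 5 ^ (n + 1)) :
    ∃ l, m n ≤ l ∧ l < 5 * m n ∧ 3 / 2 * hs m n * l ≤ x ∧ x ≤ 3 / 2 * hs m n * (l + 1) := by
  have h0 := hs_pos m hm n
  have h1 := hs_mul m hm n
  have hx0 : (0 : ℝ) < x := lt_of_lt_of_le (by positivity) hx
  set τ := 3 / 2 * hs m n with hτ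
  have hτ0 : 0 < τ := by positivity
  refine ⟨⌊x / τ⌋₊, ?_, ?_, ?_, ?_⟩
  · apply Nat.le_floor
    rw [le_div_iff₀ hτ0]
    linarith
  · rw [Nat.floor_lt (by positivity), div_lt_iff₀ hτ0]
    push_cast
    rw [pow_succ] at hx'
    linarith
  · have := Nat.floor_le (show 0 ≤ x / τ by positivity)
    rw [le_div_iff₀ hτ0] at this
    linarith
  · have := (Nat.lt_floor_add_one (x / τ)).le
    rw [div_le_iff₀ hτ0] at this
    linarith

lemma bet_bounds {n : ℕ} {x : ℝ} (hx : 5 ^ n ≤ x) (hx' : x < 5 ^ (n + 1)) :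
    |bet m x - 2 * x| ≤ 2 * (5 ^ n / m n) ∧ x ≤ bet m x := by
  obtain ⟨l, h1, h2, h3, h4⟩ := exists_tile m hm hx hx'
  have h0 := hs_pos m hm n
  have hmono := (bet_PLH m hm).strictMono.monotone
  have e1 : bet m (3 / 2 * hs m n * l) = 3 * hs m n * l := by
    rw [bet_tile m hm h1 h2 le_rfl (by nlinarith), tile_start h0]
  have e2 : bet m (3 / 2 * hs m n * (l + 1)) = 3 * hs m n * (l + 1) := by
    rw [bet_tile m hm h1 h2 (by nlinarith) le_rfl, tile_end h0]
  have h5 := hmono h3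
  have h6 := hmono h4
  rw [e1] at h5
  rw [e2] at h6
  have h7 : 2 * (5 ^ n / (m n : ℝ)) = 3 * hs m n := by unfold hs; ring
  constructor
  · rw [h7, abs_le]
    constructor <;> linarith
  · have h8 : (1 : ℝ) ≤ l := by exact_mod_cast (hm n).trans h1
    nlinarith

omit hm in
lemma exists_block {x : ℝ} (hx : 1 ≤ x) : ∃ n : ℕ, 5 ^ n ≤ x ∧ x < 5 ^ (n + 1) :=
  exists_nat_pow_near hx (by norm_num)

lemma le_bet {x : ℝ} (hx : 0 < x) : x ≤ bet m x := by
  rcases le_total x 1 with h | h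
  · rw [bet_low m h]; linarith
  · obtain ⟨n, h1, h2⟩ := exists_block h
    exact (bet_bounds m hm h1 h2).2

lemma bet_image : bet m '' Ioi 0 = Ioi 0 := by
  have hmono := (bet_PLH m hm).strictMono
  have h0 : bet m 0 = 0 := by rw [bet_low m (by norm_num)]; ring
  ext y
  constructor
  · rintro ⟨x, hx, rfl⟩
    have := hmono hx
    rw [h0] at this
    exact this
  · intro hy
    have hy' : 0 < y := hy
    have h1 : y ≤ bet m y := le_bet m hm hy'
    have h2 := intermediate_value_Icc hy'.le (bet_PLH m hm).continuous.continuousOn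
    rw [h0] at h2
    obtain ⟨x, hx, hxy⟩ := h2 ⟨hy'.le, h1⟩
    refine ⟨x, ?_, hxy⟩
    rcases hx.1.eq_or_lt with h | h
    · rw [← h, h0] at hxy
      exact absurd hxy hy'.ne
    · exact h

/-- the sewing `β` -/
noncomputable def betaSewing : Sewing where
  toFun := bet m
  start := 0
  start_nonneg := le_rfl
  strictMonoOn := (bet_PLH m hm).strictMono.strictMonoOn _
  continuousOn := (bet_PLH m hm).continuous.continuousOn
  image_eq := bet_image m hm

lemma betaSewing_not_hyperbolic (hsmall : ∀ n, hs m n ≤ 1)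
    (cs : ChartedSpace ℂ (betaSewing m hm).Surf)
    (hcs : (betaSewing m hm).IsRiemannStructure cs) :
    ¬ (betaSewing m hm).HasHyperbolicEnd cs := by
  apply Sewing.not_hyperbolic _ (fun x hx => le_bet m hm hx) _ cs hcs
  intro M
  obtain ⟨n, hn⟩ := pow_unbounded_of_one_lt (M + 2) (show (1 : ℝ) < 5 by norm_num)
  refine ⟨hs m (n + 1), m (n + 1), bet_stageFormula m hm _, hs_pos m hm _, hsmall _, ?_, ?_⟩
  · have h1 := hs_mul m hm (n + 1)
    have h2 : (1 : ℝ) ≤ 5 ^ n := one_le_pow₀ (by norm_num)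
    rw [pow_succ] at h1
    linarith
  · have h1 := hs_mul m hm (n + 1)
    have h2 : (1 : ℝ) ≤ 5 ^ n := one_le_pow₀ (by norm_num)
    have h3 := hsmall (n + 1)
    rw [h1, pow_succ]
    linarith

end beta

/-- choice of the parameters for a given `ε` -/
lemma exists_params (ε : ℝ → ℝ) (hε : ContinuousOn ε (Ioi 0)) (hpos : ∀ x, 0 < x → 0 < ε x) :
    ∃ (m : ℕ → ℕ) (hm : ∀ n, 1 ≤ m n), (∀ n, hs m n ≤ 1) ∧
      ∀ x, 0 < x → |(betaSewing m hm).toFun x - 2 * x| < ε x := by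
  have h1 : ∀ n : ℕ, ∃ k : ℕ, 1 ≤ k ∧ (5 : ℝ) ^ n ≤ k ∧
      ∀ x ∈ Icc ((5 : ℝ) ^ n) (5 ^ (n + 1)), 2 * (5 ^ n / (k : ℝ)) < ε x := by
    intro n
    have hsub : Icc ((5 : ℝ) ^ n) (5 ^ (n + 1)) ⊆ Ioi 0 := fun x hx =>
      lt_of_lt_of_le (by positivity) hx.1
    have hne : (Icc ((5 : ℝ) ^ n) (5 ^ (n + 1))).Nonempty := by
      rw [nonempty_Icc]
      exact five_strictMono.monotone (Nat.le_succ n)
    obtain ⟨x₀, hx₀, hmin⟩ := isCompact_Icc.exists_isMinOn hne (hε.mono hsub)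
    have he := hpos x₀ (hsub hx₀)
    obtain ⟨k, hk⟩ := exists_nat_gt (max (max 1 ((5 : ℝ) ^ n)) (2 * 5 ^ n / ε x₀))
    have hk1 : (1 : ℝ) < k := lt_of_le_of_lt ((le_max_left _ _).trans (le_max_left _ _)) hk
    have hk2 : (5 : ℝ) ^ n < k := lt_of_le_of_lt ((le_max_right _ _).trans (le_max_left _ _)) hk
    have hk3 : 2 * 5 ^ n / ε x₀ < k := lt_of_le_of_lt (le_max_right _ _) hk
    refine ⟨k, by exact_mod_cast hk1.le, hk2.le, fun x hx => lt_of_lt_of_le ?_ (hmin hx)⟩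
    rw [div_lt_iff₀ he] at hk3
    rw [← mul_div_assoc, div_lt_iff₀ (by linarith)]
    linarith
  choose m hm1 hm2 hm3 using h1
  refine ⟨m, hm1, ?_, ?_⟩
  · intro n
    have h0 : (0 : ℝ) < m n := by exact_mod_cast hm1 n
    have : (5 : ℝ) ^ n / m n ≤ 1 := by
      rw [div_le_one h0]; exact hm2 n
    unfold hs
    linarith
  · intro x hx
    show |bet m x - 2 * x| < ε x
    rcases lt_or_ge x 1 with h | h
    · rw [bet_low m h.le, sub_self, abs_zero]
      exact hpos x hx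
    · obtain ⟨n, h1, h2⟩ := exists_block h
      exact lt_of_le_of_lt (bet_bounds m hm1 h1 h2).1 (hm3 n x ⟨h1, h2.le⟩)

end Pool.Agent.ConfSewing
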