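import Mathlib

set_option autoImplicit false

open Set Filter Topology

namespace Pool.Agent.ConfSewing

/-- right affine germ with positive slope -/
def RG (f : ℝ → ℝ) (x : ℝ) : Prop := ∃ s : ℝ, 0 < s ∧ ∀ᶠ y in 𝓝[>] x, f y = f x + s * (y - x)
/-- left affine germ with positive slope -/
def LG (f : ℝ → ℝ) (x : ℝ) : Prop := ∃ s : ℝ, 0 < s ∧ ∀ᶠ y in 𝓝[<] x, f y = f x + s * (y - x)

/-- piecewise linear increasing functions (germ version) -/
def PLH (f : ℝ → ℝ) : Prop := ∀ x, RG f x ∧ LG f x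

lemma RG.congr {f g : ℝ → ℝ} {x : ℝ} (hf : RG f x) (h : f =ᶠ[𝓝[>] x] g) (hx : f x = g x) :
    RG g x := by
  obtain ⟨s, hs, hs'⟩ := hf
  refine ⟨s, hs, ?_⟩
  filter_upwards [hs', h] with y h1 h2
  rw [← h2, h1, hx]

lemma LG.congr {f g : ℝ → ℝ} {x : ℝ} (hf : LG f x) (h : f =ᶠ[𝓝[<] x] g) (hx : f x = g x) :
    LG g x := by
  obtain ⟨s, hs, hs'⟩ := hf
  refine ⟨s, hs, ?_⟩
  filter_upwards [hs', h] with y h1 h2
  rw [← h2, h1, hx]

lemma PLH.affine (a : ℝ) {s : ℝ} (hs : 0 < s) : PLH fun x => a + s * x := by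
  intro x
  refine ⟨⟨s, hs, Eventually.of_forall fun y => ?_⟩, ⟨s, hs, Eventually.of_forall fun y => ?_⟩⟩ <;>
  ring

lemma RG.continuousWithinAt {f : ℝ → ℝ} {x : ℝ} (hf : RG f x) :
    Tendsto f (𝓝[>] x) (𝓝 (f x)) := by
  obtain ⟨s, hs, hs'⟩ := hf
  have h1 : Tendsto (fun y => f x + s * (y - x)) (𝓝[>] x) (𝓝 (f x + s * (x - x))) :=
    (Continuous.tendsto (by fun_prop) x).mono_left nhdsWithin_le_nhds
  rw [sub_self, mul_zero, add_zero] at h1
  exact h1.congr' (hs'.mono fun y hy => hy.symm)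

lemma LG.continuousWithinAt {f : ℝ → ℝ} {x : ℝ} (hf : LG f x) :
    Tendsto f (𝓝[<] x) (𝓝 (f x)) := by
  obtain ⟨s, hs, hs'⟩ := hf
  have h1 : Tendsto (fun y => f x + s * (y - x)) (𝓝[<] x) (𝓝 (f x + s * (x - x))) :=
    (Continuous.tendsto (by fun_prop) x).mono_left nhdsWithin_le_nhds
  rw [sub_self, mul_zero, add_zero] at h1
  exact h1.congr' (hs'.mono fun y hy => hy.symm)

lemma RG.max {f g : ℝ → ℝ} {x : ℝ} (hf : RG f x) (hg : RG g x) :
    RG (fun y => max (f y) (g y)) x := by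
  rcases lt_trichotomy (f x) (g x) with h | h | h
  · have h1 : ∀ᶠ y in 𝓝[>] x, f y < g y := hf.continuousWithinAt.eventually_lt
      hg.continuousWithinAt h
    exact hg.congr (h1.mono fun y hy => (max_eq_right hy.le).symm) (max_eq_right h.le).symm
  · obtain ⟨s, hs, hs'⟩ := hf
    obtain ⟨t, ht, ht'⟩ := hg
    refine ⟨Max.max s t, lt_max_of_lt_left hs, ?_⟩
    filter_upwards [hs', ht', self_mem_nhdsWithin] with y h1 h2 h3
    have h4 : 0 ≤ y - x := sub_nonneg.mpr (le_of_lt h3)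
    rw [h1, h2, h, max_self, max_add_add_left, max_mul_of_nonneg _ _ h4]
  · have h1 : ∀ᶠ y in 𝓝[>] x, g y < f y := hg.continuousWithinAt.eventually_lt
      hf.continuousWithinAt h
    exact hf.congr (h1.mono fun y hy => (max_eq_left hy.le).symm) (max_eq_left h.le).symm

lemma LG.max {f g : ℝ → ℝ} {x : ℝ} (hf : LG f x) (hg : LG g x) :
    LG (fun y => max (f y) (g y)) x := by
  rcases lt_trichotomy (f x) (g x) with h | h | h
  · have h1 : ∀ᶠ y in 𝓝[<] x, f y < g y := hf.continuousWithinAt.eventually_lt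
      hg.continuousWithinAt h
    exact hg.congr (h1.mono fun y hy => (max_eq_right hy.le).symm) (max_eq_right h.le).symm
  · obtain ⟨s, hs, hs'⟩ := hf
    obtain ⟨t, ht, ht'⟩ := hg
    refine ⟨Min.min s t, lt_min hs ht, ?_⟩
    filter_upwards [hs', ht', self_mem_nhdsWithin] with y h1 h2 h3
    have h4 : y - x ≤ 0 := sub_nonpos.mpr (le_of_lt h3)
    rw [h1, h2, h, max_self, max_add_add_left]
    congr 1
    rcases le_total s t with hst | hst
    · rw [min_eq_left hst]
      exact max_eq_left (mul_le_mul_of_nonpos_right hst h4)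
    · rw [min_eq_right hst]
      exact max_eq_right (mul_le_mul_of_nonpos_right hst h4)
  · have h1 : ∀ᶠ y in 𝓝[<] x, g y < f y := hg.continuousWithinAt.eventually_lt
      hf.continuousWithinAt h
    exact hf.congr (h1.mono fun y hy => (max_eq_left hy.le).symm) (max_eq_left h.le).symm

lemma PLH.max {f g : ℝ → ℝ} (hf : PLH f) (hg : PLH g) : PLH fun y => max (f y) (g y) :=
  fun x => ⟨(hf x).1.max (hg x).1, (hf x).2.max (hg x).2⟩

/-- increasing affine change of variables -/
lemma PLH.comp_affine {f : ℝ → ℝ} (hf : PLH f) (a c : ℝ) {r q : ℝ} (hr : 0 < r) (hq : 0 < q) :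
    PLH fun x => a + r * f (q * (x - c)) := by
  intro x
  have hc : Tendsto (fun y => q * (y - c)) (𝓝 x) (𝓝 (q * (x - c))) :=
    Continuous.tendsto (by fun_prop) x
  constructor
  · obtain ⟨s, hs, hs'⟩ := (hf (q * (x - c))).1
    refine ⟨r * s * q, by positivity, ?_⟩
    have h1 : Tendsto (fun y => q * (y - c)) (𝓝[>] x) (𝓝[>] (q * (x - c))) := by
      apply tendsto_nhdsWithin_of_tendsto_nhds_of_eventually_within _ (hc.mono_left nhdsWithin_le_nhds)
      filter_upwards [self_mem_nhdsWithin] with y hy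
      have : x < y := hy
      exact mul_lt_mul_of_pos_left (by linarith) hq
    filter_upwards [h1.eventually hs'] with y hy
    rw [hy]; ring
  · obtain ⟨s, hs, hs'⟩ := (hf (q * (x - c))).2
    refine ⟨r * s * q, by positivity, ?_⟩
    have h1 : Tendsto (fun y => q * (y - c)) (𝓝[<] x) (𝓝[<] (q * (x - c))) := by
      apply tendsto_nhdsWithin_of_tendsto_nhds_of_eventually_within _ (hc.mono_left nhdsWithin_le_nhds)
      filter_upwards [self_mem_nhdsWithin] with y hy
      have : y < x := hy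
      exact mul_lt_mul_of_pos_left (by linarith) hq
    filter_upwards [h1.eventually hs'] with y hy
    rw [hy]; ring

/-- decreasing affine change of variables and reflection -/
lemma PLH.refl_affine {f : ℝ → ℝ} (hf : PLH f) (a c : ℝ) {r q : ℝ} (hr : 0 < r) (hq : 0 < q) :
    PLH fun x => a - r * f (q * (c - x)) := by
  intro x
  have hc : Tendsto (fun y => q * (c - y)) (𝓝 x) (𝓝 (q * (c - x))) :=
    Continuous.tendsto (by fun_prop) x
  constructor
  · obtain ⟨s, hs, hs'⟩ := (hf (q * (c - x))).2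
    refine ⟨r * s * q, by positivity, ?_⟩
    have h1 : Tendsto (fun y => q * (c - y)) (𝓝[>] x) (𝓝[<] (q * (c - x))) := by
      apply tendsto_nhdsWithin_of_tendsto_nhds_of_eventually_within _ (hc.mono_left nhdsWithin_le_nhds)
      filter_upwards [self_mem_nhdsWithin] with y hy
      have : x < y := hy
      exact mul_lt_mul_of_pos_left (by linarith) hq
    filter_upwards [h1.eventually hs'] with y hy
    rw [hy]; ring
  · obtain ⟨s, hs, hs'⟩ := (hf (q * (c - x))).1
    refine ⟨r * s * q, by positivity, ?_⟩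
    have h1 : Tendsto (fun y => q * (c - y)) (𝓝[<] x) (𝓝[>] (q * (c - x))) := by
      apply tendsto_nhdsWithin_of_tendsto_nhds_of_eventually_within _ (hc.mono_left nhdsWithin_le_nhds)
      filter_upwards [self_mem_nhdsWithin] with y hy
      have : y < x := hy
      exact mul_lt_mul_of_pos_left (by linarith) hq
    filter_upwards [h1.eventually hs'] with y hy
    rw [hy]; ring

/-- gluing two functions at a point -/
noncomputable def glue (b : ℝ) (f g : ℝ → ℝ) (x : ℝ) : ℝ := if x ≤ b then f x else g x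

lemma glue_of_le {b : ℝ} {f g : ℝ → ℝ} {x : ℝ} (h : x ≤ b) : glue b f g x = f x := if_pos h
lemma glue_of_lt {b : ℝ} {f g : ℝ → ℝ} {x : ℝ} (h : b < x) : glue b f g x = g x :=
  if_neg (not_le.mpr h)
lemma glue_of_ge {b : ℝ} {f g : ℝ → ℝ} {x : ℝ} (hb : f b = g b) (h : b ≤ x) :
    glue b f g x = g x := by
  rcases h.eq_or_lt with rfl | h
  · rw [glue_of_le le_rfl, hb]
  · exact glue_of_lt h

lemma PLH.glue {b : ℝ} {f g : ℝ → ℝ} (hf : PLH f) (hg : PLH g) (hb : f b = g b) :
    PLH (glue b f g) := by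
  intro x
  constructor
  · rcases lt_or_ge x b with h | h
    · apply (hf x).1.congr _ (glue_of_le h.le).symm
      have : ∀ᶠ y in 𝓝[>] x, y < b := (gt_mem_nhds h).filter_mono nhdsWithin_le_nhds
      exact this.mono fun y hy => (glue_of_le hy.le).symm
    · apply (hg x).1.congr _ (glue_of_ge hb h).symm
      filter_upwards [self_mem_nhdsWithin] with y hy
      exact (glue_of_lt (lt_of_le_of_lt h hy)).symm
  · rcases le_or_gt x b with h | h
    · apply (hf x).2.congr _ (glue_of_le h).symm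
      filter_upwards [self_mem_nhdsWithin] with y hy
      exact (glue_of_le ((le_of_lt hy).trans h)).symm
    · apply (hg x).2.congr _ (glue_of_lt h).symm
      have : ∀ᶠ y in 𝓝[<] x, b < y := (lt_mem_nhds h).filter_mono nhdsWithin_le_nhds
      exact this.mono fun y hy => (glue_of_lt hy).symm

/-- iterated gluing -/
noncomputable def glueN (b : ℕ → ℝ) (f₀ : ℝ → ℝ) (g : ℕ → ℝ → ℝ) : ℕ → ℝ → ℝ
  | 0 => f₀
  | k + 1 => glue (b k) (glueN b f₀ g k) (g k)

section glueN

variable {b : ℕ → ℝ} {f₀ : ℝ → ℝ} {g : ℕ → ℝ → ℝ}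

lemma glueN_stable (hb : StrictMono b) {k j : ℕ} (hkj : k ≤ j) {x : ℝ} (hx : x ≤ b k) :
    glueN b f₀ g j x = glueN b f₀ g k x := by
  induction j, hkj using Nat.le_induction with
  | base => rfl
  | succ j hkj ih =>
    rw [← ih]
    exact glue_of_le (hx.trans (hb.monotone hkj))

lemma glueN_match (hb : StrictMono b) (h0 : f₀ (b 0) = g 0 (b 0))
    (hg : ∀ k, g k (b (k + 1)) = g (k + 1) (b (k + 1))) (k : ℕ) :
    glueN b f₀ g k (b k) = g k (b k) := by
  cases k with
  | zero => exact h0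
  | succ k =>
    rw [← hg k]
    exact glue_of_lt (hb (Nat.lt_succ_self k))

lemma glueN_PLH (hb : StrictMono b) (h0 : f₀ (b 0) = g 0 (b 0))
    (hg : ∀ k, g k (b (k + 1)) = g (k + 1) (b (k + 1))) (hf₀ : PLH f₀) (hgP : ∀ k, PLH (g k))
    (k : ℕ) : PLH (glueN b f₀ g k) := by
  induction k with
  | zero => exact hf₀
  | succ k ih => exact ih.glue (hgP k) (glueN_match hb h0 hg k)

open Classical in
/-- infinite gluing -/
noncomputable def glueInf (b : ℕ → ℝ) (f₀ : ℝ → ℝ) (g : ℕ → ℝ → ℝ) (x : ℝ) : ℝ :=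
  if h : ∃ k, x ≤ b k then glueN b f₀ g (Nat.find h) x else 0

lemma glueInf_eq (hb : StrictMono b) {k : ℕ} {x : ℝ} (hx : x ≤ b k) :
    glueInf b f₀ g x = glueN b f₀ g k x := by
  classical
  have h : ∃ k, x ≤ b k := ⟨k, hx⟩
  unfold glueInf
  rw [dif_pos h]
  exact (glueN_stable hb (Nat.find_min' h hx) (Nat.find_spec h)).symm

lemma glueInf_low (hb : StrictMono b) {x : ℝ} (hx : x ≤ b 0) :
    glueInf b f₀ g x = f₀ x := glueInf_eq hb hx

lemma glueInf_piece (hb : StrictMono b) (h0 : f₀ (b 0) = g 0 (b 0))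
    (hg : ∀ k, g k (b (k + 1)) = g (k + 1) (b (k + 1))) {k : ℕ} {x : ℝ} (hx : b k ≤ x)
    (hx' : x ≤ b (k + 1)) : glueInf b f₀ g x = g k x := by
  rw [glueInf_eq hb hx']
  exact glue_of_ge (glueN_match hb h0 hg k) hx

lemma glueInf_PLH (hb : StrictMono b) (h0 : f₀ (b 0) = g 0 (b 0))
    (hg : ∀ k, g k (b (k + 1)) = g (k + 1) (b (k + 1))) (hf₀ : PLH f₀) (hgP : ∀ k, PLH (g k))
    (htop : ∀ x : ℝ, ∃ k, x < b k) : PLH (glueInf b f₀ g) := by
  intro x
  obtain ⟨k, hk⟩ := htop x
  have h1 := glueN_PLH hb h0 hg hf₀ hgP k x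
  have h2 : ∀ᶠ y in 𝓝 x, glueN b f₀ g k y = glueInf b f₀ g y := by
    filter_upwards [gt_mem_nhds hk] with y hy
    exact (glueInf_eq hb (le_of_lt hy)).symm
  exact ⟨h1.1.congr (h2.filter_mono nhdsWithin_le_nhds) h2.self_of_nhds,
    h1.2.congr (h2.filter_mono nhdsWithin_le_nhds) h2.self_of_nhds⟩

end glueN

/-! ### continuity and monotonicity -/

lemma PLH.continuous {f : ℝ → ℝ} (hf : PLH f) : Continuous f := by
  rw [continuous_iff_continuousAt]
  intro x
  rw [continuousAt_iff_continuous_left'_right']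
  exact ⟨(hf x).2.continuousWithinAt, (hf x).1.continuousWithinAt⟩

lemma PLH.strictMono {f : ℝ → ℝ} (hf : PLH f) : StrictMono f := by
  intro a b hab
  -- the set of `c` in `[a,b]` with `f a < f y` on `(a, c]`
  have hcont := hf.continuous
  have key : ∀ c ∈ Icc a b, f a ≤ f c := by
    have hclosed : IsClosed ({c | f a ≤ f c} ∩ Icc a b) :=
      (isClosed_le continuous_const hcont).inter isClosed_Icc
    have := hclosed.Icc_subset_of_forall_exists_gt (a := a) (b := b) (by simp)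
      (fun c hc y hy => by
        obtain ⟨s, hs, hs'⟩ := (hf c).1
        have h1 : ∀ᶠ z in 𝓝[>] c, z < y := (gt_mem_nhds hy).filter_mono nhdsWithin_le_nhds
        obtain ⟨z, hz1, hz2, hz3⟩ := (hs'.and (h1.and self_mem_nhdsWithin)).exists
        refine ⟨z, ?_, hz3, hz2.le⟩
        have h2 : f a ≤ f c := hc.1
        have h3 : c < z := hz3
        show f a ≤ f z
        rw [hz1]
        nlinarith)
    exact fun c hc => this hc
  -- strictness
  obtain ⟨s, hs, hs'⟩ := (hf a).1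
  have h1 : ∀ᶠ z in 𝓝[>] a, z < b := (gt_mem_nhds hab).filter_mono nhdsWithin_le_nhds
  obtain ⟨z, hz1, hz2, hz3⟩ := (hs'.and (h1.and self_mem_nhdsWithin)).exists
  have hz4 : a < z := hz3
  have h2 : f a < f z := by rw [hz1]; nlinarith
  have key2 : ∀ c ∈ Icc z b, f z ≤ f c := by
    have hclosed : IsClosed ({c | f z ≤ f c} ∩ Icc z b) :=
      (isClosed_le continuous_const hcont).inter isClosed_Icc
    have := hclosed.Icc_subset_of_forall_exists_gt (a := z) (b := b) (by simp)
      (fun c hc y hy => by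
        obtain ⟨s, hs, hs'⟩ := (hf c).1
        have h1 : ∀ᶠ z in 𝓝[>] c, z < y := (gt_mem_nhds hy).filter_mono nhdsWithin_le_nhds
        obtain ⟨w, hw1, hw2, hw3⟩ := (hs'.and (h1.and self_mem_nhdsWithin)).exists
        refine ⟨w, ?_, hw3, hw2.le⟩
        have h2 : f z ≤ f c := hc.1
        have h3 : c < w := hw3
        show f z ≤ f w
        rw [hw1]
        nlinarith)
    exact fun c hc => this hc
  exact h2.trans_le (key2 b ⟨hz2.le, le_rfl⟩)

end Pool.Agent.ConfSewing
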