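import Mathlib

set_option autoImplicit false

open Set Filter Topology
open scoped ComplexConjugate

namespace Pool.Agent.ConfSewing

/-- power in the closed upper half plane -/
noncomputable def up (κ ζ : ℂ) : ℂ := ζ ^ κ
/-- power in the closed lower half plane -/
noncomputable def dn (κ ζ : ℂ) : ℂ := conj ((conj ζ) ^ (conj κ))

/-- the exponent for slope ratio `ρ` -/
noncomputable def kap (ρ : ℝ) : ℂ := (1 + (Real.log ρ / (2 * Real.pi) : ℝ) * Complex.I)⁻¹

lemma kap_den_ne (τ : ℝ) : (1 + (τ : ℝ) * Complex.I : ℂ) ≠ 0 := by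
  intro h
  have := congrArg Complex.re h
  simp at this

lemma kap_ne (ρ : ℝ) : kap ρ ≠ 0 := inv_ne_zero (kap_den_ne _)

lemma kap_re_pos (ρ : ℝ) : 0 < (kap ρ).re := by
  unfold kap
  rw [Complex.inv_re]
  apply div_pos
  · rw [Complex.add_re, Complex.one_re, Complex.re_ofReal_mul, Complex.I_re]
    norm_num
  · rw [Complex.normSq_pos]; exact kap_den_ne _

lemma kap_mul (ρ : ℝ) : kap ρ * (2 * Real.pi * Complex.I - Real.log ρ) = 2 * Real.pi * Complex.I := by
  have h : (2 * Real.pi * Complex.I - Real.log ρ : ℂ) =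
      (1 + (Real.log ρ / (2 * Real.pi) : ℝ) * Complex.I) * (2 * Real.pi * Complex.I) := by
    have hpi : (Real.pi : ℂ) ≠ 0 := by exact_mod_cast Real.pi_ne_zero
    push_cast
    field_simp
    ring_nf
    rw [Complex.I_sq]
    ring
  rw [h, kap, ← mul_assoc, inv_mul_cancel₀ (kap_den_ne _), one_mul]

lemma kap_one : kap 1 = 1 := by
  unfold kap; simp

lemma continuousOn_up {κ : ℂ} (hκ : 0 < κ.re) : ContinuousOn (up κ) {ζ | 0 ≤ ζ.im} := by
  intro z hz
  have hκ0 : κ ≠ 0 := by rintro rfl; simp at hκ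
  by_cases h : 0 ≤ z.re ∨ z.im ≠ 0
  · exact (Complex.continuousAt_cpow_const_of_re_pos h hκ).continuousWithinAt
  · push Not at h
    have hz0 : z ≠ 0 := by rintro rfl; simp at h
    have h1 := Complex.continuousWithinAt_log_of_re_neg_of_im_zero h.1 h.2
    have h2 : ContinuousWithinAt (fun z => Complex.exp (Complex.log z * κ)) {ζ : ℂ | 0 ≤ ζ.im} z :=
      (Complex.continuous_exp.continuousAt).comp_continuousWithinAt (h1.mul continuousWithinAt_const)
    have h3 : ∀ᶠ w in 𝓝[{ζ : ℂ | 0 ≤ ζ.im}] z, up κ w = Complex.exp (Complex.log w * κ) := by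
      have : ∀ᶠ w in 𝓝 z, w ≠ 0 := isOpen_ne.mem_nhds hz0
      filter_upwards [this.filter_mono nhdsWithin_le_nhds] with w hw
      exact Complex.cpow_def_of_ne_zero hw κ
    exact h2.congr_of_eventuallyEq h3 (Complex.cpow_def_of_ne_zero hz0 κ)

lemma continuousOn_dn {κ : ℂ} (hκ : 0 < κ.re) : ContinuousOn (dn κ) {ζ | ζ.im ≤ 0} := by
  have h1 : 0 < (conj κ).re := by simpa using hκ
  have h2 := (continuousOn_up h1).comp (t := {ζ : ℂ | 0 ≤ ζ.im}) (s := {ζ : ℂ | ζ.im ≤ 0})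
    (f := fun z => conj z) Complex.continuous_conj.continuousOn (fun z hz => by
      simp only [mem_ofPred_eq, Complex.conj_im]
      have : z.im ≤ 0 := hz
      linarith)
  exact Complex.continuous_conj.comp_continuousOn h2

lemma up_zero {κ : ℂ} (hκ : κ ≠ 0) : up κ 0 = 0 := Complex.zero_cpow hκ
lemma dn_zero {κ : ℂ} (hκ : κ ≠ 0) : dn κ 0 = 0 := by
  unfold dn
  rw [map_zero, Complex.zero_cpow (by simpa using hκ), map_zero]

lemma up_exp {κ ζ : ℂ} (hζ : ζ ≠ 0) : up κ ζ = Complex.exp (κ * Complex.log ζ) := by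
  unfold up; rw [Complex.cpow_def_of_ne_zero hζ, mul_comm]

lemma dn_exp {κ ζ : ℂ} (hζ : ζ ≠ 0) :
    dn κ ζ = Complex.exp (κ * conj (Complex.log (conj ζ))) := by
  unfold dn
  rw [Complex.cpow_def_of_ne_zero (by simpa using hζ), ← Complex.exp_conj, map_mul,
    Complex.conj_conj, mul_comm]

/-- the logarithm in the closed lower half plane -/
noncomputable def ld (ζ : ℂ) : ℂ := conj (Complex.log (conj ζ))

lemma exp_ld {ζ : ℂ} (hζ : ζ ≠ 0) : Complex.exp (ld ζ) = ζ := by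
  unfold ld
  rw [Complex.exp_conj, Complex.exp_log (by simpa using hζ), Complex.conj_conj]

lemma log_im_mem {ζ : ℂ} (h : 0 ≤ ζ.im) : 0 ≤ (Complex.log ζ).im ∧ (Complex.log ζ).im ≤ Real.pi := by
  rw [Complex.log_im]
  exact ⟨Complex.arg_nonneg_iff.mpr h, Complex.arg_le_pi ζ⟩

lemma ld_im_mem {ζ : ℂ} (h : ζ.im ≤ 0) : -Real.pi ≤ (ld ζ).im ∧ (ld ζ).im ≤ 0 := by
  unfold ld
  have := log_im_mem (ζ := conj ζ) (by rw [Complex.conj_im]; linarith)
  rw [Complex.conj_im]
  constructor <;> linarith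

lemma exp_kap_eq {ρ : ℝ} {Λ₁ Λ₂ : ℂ} (h : Complex.exp (kap ρ * Λ₁) = Complex.exp (kap ρ * Λ₂)) :
    ∃ k : ℤ, Λ₁ = Λ₂ + k * (2 * Real.pi * Complex.I - Real.log ρ) := by
  obtain ⟨k, hk⟩ := Complex.exp_eq_exp_iff_exists_int.mp h
  refine ⟨k, mul_left_cancel₀ (kap_ne ρ) ?_⟩
  rw [hk, mul_add, mul_left_comm (kap ρ), kap_mul]

lemma period_im {ρ : ℝ} {Λ₁ Λ₂ : ℂ} {k : ℤ}
    (h : Λ₁ = Λ₂ + k * (2 * Real.pi * Complex.I - Real.log ρ)) :
    Λ₁.im = Λ₂.im + k * (2 * Real.pi) := by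
  rw [h]; simp

lemma int_zero_of_im {Λ₁ Λ₂ : ℂ} {k : ℤ} (h : Λ₁.im = Λ₂.im + k * (2 * Real.pi))
    (h2 : |Λ₁.im - Λ₂.im| < 2 * Real.pi) : k = 0 := by
  have h3 : Λ₁.im - Λ₂.im = k * (2 * Real.pi) := by rw [h]; ring
  rw [h3, abs_mul, abs_of_pos Real.two_pi_pos] at h2
  have h4 : |(k : ℝ)| < 1 := by
    by_contra hcon
    push Not at hcon
    nlinarith [Real.two_pi_pos]
  have h5 : |k| < 1 := by exact_mod_cast h4
  exact Int.abs_lt_one_iff.mp h5

lemma up_ne_zero {κ ζ : ℂ} (hζ : ζ ≠ 0) : up κ ζ ≠ 0 := by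
  rw [up_exp hζ]; exact Complex.exp_ne_zero _

lemma dn_ne_zero {κ ζ : ℂ} (hζ : ζ ≠ 0) : dn κ ζ ≠ 0 := by
  rw [dn_exp hζ]; exact Complex.exp_ne_zero _

lemma up_inj {ρ : ℝ} {a b : ℂ} (ha : 0 ≤ a.im) (hb : 0 ≤ b.im) (h : up (kap ρ) a = up (kap ρ) b) :
    a = b := by
  by_cases ha0 : a = 0
  · by_contra hne
    rw [ha0, up_zero (kap_ne ρ)] at h
    exact up_ne_zero (fun hb0 => hne (by rw [ha0, hb0])) h.symm
  by_cases hb0 : b = 0
  · rw [hb0, up_zero (kap_ne ρ)] at h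
    exact absurd h (up_ne_zero ha0)
  rw [up_exp ha0, up_exp hb0] at h
  obtain ⟨k, hk⟩ := exp_kap_eq h
  have h1 := log_im_mem ha
  have h2 := log_im_mem hb
  have h3 : k = 0 := int_zero_of_im (period_im hk) (by
    rw [abs_lt]; constructor <;> linarith [Real.pi_pos])
  rw [h3] at hk
  have h4 : Complex.log a = Complex.log b := by simpa using hk
  rw [← Complex.exp_log ha0, h4, Complex.exp_log hb0]

lemma dn_inj {ρ : ℝ} {a b : ℂ} (ha : a.im ≤ 0) (hb : b.im ≤ 0) (h : dn (kap ρ) a = dn (kap ρ) b) :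
    a = b := by
  by_cases ha0 : a = 0
  · by_contra hne
    rw [ha0, dn_zero (kap_ne ρ)] at h
    exact dn_ne_zero (fun hb0 => hne (by rw [ha0, hb0])) h.symm
  by_cases hb0 : b = 0
  · rw [hb0, dn_zero (kap_ne ρ)] at h
    exact absurd h (dn_ne_zero ha0)
  rw [dn_exp ha0, dn_exp hb0] at h
  obtain ⟨k, hk⟩ := exp_kap_eq h
  have h1 := ld_im_mem ha
  have h2 := ld_im_mem hb
  have h3 : k = 0 := int_zero_of_im (period_im hk) (by
    show |(ld a).im - (ld b).im| < _
    rw [abs_lt]; constructor <;> linarith [Real.pi_pos])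
  rw [h3] at hk
  have h4 : ld a = ld b := by simpa [ld] using hk
  rw [← exp_ld ha0, h4, exp_ld hb0]

/-- the mixed case -/
lemma up_dn_inj {ρ : ℝ} (hρ : 0 < ρ) {a b : ℂ} (ha : 0 ≤ a.im) (hb : b.im ≤ 0)
    (h : up (kap ρ) a = dn (kap ρ) b) :
    (∃ t : ℝ, 0 ≤ t ∧ a = t ∧ b = t) ∨ (∃ t : ℝ, t < 0 ∧ a = t ∧ b = (ρ * t : ℝ)) := by
  by_cases ha0 : a = 0
  · left
    refine ⟨0, le_rfl, by simpa using ha0, ?_⟩
    by_contra hne
    rw [ha0, up_zero (kap_ne ρ)] at h
    exact dn_ne_zero (fun hb0 => hne (by simpa using hb0)) h.symm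
  by_cases hb0 : b = 0
  · rw [hb0, dn_zero (kap_ne ρ)] at h
    exact absurd h (up_ne_zero ha0)
  rw [up_exp ha0, dn_exp hb0] at h
  obtain ⟨k, hk⟩ := exp_kap_eq h
  have h1 := log_im_mem ha
  have h2 := ld_im_mem hb
  have him := period_im hk
  change (Complex.log a).im = (ld b).im + _ at him
  change Complex.log a = ld b + _ at hk
  have hpi := Real.pi_pos
  have hk0 : 0 ≤ k := by
    by_contra hcon
    push Not at hcon
    have : (k : ℝ) ≤ -1 := by exact_mod_cast Int.le_sub_one_of_lt hcon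
    nlinarith
  have hk1 : k ≤ 1 := by
    by_contra hcon
    push Not at hcon
    have : (2 : ℝ) ≤ k := by exact_mod_cast hcon
    nlinarith
  have hk' : k = 0 ∨ k = 1 := by omega
  rcases hk' with rfl | rfl
  · left
    have h4 : Complex.log a = ld b := by simpa using hk
    have hab : a = b := by rw [← Complex.exp_log ha0, h4, exp_ld hb0]
    have him0 : (Complex.log a).im = 0 := by
      apply le_antisymm _ h1.1
      rw [h4]; exact h2.2
    rw [Complex.log_im, Complex.arg_eq_zero_iff] at him0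
    exact ⟨a.re, him0.1, Complex.ext (by simp) (by simpa using him0.2),
      by rw [← hab]; exact Complex.ext (by simp) (by simpa using him0.2)⟩
  · right
    have hima : (Complex.log a).im = Real.pi := by
      push_cast at him; linarith
    have hlog : Complex.log a = (Real.log ‖a‖ : ℝ) + Real.pi * Complex.I := by
      apply Complex.ext
      · simp [Complex.log_re]
      · rw [hima]; simp
    have ha' : a = ((-‖a‖ : ℝ) : ℂ) := by
      rw [Complex.log_im] at hima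
      rw [Complex.arg_eq_pi_iff] at hima
      have h5 : a = (a.re : ℂ) := Complex.ext (by simp) (by simpa using hima.2)
      rw [h5]
      rw [Complex.norm_real, Real.norm_eq_abs, abs_of_neg hima.1, neg_neg]
    have hn : 0 < ‖a‖ := norm_pos_iff.mpr ha0
    refine ⟨-‖a‖, by linarith, ha', ?_⟩
    have h6 : ld b = (Real.log ‖a‖ : ℝ) + (Real.log ρ : ℝ) - Real.pi * Complex.I := by
      rw [hlog] at hk
      have : ld b = (Real.log ‖a‖ : ℝ) + Real.pi * Complex.I -
          ((1 : ℤ) : ℂ) * (2 * Real.pi * Complex.I - Real.log ρ) := by rw [hk]; ring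
      rw [this]; push_cast; ring
    rw [← exp_ld hb0, h6, Complex.exp_sub, Complex.exp_add, Complex.exp_pi_mul_I,
      ← Complex.ofReal_exp, ← Complex.ofReal_exp, Real.exp_log hn, Real.exp_log hρ]
    push_cast
    ring

/-- surjectivity near zero with size control -/
lemma up_dn_surj (ρ : ℝ) : ∃ C : ℝ, 0 < C ∧ ∀ w : ℂ, ‖w‖ < 1 → ∃ ζ : ℂ, ‖ζ‖ ≤ C * ‖w‖ ∧
    ((0 ≤ ζ.im ∧ up (kap ρ) ζ = w) ∨ (ζ.im ≤ 0 ∧ dn (kap ρ) ζ = w)) := by
  set τ : ℝ := Real.log ρ / (2 * Real.pi) with hτ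
  refine ⟨Real.exp (|τ| * Real.pi), Real.exp_pos _, ?_⟩
  intro w hw
  by_cases hw0 : w = 0
  · refine ⟨0, by simp [hw0], Or.inl ⟨by simp, ?_⟩⟩
    rw [up_zero (kap_ne ρ), hw0]
  -- choose Λ
  obtain ⟨Λ, hΛ, him⟩ : ∃ Λ : ℂ, Complex.exp (kap ρ * Λ) = w ∧ |Λ.im| ≤ Real.pi := by
    set Λ₀ : ℂ := (1 + (τ : ℝ) * Complex.I) * Complex.log w with hΛ₀
    have h0 : Complex.exp (kap ρ * Λ₀) = w := by
      rw [hΛ₀, kap, ← mul_assoc, inv_mul_cancel₀ (kap_den_ne _), one_mul, Complex.exp_log hw0]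
    set k : ℤ := round (Λ₀.im / (2 * Real.pi)) with hk
    refine ⟨Λ₀ - k * (2 * Real.pi * Complex.I - Real.log ρ), ?_, ?_⟩
    · rw [mul_sub, Complex.exp_sub, h0, mul_left_comm, kap_mul,
        Complex.exp_int_mul_two_pi_mul_I, div_one]
    · have h1 : (Λ₀ - k * (2 * Real.pi * Complex.I - Real.log ρ)).im =
          Λ₀.im - k * (2 * Real.pi) := by simp
      rw [h1]
      have h2 := abs_sub_round (Λ₀.im / (2 * Real.pi))
      rw [← hk] at h2
      have h3 : Λ₀.im - k * (2 * Real.pi) = (Λ₀.im / (2 * Real.pi) - k) * (2 * Real.pi) := by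
        have := Real.pi_ne_zero
        field_simp
      rw [h3, abs_mul, abs_of_pos Real.two_pi_pos]
      nlinarith [Real.two_pi_pos]
  have hnorm : ‖Complex.exp Λ‖ ≤ Real.exp (|τ| * Real.pi) * ‖w‖ := by
    rw [Complex.norm_exp]
    have hre : Λ.re = (1 + τ ^ 2) * Real.log ‖w‖ - τ * Λ.im := by
      have h1 : Real.log ‖w‖ = (kap ρ * Λ).re := by
        rw [← hΛ, Complex.norm_exp, Real.log_exp]
      have h2 : Λ = (1 + (τ : ℝ) * Complex.I) * (kap ρ * Λ) := by
        rw [kap, ← mul_assoc, mul_inv_cancel₀ (kap_den_ne _), one_mul]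
      have h3 := congrArg Complex.re h2
      have h4 := congrArg Complex.im h2
      set A := (kap ρ * Λ) with hA
      simp at h3 h4
      rw [h1, h4, h3]
      ring
    have hlw : Real.log ‖w‖ < 0 := Real.log_neg (norm_pos_iff.mpr hw0) hw
    have h5 : Λ.re ≤ |τ| * Real.pi + Real.log ‖w‖ := by
      rw [hre]
      have h6 : -(τ * Λ.im) ≤ |τ| * Real.pi := by
        calc -(τ * Λ.im) ≤ |τ * Λ.im| := neg_le_abs _
          _ = |τ| * |Λ.im| := abs_mul _ _
          _ ≤ _ := by gcongr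
      nlinarith [sq_nonneg τ]
    calc Real.exp Λ.re ≤ Real.exp (|τ| * Real.pi + Real.log ‖w‖) := Real.exp_le_exp.mpr h5
      _ = _ := by rw [Real.exp_add, Real.exp_log (norm_pos_iff.mpr hw0)]
  refine ⟨Complex.exp Λ, hnorm, ?_⟩
  rw [abs_le] at him
  rcases le_or_gt 0 Λ.im with h | h
  · left
    constructor
    · rw [Complex.exp_im]
      exact mul_nonneg (Real.exp_pos _).le (Real.sin_nonneg_of_nonneg_of_le_pi h him.2)
    · rw [up_exp (Complex.exp_ne_zero _), Complex.log_exp (by linarith [Real.pi_pos]) him.2, hΛ]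
  · right
    constructor
    · rw [Complex.exp_im]
      exact mul_nonpos_of_nonneg_of_nonpos (Real.exp_pos _).le
        (Real.sin_nonpos_of_nonpos_of_neg_pi_le h.le him.1)
    · rw [dn_exp (Complex.exp_ne_zero _), ← Complex.exp_conj, Complex.log_exp, Complex.conj_conj, hΛ]
      · rw [Complex.conj_im]; linarith [Real.pi_pos]
      · rw [Complex.conj_im]; linarith

/-! ### local forms -/

lemma dn_eq_cpow {κ ζ : ℂ} (h : ζ.arg ≠ Real.pi) : dn κ ζ = ζ ^ κ := by
  unfold dn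
  rw [← Complex.cpow_conj _ _ h, Complex.conj_conj]

/-- the branch near the negative real axis -/
noncomputable def lm (κ ζ : ℂ) : ℂ := Complex.exp (κ * (Complex.log (-ζ) + Real.pi * Complex.I))

lemma up_eq_lm {κ ζ : ℂ} (hre : ζ.re < 0) (him : 0 ≤ ζ.im) : up κ ζ = lm κ ζ := by
  have hζ : ζ ≠ 0 := by rintro rfl; simp at hre
  rw [up_exp hζ, lm]
  congr 2
  have h1 : Complex.exp (Complex.log (-ζ) + Real.pi * Complex.I) = ζ := by
    rw [Complex.exp_add, Complex.exp_log (neg_ne_zero.mpr hζ), Complex.exp_pi_mul_I]; ring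
  have h2 : (Complex.log (-ζ) + Real.pi * Complex.I).im = (-ζ).arg + Real.pi := by
    simp [Complex.log_im]
  have h3 : (-ζ).arg ≤ 0 := by
    by_contra hcon
    push Not at hcon
    have h4 : 0 ≤ (-ζ).im := Complex.arg_nonneg_iff.mp hcon.le
    rw [Complex.neg_im] at h4
    have h5 : ζ.im = 0 := by linarith
    have h6 : (-ζ).arg = 0 := by
      rw [Complex.arg_eq_zero_iff]
      constructor
      · rw [Complex.neg_re]; linarith
      · rw [Complex.neg_im, h5, neg_zero]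
    linarith
  have h4 : -Real.pi < (-ζ).arg := Complex.neg_pi_lt_arg _
  calc Complex.log ζ = Complex.log (Complex.exp (Complex.log (-ζ) + Real.pi * Complex.I)) := by
        rw [h1]
    _ = _ := by
        rw [Complex.log_exp]
        · rw [h2]; linarith
        · rw [h2]; linarith

lemma dn_eq_lm {ρ : ℝ} (hρ : 0 < ρ) {ζ : ℂ} (hre : ζ.re < 0) (him : ζ.im ≤ 0) :
    dn (kap ρ) (ρ * ζ) = lm (kap ρ) ζ := by
  have hζ : ζ ≠ 0 := by rintro rfl; simp at hre
  have hρ0 : (ρ : ℂ) ≠ 0 := by exact_mod_cast hρ.ne'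
  have h3 : 0 ≤ (-ζ).arg := Complex.arg_nonneg_iff.mpr (by rw [Complex.neg_im]; linarith)
  have h4 : (-ζ).arg < Real.pi := by
    apply lt_of_le_of_ne (Complex.arg_le_pi _)
    intro hcon
    rw [Complex.arg_eq_pi_iff] at hcon
    have := hcon.1
    rw [Complex.neg_re] at this
    linarith
  have hld : ld (ρ * ζ) = Complex.log (-ζ) - Real.pi * Complex.I + Real.log ρ := by
    unfold ld
    have h1 : conj (ρ * ζ : ℂ) =
        Complex.exp (conj (Complex.log (-ζ)) + Real.pi * Complex.I + Real.log ρ) := by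
      rw [Complex.exp_add, Complex.exp_add, Complex.exp_pi_mul_I, Complex.exp_conj,
        Complex.exp_log (neg_ne_zero.mpr hζ), ← Complex.ofReal_exp, Real.exp_log hρ, map_mul,
        Complex.conj_ofReal, map_neg]
      ring
    rw [h1, Complex.log_exp]
    · simp only [map_add, Complex.conj_conj, map_mul, Complex.conj_ofReal, Complex.conj_I]
      ring
    · have : (conj (Complex.log (-ζ)) + Real.pi * Complex.I + Real.log ρ).im =
          -(-ζ).arg + Real.pi := by simp [Complex.log_im]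
      rw [this]; linarith
    · have : (conj (Complex.log (-ζ)) + Real.pi * Complex.I + Real.log ρ).im =
          -(-ζ).arg + Real.pi := by simp [Complex.log_im]
      rw [this]; linarith
  rw [dn_exp (mul_ne_zero hρ0 hζ), lm]
  change Complex.exp (kap ρ * ld (ρ * ζ)) = _
  rw [hld]
  have h5 : kap ρ * (Complex.log (-ζ) - Real.pi * Complex.I + Real.log ρ) =
      kap ρ * (Complex.log (-ζ) + Real.pi * Complex.I) -
        kap ρ * (2 * Real.pi * Complex.I - Real.log ρ) := by ring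
  rw [h5, kap_mul, Complex.exp_sub, Complex.exp_two_pi_mul_I, div_one]

lemma hasStrictDerivAt_cpow' {κ ζ : ℂ} (h : ζ ∈ Complex.slitPlane) :
    HasStrictDerivAt (fun z => z ^ κ) (κ * ζ ^ (κ - 1)) ζ := by
  have := (hasStrictDerivAt_id ζ).cpow_const (c := κ) h
  simpa using this

lemma cpow_deriv_ne {κ ζ : ℂ} (hκ : κ ≠ 0) (h : ζ ∈ Complex.slitPlane) : κ * ζ ^ (κ - 1) ≠ 0 := by
  apply mul_ne_zero hκ
  rw [Complex.cpow_def_of_ne_zero (Complex.slitPlane_ne_zero h)]
  exact Complex.exp_ne_zero _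

lemma hasStrictDerivAt_lm {κ ζ : ℂ} (h : ζ.re < 0) :
    HasStrictDerivAt (lm κ) (lm κ ζ * (κ * ζ⁻¹)) ζ := by
  have hm : -ζ ∈ Complex.slitPlane := by
    rw [Complex.mem_slitPlane_iff]
    left
    rw [Complex.neg_re]; linarith
  have h1 : HasStrictDerivAt (fun z => Complex.log (-z)) ((-ζ)⁻¹ * (-1)) ζ :=
    (Complex.hasStrictDerivAt_log hm).comp ζ (hasStrictDerivAt_neg ζ)
  have h2 := ((h1.add_const (Real.pi * Complex.I)).const_mul κ).cexp
  have h3 : (-ζ)⁻¹ * (-1) = ζ⁻¹ := by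
    rw [inv_neg]; ring
  rw [h3] at h2
  exact h2

lemma lm_deriv_ne {κ ζ : ℂ} (hκ : κ ≠ 0) (h : ζ ≠ 0) : lm κ ζ * (κ * ζ⁻¹) ≠ 0 :=
  mul_ne_zero (Complex.exp_ne_zero _) (mul_ne_zero hκ (inv_ne_zero h))

end Pool.Agent.ConfSewing
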