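import Pool.Agent.ConfSewing.Basic
import Pool.Agent.ConfSewing.Power
import Pool.Agent.ConfSewing.PL

set_option autoImplicit false

open Set Filter Topology
open scoped Manifold ContDiff ComplexConjugate

namespace Pool.Agent.ConfSewing

/-! ### generic topology -/

section generic

variable {X Y : Type*} [TopologicalSpace X] [TopologicalSpace Y] [Nonempty X]

/-- an open partial homeomorphism from an injective, continuous and open map -/
noncomputable def mkOPH (N : Set X) (Φ : X → Y) (hN : IsOpen N) (hc : ContinuousOn Φ N)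
    (hi : InjOn Φ N) (ho : ∀ p ∈ N, ∀ V ∈ 𝓝 p, Φ '' (V ∩ N) ∈ 𝓝 (Φ p)) :
    OpenPartialHomeomorph X Y :=
  OpenPartialHomeomorph.ofContinuousOpenRestrict (hi.toPartialEquiv Φ N) hc (by
    intro O hO
    rw [isOpen_iff_mem_nhds]
    rintro _ ⟨p, hp, rfl⟩
    obtain ⟨O', hO', rfl⟩ := isOpen_induced_iff.mp hO
    have h := ho p.1 p.2 O' (hO'.mem_nhds hp)
    refine mem_of_superset h ?_
    rintro _ ⟨q, ⟨hq1, hq2⟩, rfl⟩
    exact ⟨⟨q, hq2⟩, hq1, rfl⟩) hN

@[simp] lemma mkOPH_source {N : Set X} {Φ : X → Y} (hN : IsOpen N) (hc : ContinuousOn Φ N)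
    (hi : InjOn Φ N) (ho : ∀ p ∈ N, ∀ V ∈ 𝓝 p, Φ '' (V ∩ N) ∈ 𝓝 (Φ p)) :
    (mkOPH N Φ hN hc hi ho).source = N := rfl

@[simp] lemma mkOPH_coe {N : Set X} {Φ : X → Y} (hN : IsOpen N) (hc : ContinuousOn Φ N)
    (hi : InjOn Φ N) (ho : ∀ p ∈ N, ∀ V ∈ 𝓝 p, Φ '' (V ∩ N) ∈ 𝓝 (Φ p)) :
    (mkOPH N Φ hN hc hi ho : X → Y) = Φ := rfl

/-- a local parametrisation of `X` at `p` -/
structure Param (p : X) (ζ₀ : ℂ) (lam : ℂ → X) (mu : X → ℂ) : Prop where
  base : lam ζ₀ = p
  cont : ContinuousAt lam ζ₀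
  mu_base : mu p = ζ₀
  mu_cont : ContinuousAt mu p
  right : ∀ᶠ x in 𝓝 p, lam (mu x) = x

omit [Nonempty X] in
lemma open_of_param {N : Set X} {Φ : X → ℂ} (hN : IsOpen N) {p : X} (hp : p ∈ N) {ζ₀ : ℂ}
    {lam : ℂ → X} {mu : X → ℂ} (hP : Param p ζ₀ lam mu) {a : ℂ} (ha : a ≠ 0)
    (hd : HasStrictDerivAt (Φ ∘ lam) a ζ₀) {V : Set X} (hV : V ∈ 𝓝 p) :
    Φ '' (V ∩ N) ∈ 𝓝 (Φ p) := by
  have h1 : V ∩ N ∈ 𝓝 p := inter_mem hV (hN.mem_nhds hp)
  have h2 : lam ⁻¹' (V ∩ N) ∈ 𝓝 ζ₀ := by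
    apply hP.cont.preimage_mem_nhds
    rw [hP.base]; exact h1
  have h3 : (Φ ∘ lam) '' (lam ⁻¹' (V ∩ N)) ∈ 𝓝 ((Φ ∘ lam) ζ₀) := by
    rw [← hd.map_nhds_eq ha]
    exact image_mem_map h2
  rw [Function.comp_apply, hP.base] at h3
  refine mem_of_superset h3 ?_
  rintro _ ⟨ζ, hζ, rfl⟩
  exact ⟨lam ζ, hζ, rfl⟩

omit [Nonempty X] in
/-- transition maps are differentiable at parametrised points -/
lemma transition_of_param {e₁ e₂ : OpenPartialHomeomorph X ℂ} {p : X} (h₁ : p ∈ e₁.source)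
    {ζ₀ : ℂ} {lam : ℂ → X} {mu : X → ℂ} (hP : Param p ζ₀ lam mu)
    {a b : ℂ} (ha : a ≠ 0) (hd₁ : HasDerivAt (e₁ ∘ lam) a ζ₀) (hd₂ : HasDerivAt (e₂ ∘ lam) b ζ₀) :
    HasDerivAt (e₂ ∘ e₁.symm) (b * a⁻¹) (e₁ p) := by
  have hc : ContinuousAt e₁.symm (e₁ p) := e₁.continuousAt_symm (e₁.map_source h₁)
  have hsp : e₁.symm (e₁ p) = p := e₁.left_inv h₁
  have hc2 : ContinuousAt (mu ∘ e₁.symm) (e₁ p) := by
    apply ContinuousAt.comp _ hc
    rw [hsp]; exact hP.mu_cont
  have hval : (mu ∘ e₁.symm) (e₁ p) = ζ₀ := by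
    rw [Function.comp_apply, hsp, hP.mu_base]
  have hright : ∀ᶠ w in 𝓝 (e₁ p), lam (mu (e₁.symm w)) = e₁.symm w := by
    have h1 : ∀ᶠ x in 𝓝 (e₁.symm (e₁ p)), lam (mu x) = x := by rw [hsp]; exact hP.right
    exact hc.eventually h1
  have htar : ∀ᶠ w in 𝓝 (e₁ p), w ∈ e₁.target :=
    e₁.open_target.mem_nhds (e₁.map_source h₁)
  have hdm : HasDerivAt (mu ∘ e₁.symm) a⁻¹ (e₁ p) := by
    apply HasDerivAt.of_local_left_inverse hc2 (f := e₁ ∘ lam) (by rw [hval]; exact hd₁) ha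
    filter_upwards [hright, htar] with w hw hw'
    rw [Function.comp_apply, Function.comp_apply, hw, e₁.right_inv hw']
  have hd₂' : HasDerivAt (e₂ ∘ lam) b ((mu ∘ e₁.symm) (e₁ p)) := by rw [hval]; exact hd₂
  have h := hd₂'.comp (e₁ p) hdm
  apply h.congr_of_eventuallyEq
  filter_upwards [hright] with w hw
  rw [Function.comp_apply, Function.comp_apply, Function.comp_apply, Function.comp_apply, hw]

end generic

namespace Sewing

variable (α : Sewing)

instance : Nonempty α.Surf := ⟨α.projExt 0⟩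

/-- a representative of a point of the surface -/
noncomputable def rep (p : α.Surf) : ℂ := ((Quotient.out (s := α.setoid) p : α.carrier) : ℂ)

lemma rep_mem (p : α.Surf) : α.rep p ∈ α.carrier := (Quotient.out (s := α.setoid) p).2

lemma projExt_rep (p : α.Surf) : α.projExt (α.rep p) = p := by
  rw [α.projExt_of_mem (α.rep_mem p)]
  exact Quotient.out_eq (s := α.setoid) p

lemma exists_rep (p : α.Surf) : ∃ z ∈ α.carrier, α.projExt z = p :=
  ⟨α.rep p, α.rep_mem p, α.projExt_rep p⟩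

/-- an open saturated set of representatives with a function compatible with the gluing -/
structure ChartData {Y : Type*} [TopologicalSpace Y] (U : Set ℂ) (F : ℂ → Y) : Prop where
  opn : ∃ O : Set ℂ, IsOpen O ∧ U = O ∩ α.carrier
  sat : ∀ x : ℝ, 0 < x → ((x : ℂ) ∈ U ↔ (α.toFun x + Complex.I) ∈ U)
  cont : ContinuousOn F U
  glue : ∀ x : ℝ, 0 < x → (x : ℂ) ∈ U → F (α.toFun x + Complex.I) = F x

variable {α}

namespace ChartData

variable {Y : Type*} [TopologicalSpace Y] {U : Set ℂ} {F : ℂ → Y} (h : α.ChartData U F)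
include h

lemma sub : U ⊆ α.carrier := by
  obtain ⟨O, _, rfl⟩ := h.opn
  exact inter_subset_right

lemma rep_mem_U {z : ℂ} (hz : z ∈ U) : α.rep (α.projExt z) ∈ U ∧ F (α.rep (α.projExt z)) = F z := by
  have h1 : α.projExt z = α.projExt (α.rep (α.projExt z)) := (α.projExt_rep _).symm
  set w := α.rep (α.projExt z) with hw
  have hwm : w ∈ α.carrier := α.rep_mem _
  rcases (α.projExt_eq_iff (h.sub hz) hwm).mp h1 with h2 | ⟨h2, h3⟩ | ⟨h2, h3⟩
  · rw [← h2]; exact ⟨hz, rfl⟩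
  · have hzr : z = (z.re : ℂ) := Complex.ext (by simp) (by simp [h2])
    have hpos : 0 < z.re := (h.sub hz).1.1
    rw [hzr] at hz
    rw [h3]
    constructor
    · exact (h.sat _ hpos).mp hz
    · rw [h.glue _ hpos hz, ← hzr]
  · have hwr : w = (w.re : ℂ) := Complex.ext (by simp) (by simp [h2])
    have hpos : 0 < w.re := hwm.1.1
    rw [h3] at hz
    have hwU := (h.sat _ hpos).mpr hz
    rw [← hwr] at hwU
    refine ⟨hwU, ?_⟩
    rw [h3, h.glue w.re hpos (by rw [← hwr]; exact hwU), ← hwr]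

lemma mem_image_iff {z : ℂ} (hz : z ∈ α.carrier) : α.projExt z ∈ α.projExt '' U ↔ z ∈ U := by
  constructor
  · rintro ⟨w, hw, hwz⟩
    rcases (α.projExt_eq_iff (h.sub hw) hz).mp hwz with h2 | ⟨h2, h3⟩ | ⟨h2, h3⟩
    · rw [← h2]; exact hw
    · have hwr : w = (w.re : ℂ) := Complex.ext (by simp) (by simp [h2])
      have hpos : 0 < w.re := (h.sub hw).1.1
      rw [h3]
      apply (h.sat _ hpos).mp
      rw [← hwr]; exact hw
    · have hzr : z = (z.re : ℂ) := Complex.ext (by simp) (by simp [h2])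
      have hpos : 0 < z.re := hz.1.1
      rw [hzr]
      apply (h.sat _ hpos).mpr
      rw [← h3]; exact hw
  · intro hz'
    exact ⟨z, hz', rfl⟩

lemma comp_rep {z : ℂ} (hz : z ∈ U) : (F ∘ α.rep) (α.projExt z) = F z := (h.rep_mem_U hz).2

lemma isOpen_image : IsOpen (α.projExt '' U) := by
  rw [← α.isQuotientMap_proj.isOpen_preimage]
  obtain ⟨O, hO, hU⟩ := h.opn
  have : α.proj ⁻¹' (α.projExt '' U) = Subtype.val ⁻¹' O := by
    ext z
    rw [mem_preimage, ← α.projExt_coe z, h.mem_image_iff z.2, hU]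
    exact ⟨fun hz => hz.1, fun hz => ⟨hz, z.2⟩⟩
  rw [this]
  exact hO.preimage continuous_subtype_val

lemma continuousOn : ContinuousOn (F ∘ α.rep) (α.projExt '' U) := by
  rw [continuousOn_open_iff h.isOpen_image]
  intro t ht
  rw [← α.isQuotientMap_proj.isOpen_preimage]
  obtain ⟨O, hO, hU⟩ := h.opn
  obtain ⟨O', hO', hO'e⟩ := continuousOn_iff'.mp h.cont t ht
  have : α.proj ⁻¹' (α.projExt '' U ∩ F ∘ α.rep ⁻¹' t) = Subtype.val ⁻¹' (O ∩ O') := by
    ext z
    rw [mem_preimage, ← α.projExt_coe z, mem_inter_iff, h.mem_image_iff z.2, mem_preimage]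
    constructor
    · rintro ⟨h1, h2⟩
      rw [h.comp_rep h1] at h2
      refine ⟨by rw [hU] at h1; exact h1.1, ?_⟩
      have : (z : ℂ) ∈ F ⁻¹' t ∩ U := ⟨h2, h1⟩
      rw [hO'e] at this
      exact this.1
    · rintro ⟨h1, h2⟩
      have h3 : (z : ℂ) ∈ U := by rw [hU]; exact ⟨h1, z.2⟩
      refine ⟨h3, ?_⟩
      rw [h.comp_rep h3]
      have : (z : ℂ) ∈ O' ∩ U := ⟨h2, h3⟩
      rw [← hO'e] at this
      exact this.1
  rw [this]
  exact (hO.inter hO').preimage continuous_subtype_val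

end ChartData

/-! ### interior points -/

lemma isOpen_openStrip : IsOpen openStrip := by
  apply (isOpen_lt continuous_const Complex.continuous_re).inter
  exact (isOpen_lt continuous_const Complex.continuous_im).inter
    (isOpen_lt Complex.continuous_im continuous_const)

lemma intData : α.ChartData openStrip (fun z => z) where
  opn := ⟨openStrip, isOpen_openStrip, by
    rw [inter_eq_left.mpr α.openStrip_subset]⟩
  sat := by
    intro x hx
    constructor
    · intro h; have := h.2.1; simp at this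
    · intro h; have := h.2.2; simp at this
  cont := continuousOn_id
  glue := by
    intro x hx h
    have := h.2.1; simp at this

lemma continuousAt_projExt {z : ℂ} (hz : z ∈ openStrip) : ContinuousAt α.projExt z :=
  (α.continuousOn_projExt.mono α.openStrip_subset).continuousAt (isOpen_openStrip.mem_nhds hz)

lemma rep_projExt_interior {z : ℂ} (hz : z ∈ openStrip) : α.rep (α.projExt z) = z :=
  (intData.rep_mem_U hz).2

lemma param_interior {z : ℂ} (hz : z ∈ openStrip) :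
    Param (α.projExt z) z α.projExt α.rep where
  base := rfl
  cont := continuousAt_projExt hz
  mu_base := rep_projExt_interior hz
  mu_cont := (intData (α := α)).continuousOn.continuousAt
    ((intData (α := α)).isOpen_image.mem_nhds (mem_image_of_mem _ hz))
  right := Eventually.of_forall fun x => α.projExt_rep x

end Sewing

end Pool.Agent.ConfSewing
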