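import Pool.Agent.ConfSewing.Basic

set_option autoImplicit false

open Set Filter Topology

namespace Pool.Agent.ConfSewing

namespace Sewing

variable (α : Sewing)

/-- a continuous injection of the surface into a cylinder -/
noncomputable def cyl : α.Surf → ℝ × ℂ :=
  α.desc (fun z => (α.heightFun z, Complex.exp (2 * Real.pi * Complex.I * z.im))) (by
    intro x _
    simp [heightFun, Complex.exp_two_pi_mul_I])

lemma continuous_cyl : Continuous α.cyl := by
  apply α.continuous_desc
  apply ContinuousOn.prodMk
  · unfold heightFun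
    have h1 : ContinuousOn (fun z : ℂ => α.toFun z.re) α.carrier :=
      α.continuousOn.comp Complex.continuous_re.continuousOn (fun z hz => hz.1.1)
    have h2 : ContinuousOn (fun z : ℂ => z.im) α.carrier := Complex.continuous_im.continuousOn
    have h3 : ContinuousOn (fun z : ℂ => z.re) α.carrier := Complex.continuous_re.continuousOn
    exact ((continuousOn_const.sub h2).mul h1).add (h2.mul h3)
  · fun_prop

lemma heightFun_inj {z w : ℂ} (hz : z ∈ α.carrier) (hw : w ∈ α.carrier) (him : z.im = w.im)
    (h : α.heightFun z = α.heightFun w) : z = w := by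
  have key : ∀ {z w : ℂ}, z ∈ α.carrier → w ∈ α.carrier → z.im = w.im →
      α.heightFun z = α.heightFun w → ¬ z.re < w.re := by
    intro z w hz hw him h hlt
    have h1 := α.strictMonoOn (show z.re ∈ Ioi 0 from hz.1.1) (show w.re ∈ Ioi 0 from hw.1.1) hlt
    unfold heightFun at h
    rw [him] at h
    have h2 := hw.1.2.1
    have h3 := hw.1.2.2
    rcases h2.eq_or_lt with h4 | h4
    · rw [← h4] at h
      simp at h
      linarith
    · have h5 : (1 - w.im) * α.toFun z.re ≤ (1 - w.im) * α.toFun w.re :=
        mul_le_mul_of_nonneg_left h1.le (by linarith)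
      have h6 : w.im * z.re < w.im * w.re := mul_lt_mul_of_pos_left hlt h4
      linarith
  have h1 := key hz hw him h
  have h2 := key hw hz him.symm h.symm
  exact Complex.ext (le_antisymm (not_lt.mp h2) (not_lt.mp h1)) him

lemma cyl_injective : Function.Injective α.cyl := by
  intro p q hpq
  obtain ⟨z, rfl⟩ := α.proj_surjective p
  obtain ⟨w, rfl⟩ := α.proj_surjective q
  have hpq' : (α.heightFun z, Complex.exp (2 * Real.pi * Complex.I * (z : ℂ).im)) =
      (α.heightFun w, Complex.exp (2 * Real.pi * Complex.I * (w : ℂ).im)) := hpq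
  rw [Prod.mk.injEq] at hpq'
  obtain ⟨h1, h2⟩ := hpq'
  obtain ⟨n, hn⟩ := Complex.exp_eq_exp_iff_exists_int.mp h2
  have h3 : ((z : ℂ).im : ℂ) = (w : ℂ).im + n := by
    have h4 : (2 * Real.pi * Complex.I : ℂ) ≠ 0 := Complex.two_pi_I_ne_zero
    apply mul_left_cancel₀ h4
    linear_combination hn
  have h4 : (z : ℂ).im = (w : ℂ).im + n := by exact_mod_cast h3
  have z0 := z.2.1.2.1
  have z1 := z.2.1.2.2
  have w0 := w.2.1.2.1
  have w1 := w.2.1.2.2
  have hn1 : -1 ≤ n := by
    have : (-1 : ℝ) ≤ n := by linarith
    exact_mod_cast this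
  have hn2 : n ≤ 1 := by
    have : (n : ℝ) ≤ 1 := by linarith
    exact_mod_cast this
  have hn3 : n = -1 ∨ n = 0 ∨ n = 1 := by omega
  rw [← α.projExt_coe, ← α.projExt_coe, α.projExt_eq_iff z.2 w.2]
  rcases hn3 with rfl | rfl | rfl
  · -- z.im = 0, w.im = 1
    push_cast at h4
    have hz0 : (z : ℂ).im = 0 := by linarith
    have hw1 : (w : ℂ).im = 1 := by linarith
    right; left
    refine ⟨hz0, ?_⟩
    have h5 : α.toFun (z : ℂ).re = (w : ℂ).re := by
      unfold heightFun at h1
      rw [hz0, hw1] at h1
      simpa using h1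
    apply Complex.ext
    · simp [h5]
    · simp [hw1]
  · left
    exact α.heightFun_inj z.2 w.2 (by simpa using h4) h1
  · push_cast at h4
    have hz0 : (w : ℂ).im = 0 := by linarith
    have hw1 : (z : ℂ).im = 1 := by linarith
    right; right
    refine ⟨hz0, ?_⟩
    have h5 : (z : ℂ).re = α.toFun (w : ℂ).re := by
      unfold heightFun at h1
      rw [hz0, hw1] at h1
      simpa using h1
    apply Complex.ext
    · simp [h5]
    · simp [hw1]

instance : T2Space α.Surf := T2Space.of_injective_continuous α.cyl_injective α.continuous_cyl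

end Sewing

end Pool.Agent.ConfSewing
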