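import Pool.Agent.ConfSewing.Atlas
import Pool.Agent.ConfSewing.Hausdorff

set_option autoImplicit false

open Set Filter Topology
open scoped Manifold ContDiff ComplexConjugate

namespace Pool.Agent.ConfSewing

namespace Sewing

variable {α : Sewing}

lemma exists_brk {x : ℝ} (hx : 0 < x) (hr : RG α.toFun x) (hl : LG α.toFun x) :
    ∃ s : ℝ × ℝ × ℝ, α.Brk x s.1 s.2.1 s.2.2 := by
  obtain ⟨s₂, hs₂, h2⟩ := hr
  obtain ⟨s₁, hs₁, h1⟩ := hl
  obtain ⟨b, hb, hb'⟩ := mem_nhdsGT_iff_exists_Ioo_subset.mp h2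
  obtain ⟨a, ha, ha'⟩ := mem_nhdsLT_iff_exists_Ioo_subset.mp h1
  have hb0 : x < b := hb
  have ha0 : a < x := ha
  refine ⟨⟨s₁, s₂, min (x / 2) (min (b - x) (x - a))⟩, hs₁, hs₂, ?_, ?_, ?_, ?_⟩
  · exact lt_min (by linarith) (lt_min (by linarith) (by linarith))
  · exact lt_of_le_of_lt (min_le_left _ _) (by linarith)
  · intro u hu1 hu2
    simp only at hu2
    rcases hu1.eq_or_lt with h | h
    · rw [← h]; ring
    · apply hb' ⟨h, _⟩
      have := (min_le_right (x / 2) (min (b - x) (x - a))).trans (min_le_left _ _)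
      linarith
  · intro u hu1 hu2
    simp only at hu1
    rcases hu2.eq_or_lt with h | h
    · rw [h]; ring
    · apply ha' ⟨_, h⟩
      have := (min_le_right (x / 2) (min (b - x) (x - a))).trans (min_le_right _ _)
      linarith

lemma projExt_bottom_inj {x y : ℝ} (hx : 0 < x) (hy : 0 < y) (h : α.projExt x = α.projExt y) :
    x = y := by
  rcases (α.projExt_eq_iff (α.bottom_mem hx) (α.bottom_mem hy)).mp h with h1 | ⟨_, h1⟩ | ⟨_, h1⟩
  · exact_mod_cast h1
  · have := congrArg Complex.im h1
    simp at this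
  · have := congrArg Complex.im h1
    simp at this

section cspace

variable (hB : ∀ x : ℝ, 0 < x → ∃ s : ℝ × ℝ × ℝ, α.Brk x s.1 s.2.1 s.2.2)

/-- the chosen seam chart at `x` -/
noncomputable def chartX {x : ℝ} (hx : 0 < x) : OpenPartialHomeomorph α.Surf ℂ :=
  chartS (hB x hx).choose_spec

lemma chartX_source {x : ℝ} (hx : 0 < x) : α.projExt x ∈ (chartX hB hx).source := by
  have h := (hB x hx).choose_spec
  have hd := h.δpos
  exact mem_image_of_mem _ (mem_seamU_bottom h (by linarith) (by linarith))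

open Classical in
/-- the chart at a point -/
noncomputable def chartP (p : α.Surf) : OpenPartialHomeomorph α.Surf ℂ :=
  if _h : p ∈ α.projExt '' openStrip then chart₀ α
  else if h' : ∃ y : ℝ, 0 < y ∧ p = α.projExt y then chartX hB h'.choose_spec.1
  else chart₀ α

lemma mem_chartP (p : α.Surf) : p ∈ (chartP hB p).source := by
  unfold chartP
  split_ifs with h h'
  · exact h
  · have h1 := h'.choose_spec
    exact Set.mem_of_eq_of_mem h1.2 (chartX_source hB h1.1)
  · exfalso
    rcases cases_point p with ⟨z, hz, hp⟩ | hy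
    · exact h ⟨z, hz, hp.symm⟩
    · exact h' hy

/-- the atlas -/
def atlasB : Set (OpenPartialHomeomorph α.Surf ℂ) :=
  {e | e = chart₀ α ∨ ∃ (x : ℝ) (hx : 0 < x), e = chartX hB hx}

lemma chartP_mem (p : α.Surf) : chartP hB p ∈ atlasB hB := by
  unfold chartP
  split_ifs with h h'
  · exact Or.inl rfl
  · exact Or.inr ⟨_, h'.choose_spec.1, rfl⟩
  · exact Or.inl rfl

/-- the charted space -/
@[reducible] noncomputable def cSpace : ChartedSpace ℂ α.Surf where
  atlas := atlasB hB
  chartAt := chartP hB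
  mem_chart_source := mem_chartP hB
  chart_mem_atlas := chartP_mem hB

lemma good_atlas {e : OpenPartialHomeomorph α.Surf ℂ} (he : e ∈ atlasB hB) : Good e.source e := by
  rcases he with rfl | ⟨x, hx, rfl⟩
  · exact good_interior
  · exact good_seam (hB x hx).choose_spec

lemma canon_chart₀ {p : α.Surf} (hp : p ∈ (chart₀ α).source) : ∃ ζ₀ lam, Canon p ζ₀ lam := by
  obtain ⟨z, hz, rfl⟩ := hp
  exact ⟨_, _, Or.inl ⟨z, hz, rfl, rfl, rfl⟩⟩

lemma canon_overlap {e e' : OpenPartialHomeomorph α.Surf ℂ} (he : e ∈ atlasB hB)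
    (he' : e' ∈ atlasB hB) (hne : e ≠ e') {p : α.Surf} (hp : p ∈ e.source) (hp' : p ∈ e'.source) :
    ∃ ζ₀ lam, Canon p ζ₀ lam := by
  rcases he with rfl | ⟨x, hx, rfl⟩
  · exact canon_chart₀ hp
  · rcases he' with rfl | ⟨x', hx', rfl⟩
    · exact canon_chart₀ hp'
    · rcases canon_or_centre (hB x hx).choose_spec hp with h | h
      · exact h
      · rcases canon_or_centre (hB x' hx').choose_spec hp' with h' | h'
        · exact h'
        · exfalso
          apply hne
          have : x = x' := projExt_bottom_inj hx hx' (h.symm.trans h')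
          subst this
          rfl

lemma differentiableOn_transition {e e' : OpenPartialHomeomorph α.Surf ℂ} (he : e ∈ atlasB hB)
    (he' : e' ∈ atlasB hB) : DifferentiableOn ℂ (e' ∘ e.symm) (e.symm ≫ₕ e').source := by
  rw [OpenPartialHomeomorph.trans_source, OpenPartialHomeomorph.symm_source]
  rintro w ⟨hw1, hw2⟩
  rw [mem_preimage] at hw2
  by_cases hne : e = e'
  · subst hne
    have hid : ∀ v ∈ e.target ∩ e.symm ⁻¹' e.source, (e ∘ e.symm) v = id v := fun v hv =>
      e.right_inv hv.1
    exact (differentiableWithinAt_id).congr hid (hid w ⟨hw1, hw2⟩)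
  · obtain ⟨ζ₀, lam, hc⟩ := canon_overlap hB he he' hne (e.map_target hw1) hw2
    obtain ⟨mu, hP⟩ := hc.param
    obtain ⟨a, ha, hd⟩ := good_atlas hB he _ (e.map_target hw1) _ _ hc
    obtain ⟨b, hb, hd'⟩ := good_atlas hB he' _ hw2 _ _ hc
    have h := transition_of_param (e.map_target hw1) hP ha hd.hasDerivAt hd'.hasDerivAt
    rw [e.right_inv hw1] at h
    exact h.differentiableAt.differentiableWithinAt

lemma isRiemannStructure_cSpace : α.IsRiemannStructure (cSpace hB) := by
  let _ := cSpace hB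
  constructor
  · apply isManifold_of_contDiffOn
    intro e e' he he'
    have h := differentiableOn_transition hB (α := α) he he'
    have hopen : IsOpen (e.symm ≫ₕ e').source := (e.symm ≫ₕ e').open_source
    have h2 : ContDiffOn ℂ ω (e' ∘ e.symm) (e.symm ≫ₕ e').source := h.contDiffOn hopen
    simpa using h2
  · intro z hz
    have hc : Canon (α.projExt z) z α.projExt := Or.inl ⟨z, hz, rfl, rfl, rfl⟩
    obtain ⟨a, ha, hd⟩ := good_atlas hB (chartP_mem hB (α.projExt z)) _
      (mem_chartP hB (α.projExt z)) _ _ hc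
    apply MDifferentiableAt.mdifferentiableWithinAt
    rw [mdifferentiableAt_iff]
    refine ⟨continuousAt_projExt hz, ?_⟩
    simp only [writtenInExtChartAt, extChartAt, mfld_simps]
    exact hd.hasDerivAt.differentiableAt.differentiableWithinAt

end cspace

/-- piecewise linear sewings are conformal -/
theorem isConformal_of_germs (h : ∀ x : ℝ, 0 < x → RG α.toFun x ∧ LG α.toFun x) :
    α.IsConformal :=
  ⟨inferInstance, _, isRiemannStructure_cSpace fun x hx => exists_brk hx (h x hx).1 (h x hx).2⟩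

end Sewing

end Pool.Agent.ConfSewing
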