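import Mathlib

set_option autoImplicit false

open Set Filter Topology
open scoped Manifold ContDiff

namespace Pool.Agent.ConfSewing

/-- The closed half-strip `H = {Re z > 0, 0 ≤ Im z ≤ 1}`. -/
def halfStrip : Set ℂ := {z | 0 < z.re ∧ 0 ≤ z.im ∧ z.im ≤ 1}

/-- The interior `{Re z > 0, 0 < Im z < 1}` of the half-strip. -/
def openStrip : Set ℂ := {z | 0 < z.re ∧ 0 < z.im ∧ z.im < 1}

/-- A sewing: an increasing homeomorphism `toFun` of `(0, ∞)` onto `(start, ∞)` with
`start = α(0) ≥ 0`.  It glues the bottom edge point `x` to the top edge point `toFun x + i`. -/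
structure Sewing where
  /-- the sewing function `α` -/
  toFun : ℝ → ℝ
  /-- the number `α(0)` -/
  start : ℝ
  start_nonneg : 0 ≤ start
  strictMonoOn : StrictMonoOn toFun (Ioi 0)
  continuousOn : ContinuousOn toFun (Ioi 0)
  image_eq : toFun '' Ioi 0 = Ioi start

namespace Sewing

variable (α : Sewing)

/-- The points of `H` which are interior points or lie on the sewn edge (the unsewn part
`{x + i : x ≤ α(0)}` of the top edge is removed). -/
def carrier : Set ℂ := {z | z ∈ halfStrip ∧ (z.im = 1 → α.start < z.re)}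

lemma toFun_gt {x : ℝ} (hx : 0 < x) : α.start < α.toFun x := by
  have : α.toFun x ∈ α.toFun '' Ioi 0 := mem_image_of_mem _ hx
  rwa [α.image_eq] at this

lemma toFun_pos {x : ℝ} (hx : 0 < x) : 0 < α.toFun x :=
  lt_of_le_of_lt α.start_nonneg (α.toFun_gt hx)

/-- The sewing relation on the points of `H`: every bottom point `x` is identified with the
top point `α(x) + i`. -/
def setoid : Setoid α.carrier where
  r z w := z = w ∨ ((z : ℂ).im = 0 ∧ (w : ℂ) = α.toFun (z : ℂ).re + Complex.I) ∨
    ((w : ℂ).im = 0 ∧ (z : ℂ) = α.toFun (w : ℂ).re + Complex.I)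
  iseqv := by
    refine ⟨fun z => Or.inl rfl, ?_, ?_⟩
    · rintro z w (h | h | h)
      · exact Or.inl h.symm
      · exact Or.inr (Or.inr h)
      · exact Or.inr (Or.inl h)
    · rintro x y z (rfl | ⟨hx, hy⟩ | ⟨hy, hx⟩) (rfl | ⟨hy', hz⟩ | ⟨hz, hy'⟩)
      · exact Or.inl rfl
      · exact Or.inr (Or.inl ⟨hy', hz⟩)
      · exact Or.inr (Or.inr ⟨hz, hy'⟩)
      · exact Or.inr (Or.inl ⟨hx, hy⟩)
      · exfalso
        rw [hy] at hy'
        simp at hy'
      · left
        have h := hy.symm.trans hy'
        have h2 : α.toFun (x : ℂ).re = α.toFun (z : ℂ).re := by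
          have := congrArg Complex.re h
          simpa using this
        have h3 := α.strictMonoOn.injOn (show (x : ℂ).re ∈ Ioi 0 from x.2.1.1)
          (show (z : ℂ).re ∈ Ioi 0 from z.2.1.1) h2
        apply Subtype.ext
        apply Complex.ext h3
        rw [hx, hz]
      · exact Or.inr (Or.inr ⟨hy, hx⟩)
      · left
        apply Subtype.ext
        rw [hx, hz]
      · exfalso
        rw [hy'] at hy
        simp at hy

/-- The surface `H_α` obtained from the half-strip by the sewing (without the unsewn boundary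
points), with the quotient topology. -/
def Surf : Type := Quotient α.setoid

instance : TopologicalSpace α.Surf := inferInstanceAs (TopologicalSpace (Quotient α.setoid))

/-- The quotient map. -/
def proj (z : α.carrier) : α.Surf := Quotient.mk α.setoid z

lemma base_mem : (1 + Complex.I / 2 : ℂ) ∈ α.carrier := by
  refine ⟨⟨?_, ?_, ?_⟩, ?_⟩ <;> norm_num

open Classical in
/-- The quotient map, extended by a constant to all of `ℂ`; only its values on the half-strip
matter. -/
noncomputable def projExt (z : ℂ) : α.Surf :=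
  if h : z ∈ α.carrier then α.proj ⟨z, h⟩ else α.proj ⟨_, α.base_mem⟩

/-- `cs` is a Riemann surface structure on `H_α` (a complex analytic manifold structure modelled
on `ℂ`) for which the quotient map is conformal on the interior of `H`. (The quotient map is
injective there, so holomorphic and conformal are the same.) -/
def IsRiemannStructure (cs : ChartedSpace ℂ α.Surf) : Prop :=
  letI := cs
  IsManifold 𝓘(ℂ) ω α.Surf ∧ MDifferentiableOn 𝓘(ℂ) 𝓘(ℂ) α.projExt openStrip

/-- The end at `∞` is hyperbolic for the Riemann surface structure `cs`: some neighbourhood `U` of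
the end (it contains all points with `Re z > M`), whose frontier is a simple closed curve `γ`, is
mapped by a biholomorphic map `e` onto a ring `{1 < |w| < ρ}` with `ρ < ∞`. -/
def HasHyperbolicEnd (cs : ChartedSpace ℂ α.Surf) : Prop :=
  letI := cs
  ∃ (U : Set α.Surf) (γ : Circle → α.Surf) (ρ : ℝ) (e : OpenPartialHomeomorph α.Surf ℂ),
    IsOpen U ∧ (∃ M : ℝ, ∀ z : α.carrier, M < (z : ℂ).re → α.proj z ∈ U) ∧
    Continuous γ ∧ Function.Injective γ ∧ frontier U = range γ ∧
    1 < ρ ∧ e.source = U ∧ e.target = {w : ℂ | 1 < ‖w‖ ∧ ‖w‖ < ρ} ∧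
    MDifferentiableOn 𝓘(ℂ) 𝓘(ℂ) e U ∧
    MDifferentiableOn 𝓘(ℂ) 𝓘(ℂ) e.symm {w : ℂ | 1 < ‖w‖ ∧ ‖w‖ < ρ}

/-- The sewing is conformal: `H_α` is a Hausdorff space and carries a Riemann surface structure
for which the quotient map is conformal on the interior of `H`. -/
def IsConformal : Prop := T2Space α.Surf ∧ ∃ cs : ChartedSpace ℂ α.Surf, α.IsRiemannStructure cs

end Sewing

end Pool.Agent.ConfSewing
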