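import Pool.Agent.ConfSewing.DoubleBase

set_option autoImplicit false

open Set Filter Topology
open scoped Manifold ContDiff

namespace Pool.Agent.ConfSewing

namespace Dbl

section Structure

lemma mdiff_g_off (cs : ChartedSpace ℂ dbl.Surf) (hcs : dbl.IsRiemannStructure cs) {ζ : ℂ}
    (hζ : ζ ∈ Q) {m : ℤ} (h1 : (2 : ℝ) ^ m < ζ.im) (h2 : ζ.im < 2 ^ (m + 1)) :
    letI := cs; MDifferentiableAt 𝓘(ℂ) 𝓘(ℂ) g ζ := by
  let _ := cs
  obtain ⟨hM, hP⟩ := hcs
  have hev : g =ᶠ[𝓝 ζ] fun w : ℂ => dbl.projExt (w / (2 : ℂ) ^ m - Complex.I) := by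
    filter_upwards [isOpen_Q.mem_nhds hζ, band_nhds h1 h2] with w hw1 hw2
    exact g_eq hw1 hw2.1.le hw2.2.le
  refine MDifferentiableAt.congr_of_eventuallyEq ?_ hev
  have hmem : ζ / (2 : ℂ) ^ m - Complex.I ∈ openStrip := by
    rw [zpow_cast]
    have hp : (0 : ℝ) < 2 ^ m := by positivity
    have h3 : (2 : ℝ) ^ (m + 1) = 2 * 2 ^ m := by rw [zpow_add_one₀ (by norm_num)]; ring
    rw [h3] at h2
    refine ⟨?_, ?_, ?_⟩
    · rw [Complex.sub_re, Complex.div_ofReal_re, Complex.I_re, sub_zero]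
      exact div_pos hζ.1 hp
    · rw [Complex.sub_im, Complex.div_ofReal_im, Complex.I_im, sub_pos]
      rwa [one_lt_div hp]
    · rw [Complex.sub_im, Complex.div_ofReal_im, Complex.I_im, sub_lt_iff_lt_add]
      rw [div_lt_iff₀ hp]
      linarith
  have hopen : IsOpen openStrip :=
    (isOpen_lt continuous_const Complex.continuous_re).inter
      ((isOpen_lt continuous_const Complex.continuous_im).inter
        (isOpen_lt Complex.continuous_im continuous_const))
  have hP' : MDifferentiableAt 𝓘(ℂ) 𝓘(ℂ) dbl.projExt (ζ / (2 : ℂ) ^ m - Complex.I) :=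
    (hP _ hmem).mdifferentiableAt (hopen.mem_nhds hmem)
  have haff : MDifferentiableAt 𝓘(ℂ) 𝓘(ℂ) (fun w : ℂ => w / (2 : ℂ) ^ m - Complex.I) ζ := by
    apply DifferentiableAt.mdifferentiableAt
    fun_prop
  exact MDifferentiableAt.comp (f := fun w : ℂ => w / (2 : ℂ) ^ m - Complex.I) ζ hP' haff

lemma mdiff_g (cs : ChartedSpace ℂ dbl.Surf) (hcs : dbl.IsRiemannStructure cs) {ζ : ℂ}
    (hζ : ζ ∈ Q) : letI := cs; MDifferentiableAt 𝓘(ℂ) 𝓘(ℂ) g ζ := by
  let _ := cs
  have hM : IsManifold 𝓘(ℂ) ω dbl.Surf := hcs.1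
  have : IsManifold 𝓘(ℂ) 1 dbl.Surf := IsManifold.of_le (n := ω) le_top
  obtain ⟨n, h1, h2⟩ := exists_band hζ
  set φ := chartAt ℂ (g ζ) with hφ
  have hsrc : g ζ ∈ φ.source := mem_chart_source ℂ (g ζ)
  have hBo : IsOpen {w : ℂ | (2 : ℝ) ^ n < w.im ∧ w.im < 2 ^ (n + 2)} :=
    (isOpen_lt continuous_const Complex.continuous_im).inter
      (isOpen_lt Complex.continuous_im continuous_const)
  set V : Set ℂ := (Q ∩ {w : ℂ | (2 : ℝ) ^ n < w.im ∧ w.im < 2 ^ (n + 2)}) ∩ g ⁻¹' φ.source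
    with hVdef
  have hV : IsOpen V :=
    (continuousOn_g.mono inter_subset_left).isOpen_inter_preimage (isOpen_Q.inter hBo)
      φ.open_source
  have hζV : ζ ∈ V := ⟨⟨hζ, h1, h2⟩, hsrc⟩
  have hH : DifferentiableOn ℂ (φ ∘ g) V := by
    apply differentiableOn_of_off_line hV _ (2 ^ (n + 1))
    · intro w hw him
      have hg : MDifferentiableAt 𝓘(ℂ) 𝓘(ℂ) g w := by
        rcases lt_or_gt_of_ne him with h | h
        · exact mdiff_g_off cs hcs hw.1.1 hw.1.2.1 h
        · refine mdiff_g_off cs hcs hw.1.1 h ?_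
          rw [show n + 1 + 1 = n + 2 by ring]
          exact hw.1.2.2
      have hφd : MDifferentiableAt 𝓘(ℂ) 𝓘(ℂ) φ (g w) :=
        mdifferentiableAt_atlas (chart_mem_atlas ℂ (g ζ)) hw.2
      exact mdifferentiableAt_iff_differentiableAt.mp (MDifferentiableAt.comp w hφd hg)
    · exact φ.continuousOn.comp (continuousOn_g.mono fun w hw => hw.1.1) fun w hw => hw.2
  have hHζ : MDifferentiableAt 𝓘(ℂ) 𝓘(ℂ) (φ ∘ g) ζ :=
    mdifferentiableAt_iff_differentiableAt.mpr (hH.differentiableAt (hV.mem_nhds hζV))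
  have hsymm : MDifferentiableAt 𝓘(ℂ) 𝓘(ℂ) φ.symm ((φ ∘ g) ζ) :=
    mdifferentiableAt_atlas_symm (chart_mem_atlas ℂ (g ζ)) (φ.map_source hsrc)
  have hcomp := MDifferentiableAt.comp ζ hsymm hHζ
  refine hcomp.congr_of_eventuallyEq ?_
  filter_upwards [hV.mem_nhds hζV] with w hw
  exact (φ.left_inv hw.2).symm

/-- `f` as an open partial homeomorphism -/
noncomputable def fe : OpenPartialHomeomorph dbl.Surf ℂ :=
  isOpenEmbedding_f.toOpenPartialHomeomorph f

lemma fe_coe (p : dbl.Surf) : fe p = f p := rfl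

lemma fe_source : fe.source = univ := rfl

lemma fe_target : fe.target = ring := by
  rw [← range_f]
  exact isOpenEmbedding_f.toOpenPartialHomeomorph_target f

lemma exists_section {ζ : ℂ} (hζ : ζ ∈ Q) : ∃ L : ℂ → ℂ, DifferentiableAt ℂ L (E ζ) ∧
    L (E ζ) = ζ ∧ ∀ᶠ w in 𝓝 (E ζ), L w ∈ Q ∧ E (L w) = w := by
  have hE0 : E ζ ≠ 0 := Complex.exp_ne_zero _
  have hc0 : (c : ℂ) ≠ 0 := by exact_mod_cast c_pos.ne'
  have hIc : (Complex.I * c : ℂ) ≠ 0 := mul_ne_zero Complex.I_ne_zero hc0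
  set s : ℂ → ℂ := fun w => Complex.log ζ + Complex.log (w / E ζ) / (Complex.I * c) with hs
  have hsd : DifferentiableAt ℂ s (E ζ) := by
    apply DifferentiableAt.const_add
    apply DifferentiableAt.div_const
    apply DifferentiableAt.clog
    · exact differentiableAt_id.div_const _
    · simp only [div_self hE0]
      exact Complex.one_mem_slitPlane
  have hs0 : s (E ζ) = Complex.log ζ := by
    simp [hs, div_self hE0]
  have hLd : DifferentiableAt ℂ (fun w => Complex.exp (s w)) (E ζ) := hsd.cexp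
  have hL0 : Complex.exp (s (E ζ)) = ζ := by
    rw [hs0, Complex.exp_log (Q_ne hζ)]
  refine ⟨fun w => Complex.exp (s w), hLd, hL0, ?_⟩
  have hLQ : ∀ᶠ w in 𝓝 (E ζ), Complex.exp (s w) ∈ Q := by
    apply hLd.continuousAt.eventually_mem
    rw [hL0]
    exact isOpen_Q.mem_nhds hζ
  have him : ∀ᶠ w in 𝓝 (E ζ), (s w).im ∈ Ioo 0 (Real.pi / 2) := by
    have h1 : ContinuousAt (fun w => (s w).im) (E ζ) :=
      Complex.continuous_im.continuousAt.comp hsd.continuousAt
    apply h1.eventually_mem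
    rw [hs0, Complex.log_im]
    exact Ioo_mem_nhds (arg_mem hζ).1 (arg_mem hζ).2
  have hne : ∀ᶠ w in 𝓝 (E ζ), w ≠ 0 := isOpen_ne.mem_nhds hE0
  filter_upwards [hLQ, him, hne] with w hw1 hw2 hw3
  refine ⟨hw1, ?_⟩
  have hpi := Real.pi_pos
  show Complex.exp (Complex.I * c * Complex.log (Complex.exp (s w))) = w
  rw [Complex.log_exp (by linarith [hw2.1]) (by linarith [hw2.2]), hs]
  simp only
  rw [mul_add, mul_div_cancel₀ _ hIc, Complex.exp_add, Complex.exp_log (div_ne_zero hw3 hE0)]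
  show E ζ * (w / E ζ) = w
  field_simp

lemma mdiff_symm (cs : ChartedSpace ℂ dbl.Surf) (hcs : dbl.IsRiemannStructure cs) {w : ℂ}
    (hw : w ∈ ring) : letI := cs; MDifferentiableAt 𝓘(ℂ) 𝓘(ℂ) fe.symm w := by
  let _ := cs
  obtain ⟨ζ, hζ, rfl⟩ := exists_E hw
  obtain ⟨L, hLd, hL0, hLev⟩ := exists_section hζ
  have hg : MDifferentiableAt 𝓘(ℂ) 𝓘(ℂ) g (L (E ζ)) := by
    rw [hL0]; exact mdiff_g cs hcs hζ
  have hcomp : MDifferentiableAt 𝓘(ℂ) 𝓘(ℂ) (g ∘ L) (E ζ) :=
    MDifferentiableAt.comp (E ζ) hg (mdifferentiableAt_iff_differentiableAt.mpr hLd)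
  refine hcomp.congr_of_eventuallyEq ?_
  filter_upwards [hLev] with w' hw'
  have h1 : f (g (L w')) = w' := by rw [f_g hw'.1, hw'.2]
  have h2 : fe.symm (fe (g (L w'))) = g (L w') := fe.left_inv (by rw [fe_source]; trivial)
  rw [fe_coe, h1] at h2
  exact h2

lemma mdiff_f (cs : ChartedSpace ℂ dbl.Surf) (hcs : dbl.IsRiemannStructure cs) (p : dbl.Surf) :
    letI := cs; MDifferentiableAt 𝓘(ℂ) 𝓘(ℂ) f p := by
  let _ := cs
  have hM : IsManifold 𝓘(ℂ) ω dbl.Surf := hcs.1
  have : IsManifold 𝓘(ℂ) 1 dbl.Surf := IsManifold.of_le (n := ω) le_top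
  set φ := chartAt ℂ p with hφ
  have hsrc : p ∈ φ.source := mem_chart_source ℂ p
  set e₀ : OpenPartialHomeomorph ℂ ℂ := fe.symm.trans φ with he₀
  have hd : DifferentiableOn ℂ e₀ e₀.source := by
    intro w hw
    rw [he₀, OpenPartialHomeomorph.trans_source] at hw
    have hwr : w ∈ ring := by
      have := hw.1
      rwa [OpenPartialHomeomorph.symm_source, fe_target] at this
    have h1 := mdiff_symm cs hcs hwr
    have h2 : MDifferentiableAt 𝓘(ℂ) 𝓘(ℂ) φ (fe.symm w) :=
      mdifferentiableAt_atlas (chart_mem_atlas ℂ p) hw.2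
    have h3 := MDifferentiableAt.comp w h2 h1
    exact (mdifferentiableAt_iff_differentiableAt.mp h3).differentiableWithinAt
  have hds := differentiableOn_symm e₀ hd
  have hpt : φ p ∈ e₀.target := by
    rw [he₀, OpenPartialHomeomorph.trans_target]
    refine ⟨φ.map_source hsrc, ?_⟩
    rw [mem_preimage, φ.left_inv hsrc, OpenPartialHomeomorph.symm_target, fe_source]
    trivial
  have h1 : MDifferentiableAt 𝓘(ℂ) 𝓘(ℂ) e₀.symm (φ p) :=
    mdifferentiableAt_iff_differentiableAt.mpr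
      (hds.differentiableAt (e₀.open_target.mem_nhds hpt))
  have h2 : MDifferentiableAt 𝓘(ℂ) 𝓘(ℂ) φ p :=
    mdifferentiableAt_atlas (chart_mem_atlas ℂ p) hsrc
  have h3 := MDifferentiableAt.comp p h1 h2
  refine h3.congr_of_eventuallyEq ?_
  filter_upwards [φ.open_source.mem_nhds hsrc] with q hq
  show f q = fe (φ.symm (φ q))
  rw [φ.left_inv hq]
  rfl

end Structure

/-- the Riemann surface structure given by the global chart `f` -/
noncomputable abbrev cs₀ : ChartedSpace ℂ dbl.Surf := isOpenEmbedding_f.singletonChartedSpace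

lemma isRiemannStructure_cs₀ : dbl.IsRiemannStructure cs₀ := by
  let _ := cs₀
  refine ⟨isOpenEmbedding_f.isManifold_singleton (I := 𝓘(ℂ)) (n := ω), ?_⟩
  have h1 : MDifferentiableOn 𝓘(ℂ) 𝓘(ℂ)
      (isOpenEmbedding_f.toOpenPartialHomeomorph f).symm (range f) :=
    (contMDiffOn_isOpenEmbedding_symm (I := 𝓘(ℂ)) (n := ω) isOpenEmbedding_f).mdifferentiableOn
      (by simp)
  have h2 : MDifferentiableOn 𝓘(ℂ) 𝓘(ℂ) F openStrip := by
    apply DifferentiableOn.mdifferentiableOn
    apply differentiableOn_E.comp (by fun_prop)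
    intro z hz
    exact add_I_mem (dbl.openStrip_subset hz)
  have h3 : MDifferentiableOn 𝓘(ℂ) 𝓘(ℂ)
      ((isOpenEmbedding_f.toOpenPartialHomeomorph f).symm ∘ F) openStrip := by
    apply h1.comp h2
    intro z hz
    exact ⟨dbl.projExt z, f_projExt (dbl.openStrip_subset hz)⟩
  refine h3.congr ?_
  intro z hz
  have h4 : fe.symm (fe (dbl.projExt z)) = dbl.projExt z := fe.left_inv (by rw [fe_source]; trivial)
  rw [fe_coe, f_projExt (dbl.openStrip_subset hz)] at h4
  exact h4.symm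

/-- the level -/
noncomputable def lev : ℝ := Real.exp (-(c * (Real.pi / 4)))

lemma lev_pos : 0 < lev := Real.exp_pos _

lemma lev_lt_one : lev < 1 := by
  unfold lev
  rw [Real.exp_lt_one_iff]
  have := c_pos
  have := Real.pi_pos
  nlinarith

lemma lt_lev : Real.exp (-(c * (Real.pi / 2))) < lev := by
  unfold lev
  rw [Real.exp_lt_exp]
  have := c_pos
  have := Real.pi_pos
  nlinarith

lemma f_mem_ring (p : dbl.Surf) : f p ∈ ring := by rw [← range_f]; exact mem_range_self p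

lemma f_symm {w : ℂ} (hw : w ∈ ring) : f (fe.symm w) = w := by
  have := fe.right_inv (x := w) (by rw [fe_target]; exact hw)
  exact this

lemma symm_f (p : dbl.Surf) : fe.symm (f p) = p := fe.left_inv (x := p) (by rw [fe_source]; trivial)

lemma lev_mul_mem {w : ℂ} (h1 : 1 ≤ ‖w‖) (h2 : ‖w‖ < lev⁻¹) : (lev : ℂ) * w ∈ ring := by
  have h3 := lev_pos
  have hn : ‖(lev : ℂ) * w‖ = lev * ‖w‖ := by
    rw [norm_mul, Complex.norm_real, Real.norm_eq_abs, abs_of_pos h3]
  refine ⟨?_, ?_⟩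
  · rw [hn]
    have := lt_lev
    nlinarith
  · rw [hn]
    rw [lt_inv_comm₀ (by linarith) h3] at h2
    calc lev * ‖w‖ < ‖w‖⁻¹ * ‖w‖ := mul_lt_mul_of_pos_right h2 (by linarith)
      _ = 1 := inv_mul_cancel₀ (by linarith)

/-- the end chart -/
noncomputable def endMap : OpenPartialHomeomorph dbl.Surf ℂ where
  toFun p := f p / lev
  invFun w := fe.symm (lev * w)
  source := {p | lev < ‖f p‖}
  target := {w | 1 < ‖w‖ ∧ ‖w‖ < lev⁻¹}
  map_source' := by
    intro p hp
    have h3 := lev_pos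
    have hn : ‖f p / lev‖ = ‖f p‖ / lev := by
      rw [norm_div, Complex.norm_real, Real.norm_eq_abs, abs_of_pos h3]
    simp only [mem_ofPred_eq] at hp ⊢
    rw [hn]
    refine ⟨(one_lt_div h3).mpr hp, ?_⟩
    rw [div_eq_mul_inv]
    calc ‖f p‖ * lev⁻¹ < 1 * lev⁻¹ := mul_lt_mul_of_pos_right (f_mem_ring p).2 (inv_pos.mpr h3)
      _ = lev⁻¹ := one_mul _
  map_target' := by
    intro w hw
    simp only [mem_ofPred_eq] at hw ⊢
    rw [f_symm (lev_mul_mem hw.1.le hw.2), norm_mul, Complex.norm_real, Real.norm_eq_abs,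
      abs_of_pos lev_pos]
    have := lev_pos
    nlinarith [hw.1]
  left_inv' := by
    intro p hp
    have h3 : (lev : ℂ) ≠ 0 := by exact_mod_cast lev_pos.ne'
    rw [mul_div_cancel₀ _ h3, symm_f]
  right_inv' := by
    intro w hw
    simp only [mem_ofPred_eq] at hw
    have h3 : (lev : ℂ) ≠ 0 := by exact_mod_cast lev_pos.ne'
    rw [f_symm (lev_mul_mem hw.1.le hw.2), mul_div_cancel_left₀ _ h3]
  open_source := isOpen_lt continuous_const continuous_f.norm
  open_target := (isOpen_lt continuous_const continuous_norm).inter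
    (isOpen_lt continuous_norm continuous_const)
  continuousOn_toFun := (continuous_f.div_const _).continuousOn
  continuousOn_invFun := by
    apply ContinuousOn.comp (t := fe.target) fe.continuousOn_symm (by fun_prop)
    intro w hw
    rw [fe_target]
    exact lev_mul_mem hw.1.le hw.2

lemma frontier_U : frontier {p : dbl.Surf | lev < ‖f p‖} = {p | ‖f p‖ = lev} := by
  have h1 : {p : dbl.Surf | lev < ‖f p‖} = f ⁻¹' (Metric.closedBall (0 : ℂ) lev)ᶜ := by
    ext p
    simp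
  rw [h1, ← isOpenMap_f.preimage_frontier_eq_frontier_preimage continuous_f, frontier_compl,
    frontier_closedBall _ lev_pos.ne']
  ext p
  simp

lemma hyperbolic (cs : ChartedSpace ℂ dbl.Surf) (hcs : dbl.IsRiemannStructure cs) :
    dbl.HasHyperbolicEnd cs := by
  let _ := cs
  have hl0 : (lev : ℂ) ≠ 0 := by exact_mod_cast lev_pos.ne'
  have h1l : (1 : ℝ) < lev⁻¹ := (one_lt_inv₀ lev_pos).mpr lev_lt_one
  have hcirc : ∀ u : Circle, (lev : ℂ) * u ∈ ring := fun u =>
    lev_mul_mem (by rw [Circle.norm_coe]) (by rw [Circle.norm_coe]; exact h1l)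
  refine ⟨{p | lev < ‖f p‖}, fun u => fe.symm (lev * u), lev⁻¹, endMap, ?_, ⟨2, ?_⟩, ?_, ?_, ?_,
    h1l, rfl, rfl, ?_, ?_⟩
  · exact isOpen_lt continuous_const continuous_f.norm
  · intro z hz
    simp only [mem_ofPred_eq]
    rw [f_proj]
    unfold F lev
    rw [norm_E, Real.exp_lt_exp, neg_lt_neg_iff]
    apply mul_lt_mul_of_pos_left _ c_pos
    by_contra hcon
    push Not at hcon
    have hQ := add_I_mem z.2
    obtain ⟨ha1, ha2⟩ := arg_mem hQ
    have ht := Complex.tan_arg ((z : ℂ) + Complex.I)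
    have hpi := Real.pi_pos
    have h4 : Real.tan (Real.pi / 4) ≤ Real.tan (Complex.arg ((z : ℂ) + Complex.I)) := by
      rcases eq_or_lt_of_le hcon with h | h
      · rw [← h]
      · exact (Real.tan_lt_tan_of_lt_of_lt_pi_div_two (by linarith) ha2 h).le
    rw [Real.tan_pi_div_four, ht, le_div_iff₀ hQ.1] at h4
    simp only [Complex.add_re, Complex.add_im, Complex.I_re, Complex.I_im, add_zero,
      one_mul] at h4
    have h5 := (mem_carrier.mp z.2).2.2
    linarith
  · rw [← continuousOn_univ]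
    apply ContinuousOn.comp (t := fe.target) fe.continuousOn_symm (by fun_prop)
    intro u _
    rw [fe_target]
    exact hcirc u
  · intro u v huv
    have h2 := congrArg f huv
    simp only [f_symm (hcirc _)] at h2
    exact Circle.ext (mul_left_cancel₀ hl0 h2)
  · rw [frontier_U]
    ext p
    simp only [mem_ofPred_eq, mem_range]
    constructor
    · intro hp
      have hn : ‖f p / lev‖ = 1 := by
        rw [norm_div, Complex.norm_real, Real.norm_eq_abs, abs_of_pos lev_pos, hp,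
          div_self lev_pos.ne']
      refine ⟨⟨f p / lev, ?_⟩, ?_⟩
      · exact mem_sphere_zero_iff_norm.mpr hn
      · show fe.symm (lev * (f p / lev)) = p
        rw [mul_div_cancel₀ _ hl0, symm_f]
    · rintro ⟨u, rfl⟩
      rw [f_symm (hcirc u), norm_mul, Circle.norm_coe, Complex.norm_real, Real.norm_eq_abs,
        abs_of_pos lev_pos, mul_one]
  · intro p _
    apply MDifferentiableAt.mdifferentiableWithinAt
    have h2 : MDifferentiableAt 𝓘(ℂ) 𝓘(ℂ) (fun w : ℂ => w / lev) (f p) := by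
      apply DifferentiableAt.mdifferentiableAt
      fun_prop
    exact MDifferentiableAt.comp (g := fun w : ℂ => w / lev) (f := f) p h2 (mdiff_f cs hcs p)
  · intro w hw
    apply MDifferentiableAt.mdifferentiableWithinAt
    have h2 : MDifferentiableAt 𝓘(ℂ) 𝓘(ℂ) (fun w : ℂ => (lev : ℂ) * w) w := by
      apply DifferentiableAt.mdifferentiableAt
      fun_prop
    have h3 := mdiff_symm cs hcs (lev_mul_mem hw.1.le hw.2)
    exact MDifferentiableAt.comp (g := fe.symm) (f := fun w : ℂ => (lev : ℂ) * w) w h3 h2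

end Dbl

theorem dbl_conformal : dbl.IsConformal := by
  refine ⟨?_, Dbl.cs₀, Dbl.isRiemannStructure_cs₀⟩
  exact T2Space.of_injective_continuous Dbl.f_injective Dbl.continuous_f

theorem dbl_hyperbolic : ∀ cs : ChartedSpace ℂ dbl.Surf, dbl.IsRiemannStructure cs →
    dbl.HasHyperbolicEnd cs := fun cs hcs => Dbl.hyperbolic cs hcs

end Pool.Agent.ConfSewing
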