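import Mathlib

set_option autoImplicit false

open Set Filter Topology MeasureTheory
open scoped Interval

namespace Pool.Agent.ConfSewing

/-- Rectangle identity when the open rectangle does not meet the exceptional line. -/
lemma conservative_aux {V : Set ℂ} {H : ℂ → ℂ} (hc : ContinuousOn H V) {t : ℝ}
    (hd : ∀ z ∈ V, z.im ≠ t → DifferentiableAt ℂ H z) {z w : ℂ} (hR : Complex.Rectangle z w ⊆ V)
    (ht : t ∉ Ioo (min z.im w.im) (max z.im w.im)) :
    (∫ x : ℝ in z.re..w.re, H (x + z.im * Complex.I)) -
      (∫ x : ℝ in z.re..w.re, H (x + w.im * Complex.I)) +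
      Complex.I • (∫ y : ℝ in z.im..w.im, H (w.re + y * Complex.I)) -
      Complex.I • (∫ y : ℝ in z.im..w.im, H (z.re + y * Complex.I)) = 0 := by
  apply Complex.integral_boundary_rect_eq_zero_of_continuousOn_of_differentiableOn
  · exact hc.mono hR
  · intro p hp
    have hpV : p ∈ V := hR
      ((inter_subset_inter (preimage_mono Ioo_subset_Icc_self)
        (preimage_mono Ioo_subset_Icc_self)) hp)
    apply (hd p hpV _).differentiableWithinAt
    rintro rfl
    exact ht hp.2

/-- **Painlevé's theorem for a horizontal line**: a continuous function which is holomorphic off a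
horizontal line is holomorphic. -/
theorem differentiableOn_of_off_line {V : Set ℂ} (hV : IsOpen V) {H : ℂ → ℂ}
    (hc : ContinuousOn H V) (t : ℝ) (hd : ∀ z ∈ V, z.im ≠ t → DifferentiableAt ℂ H z) :
    DifferentiableOn ℂ H V := by
  rw [← Complex.isConservativeOn_and_continuousOn_iff_isDifferentiableOn hV]
  refine ⟨?_, hc⟩
  intro z w hR
  rw [← add_eq_zero_iff_eq_neg, Complex.wedgeIntegral_add_wedgeIntegral_eq]
  by_cases ht : t ∈ Ioo (min z.im w.im) (max z.im w.im)
  · -- split the rectangle along the line
    set z' : ℂ := z.re + t * Complex.I with hz'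
    set w' : ℂ := w.re + t * Complex.I with hw'
    have hz're : z'.re = z.re := by simp [hz']
    have hz'im : z'.im = t := by simp [hz']
    have hw're : w'.re = w.re := by simp [hw']
    have hw'im : w'.im = t := by simp [hw']
    have htI : t ∈ uIcc z.im w.im := ⟨ht.1.le, ht.2.le⟩
    have hR1 : Complex.Rectangle z w' ⊆ V := by
      refine Subset.trans ?_ hR
      intro p hp
      refine ⟨?_, ?_⟩
      · have := hp.1
        rwa [mem_preimage, hw're] at this
      · have := hp.2
        rw [mem_preimage, hw'im] at this
        exact uIcc_subset_uIcc_left htI this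
    have hR2 : Complex.Rectangle z' w ⊆ V := by
      refine Subset.trans ?_ hR
      intro p hp
      refine ⟨?_, ?_⟩
      · have := hp.1
        rwa [mem_preimage, hz're] at this
      · have := hp.2
        rw [mem_preimage, hz'im] at this
        exact uIcc_subset_uIcc_right htI this
    have h1 := conservative_aux hc hd hR1 (by
      rw [hw'im]
      rintro ⟨h1, h2⟩
      rcases le_total z.im t with h | h
      · rw [max_eq_right h] at h2; exact lt_irrefl _ h2
      · rw [min_eq_right h] at h1; exact lt_irrefl _ h1)
    have h2 := conservative_aux hc hd hR2 (by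
      rw [hz'im]
      rintro ⟨h1, h2⟩
      rcases le_total t w.im with h | h
      · rw [min_eq_left h] at h1; exact lt_irrefl _ h1
      · rw [max_eq_left h] at h2; exact lt_irrefl _ h2)
    rw [hw're, hw'im] at h1
    rw [hz're, hz'im] at h2
    have hmem : ∀ x y : ℝ, x ∈ uIcc z.re w.re → y ∈ uIcc z.im w.im →
        (x + y * Complex.I : ℂ) ∈ V := by
      intro x y hx hy
      apply hR
      refine ⟨?_, ?_⟩
      · simpa using hx
      · simpa using hy
    have hint : ∀ x : ℝ, x ∈ uIcc z.re w.re → ∀ a b : ℝ, a ∈ uIcc z.im w.im → b ∈ uIcc z.im w.im →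
        IntervalIntegrable (fun y : ℝ => H (x + y * Complex.I)) volume a b := by
      intro x hx a b ha hb
      apply ContinuousOn.intervalIntegrable
      apply hc.comp (by fun_prop)
      intro y hy
      exact hmem x y hx (uIcc_subset_uIcc ha hb hy)
    have h3 : (∫ y : ℝ in z.im..w.im, H (w.re + y * Complex.I)) =
        (∫ y : ℝ in z.im..t, H (w.re + y * Complex.I)) +
        (∫ y : ℝ in t..w.im, H (w.re + y * Complex.I)) := by
      rw [intervalIntegral.integral_add_adjacent_intervals]
      · exact hint _ right_mem_uIcc _ _ left_mem_uIcc htI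
      · exact hint _ right_mem_uIcc _ _ htI right_mem_uIcc
    have h4 : (∫ y : ℝ in z.im..w.im, H (z.re + y * Complex.I)) =
        (∫ y : ℝ in z.im..t, H (z.re + y * Complex.I)) +
        (∫ y : ℝ in t..w.im, H (z.re + y * Complex.I)) := by
      rw [intervalIntegral.integral_add_adjacent_intervals]
      · exact hint _ left_mem_uIcc _ _ left_mem_uIcc htI
      · exact hint _ left_mem_uIcc _ _ htI right_mem_uIcc
    rw [h3, h4]
    have h5 := congrArg₂ (· + ·) h1 h2
    simp only [add_zero] at h5
    rw [← h5]
    simp only [smul_eq_mul]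
    ring
  · exact conservative_aux hc hd hR ht

/-- The inverse of an injective holomorphic map is holomorphic, formulated for open partial
homeomorphisms. -/
theorem differentiableOn_symm (e : OpenPartialHomeomorph ℂ ℂ)
    (he : DifferentiableOn ℂ e e.source) : DifferentiableOn ℂ e.symm e.target := by
  intro w hw
  apply DifferentiableAt.differentiableWithinAt
  set z := e.symm w with hz
  have hzs : z ∈ e.source := e.map_target hw
  have hzw : e z = w := e.right_inv hw
  have hA : AnalyticAt ℂ e z := he.analyticAt (e.open_source.mem_nhds hzs)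
  -- the derivative does not vanish on a punctured neighbourhood
  have hne : ∀ᶠ y in 𝓝[≠] z, deriv e y ≠ 0 := by
    rcases hA.deriv.eventually_eq_zero_or_eventually_ne_zero with h | h
    · exfalso
      have h0 : ∀ᶠ y in 𝓝 z, y ∈ e.source := e.open_source.mem_nhds hzs
      have h1 : ∀ᶠ y in 𝓝 z, y ∈ e.source ∧ deriv e y = 0 := h0.and h
      obtain ⟨r, hr, hball⟩ := Metric.eventually_nhds_iff_ball.mp h1
      have hconst : ∀ y ∈ Metric.ball z r, e y = e z := by
        intro y hy
        apply (convex_ball z r).is_const_of_fderivWithin_eq_zero (𝕜 := ℂ)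
          (he.mono fun y hy => (hball y hy).1) _ hy (Metric.mem_ball_self hr)
        intro x hx
        rw [fderivWithin_of_isOpen Metric.isOpen_ball hx]
        have := (hball x hx).2
        ext
        exact this
      have hy : z + (r / 2 : ℝ) ∈ Metric.ball z r := by
        rw [Metric.mem_ball, dist_eq_norm, add_sub_cancel_left, Complex.norm_real,
          Real.norm_eq_abs, abs_of_pos (by linarith)]
        linarith
      have := e.injOn (hball _ hy).1 hzs (hconst _ hy)
      have h2 : ((r / 2 : ℝ) : ℂ) = 0 := by
        have h3 : z + (r / 2 : ℝ) = z + 0 := by rw [this, add_zero]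
        exact add_left_cancel h3
      have h3 : r / 2 = 0 := by exact_mod_cast h2
      linarith
    · exact h
  have hcont : ContinuousAt e.symm w := e.continuousAt_symm hw
  apply AnalyticAt.differentiableAt
  apply Complex.analyticAt_of_differentiable_on_punctured_nhds_of_continuousAt _ hcont
  -- pull back the punctured neighbourhood
  have htend : Tendsto e.symm (𝓝[≠] w) (𝓝[≠] z) := by
    rw [tendsto_nhdsWithin_iff]
    refine ⟨hcont.tendsto.mono_left nhdsWithin_le_nhds, ?_⟩
    have : ∀ᶠ v in 𝓝[≠] w, v ∈ e.target :=
      nhdsWithin_le_nhds (e.open_target.mem_nhds hw)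
    filter_upwards [this, self_mem_nhdsWithin] with v hv hvw h
    exact hvw (e.symm.injOn hv hw h)
  have h6 : ∀ᶠ v in 𝓝[≠] w, v ∈ e.target :=
    nhdsWithin_le_nhds (e.open_target.mem_nhds hw)
  filter_upwards [htend.eventually hne, h6] with v hv hvt
  have hvs := e.map_target hvt
  have hd : HasDerivAt e (deriv e (e.symm v)) (e.symm v) :=
    (he.differentiableAt (e.open_source.mem_nhds hvs)).hasDerivAt
  exact (e.hasDerivAt_symm hvt hv hd).differentiableAt

end Pool.Agent.ConfSewing
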