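import Pool.Agent.ConfSewing.Basic
import Pool.Agent.ConfSewing.Painleve

set_option autoImplicit false

open Set Filter Topology
open scoped Manifold ContDiff

namespace Pool.Agent.ConfSewing

/-- The sewing `x ↦ 2x + i`. -/
noncomputable def dbl : Sewing where
  toFun x := 2 * x
  start := 0
  start_nonneg := le_rfl
  strictMonoOn := by
    intro a _ b _ h
    show 2 * a < 2 * b
    linarith
  continuousOn := (continuous_const.mul continuous_id).continuousOn
  image_eq := by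
    ext y
    simp only [mem_image, mem_Ioi]
    constructor
    · rintro ⟨x, hx, rfl⟩
      linarith
    · intro hy
      exact ⟨y / 2, by linarith, by ring⟩

namespace Dbl

/-- the open quarter plane -/
def Q : Set ℂ := {ζ | 0 < ζ.re ∧ 0 < ζ.im}

lemma isOpen_Q : IsOpen Q :=
  (isOpen_lt continuous_const Complex.continuous_re).inter
    (isOpen_lt continuous_const Complex.continuous_im)

lemma Q_slit {ζ : ℂ} (h : ζ ∈ Q) : ζ ∈ Complex.slitPlane := Or.inl h.1

lemma Q_ne {ζ : ℂ} (h : ζ ∈ Q) : ζ ≠ 0 := Complex.slitPlane_ne_zero (Q_slit h)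

lemma isPreconnected_Q : IsPreconnected Q := by
  apply Convex.isPreconnected
  have h1 : Convex ℝ (Complex.re ⁻¹' Ioi (0 : ℝ)) :=
    (convex_Ioi (0 : ℝ)).is_linear_preimage Complex.reLm.isLinear
  have h2 : Convex ℝ (Complex.im ⁻¹' Ioi (0 : ℝ)) :=
    (convex_Ioi (0 : ℝ)).is_linear_preimage Complex.imLm.isLinear
  exact h1.inter h2

/-- `c = 2π / log 2` -/
noncomputable def c : ℝ := 2 * Real.pi / Real.log 2

lemma log_two_pos : 0 < Real.log 2 := Real.log_pos (by norm_num)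

lemma c_pos : 0 < c := by
  have := log_two_pos
  have := Real.pi_pos
  unfold c
  positivity

lemma c_mul : c * Real.log 2 = 2 * Real.pi := by
  unfold c
  have := log_two_pos
  field_simp

/-- the map `ζ ↦ exp (i c log ζ)` -/
noncomputable def E (ζ : ℂ) : ℂ := Complex.exp (Complex.I * c * Complex.log ζ)

lemma norm_E (ζ : ℂ) : ‖E ζ‖ = Real.exp (-(c * Complex.arg ζ)) := by
  unfold E
  rw [Complex.norm_exp]
  congr 1
  simp [Complex.mul_re, Complex.log_im]

lemma E_zpow_mul (n : ℤ) {ζ : ℂ} (h : ζ ≠ 0) : E ((2 : ℂ) ^ n * ζ) = E ζ := by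
  unfold E
  have h1 : ((2 : ℂ) ^ n) = (((2 : ℝ) ^ n : ℝ) : ℂ) := by push_cast; rfl
  rw [h1, Complex.log_ofReal_mul (by positivity) h, Real.log_zpow]
  have h2 : Complex.I * (c : ℂ) * (((n * Real.log 2 : ℝ) : ℂ) + Complex.log ζ) =
      Complex.I * c * Complex.log ζ + n * (2 * Real.pi * Complex.I) := by
    have h3 : (c : ℂ) * (Real.log 2 : ℝ) = 2 * (Real.pi : ℂ) := by
      rw [← Complex.ofReal_mul, c_mul]; push_cast; ring
    push_cast
    linear_combination Complex.I * n * h3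
  rw [h2, Complex.exp_add]
  rw [Complex.exp_int_mul_two_pi_mul_I, mul_one]

lemma E_eq_iff {ζ ζ' : ℂ} (h : ζ ∈ Q) (h' : ζ' ∈ Q) (hE : E ζ = E ζ') :
    ∃ n : ℤ, ζ = (2 : ℂ) ^ n * ζ' := by
  unfold E at hE
  rw [Complex.exp_eq_exp_iff_exists_int] at hE
  obtain ⟨n, hn⟩ := hE
  refine ⟨n, ?_⟩
  have hc0 : (c : ℂ) ≠ 0 := by exact_mod_cast c_pos.ne'
  have h3 : (c : ℂ) * (Real.log 2 : ℝ) = 2 * (Real.pi : ℂ) := by
    rw [← Complex.ofReal_mul, c_mul]; push_cast; ring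
  have h4 : Complex.log ζ = n * (Real.log 2 : ℝ) + Complex.log ζ' := by
    have h5 : Complex.I * c * Complex.log ζ = Complex.I * c * (n * (Real.log 2 : ℝ) + Complex.log ζ') := by
      rw [hn]
      linear_combination -Complex.I * n * h3
    exact mul_left_cancel₀ (mul_ne_zero Complex.I_ne_zero hc0) h5
  have h6 := congrArg Complex.exp h4
  rw [Complex.exp_log (Q_ne h), Complex.exp_add, Complex.exp_log (Q_ne h')] at h6
  rw [h6]
  congr 1
  rw [show (n : ℂ) * ((Real.log 2 : ℝ) : ℂ) = (((Real.log 2 * n : ℝ)) : ℂ) by push_cast; ring]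
  rw [← Complex.ofReal_exp, ← Real.rpow_def_of_pos (by norm_num : (0:ℝ) < 2), Real.rpow_intCast]
  push_cast
  rfl

lemma add_I_mem {z : ℂ} (hz : z ∈ dbl.carrier) : z + Complex.I ∈ Q := by
  refine ⟨?_, ?_⟩
  · have := hz.1.1
    simpa using this
  · have := hz.1.2.1
    simp only [Complex.add_im, Complex.I_im]
    linarith

/-- the map on the half-strip -/
noncomputable def F (z : ℂ) : ℂ := E (z + Complex.I)

lemma F_glue (x : ℝ) (hx : 0 < x) : F (dbl.toFun x + Complex.I) = F x := by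
  unfold F
  have h1 : ((dbl.toFun x : ℝ) : ℂ) + Complex.I + Complex.I = (2 : ℂ) ^ (1 : ℤ) * (x + Complex.I) := by
    show ((2 * x : ℝ) : ℂ) + Complex.I + Complex.I = _
    push_cast
    rw [zpow_one]
    ring
  rw [h1, E_zpow_mul]
  exact Q_ne (add_I_mem (dbl.bottom_mem hx))

lemma differentiableOn_E : DifferentiableOn ℂ E Q := by
  intro ζ hζ
  unfold E
  apply DifferentiableAt.differentiableWithinAt
  have := Complex.differentiableAt_log (Q_slit hζ)
  fun_prop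

lemma continuousOn_F : ContinuousOn F dbl.carrier := by
  unfold F
  apply differentiableOn_E.continuousOn.comp (by fun_prop)
  intro z hz
  exact add_I_mem hz

/-- the map on the surface -/
noncomputable def f : dbl.Surf → ℂ := dbl.desc F F_glue

lemma f_projExt {z : ℂ} (hz : z ∈ dbl.carrier) : f (dbl.projExt z) = F z :=
  dbl.desc_projExt F F_glue hz

lemma f_proj (z : dbl.carrier) : f (dbl.proj z) = F z := rfl

lemma continuous_f : Continuous f := dbl.continuous_desc F F_glue continuousOn_F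

lemma mem_carrier {z : ℂ} : z ∈ dbl.carrier ↔ 0 < z.re ∧ 0 ≤ z.im ∧ z.im ≤ 1 := by
  constructor
  · rintro ⟨h, _⟩; exact h
  · intro h; exact ⟨h, fun _ => h.1⟩

/-- the map from the quarter plane to the surface -/
noncomputable def g (ζ : ℂ) : dbl.Surf :=
  dbl.projExt (ζ / (2 : ℂ) ^ (Int.log 2 ζ.im) - Complex.I)

lemma zpow_cast (n : ℤ) : ((2 : ℂ) ^ n) = (((2 : ℝ) ^ n : ℝ) : ℂ) := by push_cast; rfl

lemma sub_mem {n : ℤ} {ζ : ℂ} (hζ : ζ ∈ Q) (h1 : (2 : ℝ) ^ n ≤ ζ.im) (h2 : ζ.im ≤ 2 ^ (n + 1)) :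
    ζ / (2 : ℂ) ^ n - Complex.I ∈ dbl.carrier := by
  rw [mem_carrier, zpow_cast]
  have hp : (0 : ℝ) < 2 ^ n := by positivity
  have h3 : (2 : ℝ) ^ (n + 1) = 2 * 2 ^ n := by rw [zpow_add_one₀ (by norm_num)]; ring
  rw [h3] at h2
  refine ⟨?_, ?_, ?_⟩
  · rw [Complex.sub_re, Complex.div_ofReal_re, Complex.I_re, sub_zero]
    exact div_pos hζ.1 hp
  · rw [Complex.sub_im, Complex.div_ofReal_im, Complex.I_im, sub_nonneg]
    rwa [one_le_div hp]
  · rw [Complex.sub_im, Complex.div_ofReal_im, Complex.I_im, sub_le_iff_le_add]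
    rw [div_le_iff₀ hp]
    linarith

lemma g_eq {n : ℤ} {ζ : ℂ} (hζ : ζ ∈ Q) (h1 : (2 : ℝ) ^ n ≤ ζ.im) (h2 : ζ.im ≤ 2 ^ (n + 1)) :
    g ζ = dbl.projExt (ζ / (2 : ℂ) ^ n - Complex.I) := by
  rcases eq_or_lt_of_le h2 with h | h
  · -- upper edge
    have hlog : Int.log 2 ζ.im = n + 1 := by
      rw [h]
      exact_mod_cast Int.log_zpow (R := ℝ) (b := 2) (by norm_num) (n + 1)
    unfold g
    rw [hlog]
    set x : ℝ := ζ.re / 2 ^ (n + 1) with hx
    have hx0 : 0 < x := div_pos hζ.1 (by positivity)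
    have h3 : ζ / (2 : ℂ) ^ (n + 1) - Complex.I = x := by
      rw [zpow_cast]
      apply Complex.ext
      · rw [Complex.sub_re, Complex.div_ofReal_re, Complex.I_re, sub_zero, Complex.ofReal_re]
      · rw [Complex.sub_im, Complex.div_ofReal_im, Complex.I_im, h, Complex.ofReal_im,
          div_self (by positivity), sub_self]
    have h4 : ζ / (2 : ℂ) ^ n - Complex.I = ((dbl.toFun x : ℝ) : ℂ) + Complex.I := by
      have h5 : ζ / (2 : ℂ) ^ n = 2 * (ζ / (2 : ℂ) ^ (n + 1)) := by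
        rw [zpow_add_one₀ (by norm_num)]
        field_simp
      have h6 : ζ / (2 : ℂ) ^ (n + 1) = x + Complex.I := by rw [← h3]; ring
      rw [h5, h6]
      show _ = ((2 * x : ℝ) : ℂ) + Complex.I
      push_cast
      ring
    rw [h3, h4, dbl.projExt_glue hx0]
  · have hlog : Int.log 2 ζ.im = n := by
      have hp : 0 < ζ.im := hζ.2
      apply le_antisymm
      · rw [← Int.lt_add_one_iff]
        rw [← Int.lt_zpow_iff_log_lt (by norm_num) hp]
        exact_mod_cast h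
      · rw [← Int.zpow_le_iff_le_log (by norm_num) hp]
        exact_mod_cast h1
    unfold g
    rw [hlog]

lemma exists_zpow {ζ : ℂ} (hζ : ζ ∈ Q) : ∃ n : ℤ, (2 : ℝ) ^ n ≤ ζ.im ∧ ζ.im < 2 ^ (n + 1) := by
  refine ⟨Int.log 2 ζ.im, ?_, ?_⟩
  · exact_mod_cast Int.zpow_log_le_self (b := 2) (by norm_num) hζ.2
  · exact_mod_cast Int.lt_zpow_succ_log_self (b := 2) (by norm_num) ζ.im

lemma f_g {ζ : ℂ} (hζ : ζ ∈ Q) : f (g ζ) = E ζ := by
  obtain ⟨n, h1, h2⟩ := exists_zpow hζ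
  rw [g_eq hζ h1 h2.le, f_projExt (sub_mem hζ h1 h2.le)]
  unfold F
  have h3 : ζ / (2 : ℂ) ^ n - Complex.I + Complex.I = (2 : ℂ) ^ (-n) * ζ := by
    rw [zpow_neg]; field_simp; ring
  rw [h3, E_zpow_mul _ (Q_ne hζ)]

lemma g_add_I {z : ℂ} (hz : z ∈ dbl.carrier) : g (z + Complex.I) = dbl.projExt z := by
  have h := mem_carrier.mp hz
  rw [g_eq (n := 0) (add_I_mem hz)]
  · simp
  · simpa using h.2.1
  · simp only [Complex.add_im, Complex.I_im, zero_add, zpow_one]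
    linarith [h.2.2]

lemma g_surj (p : dbl.Surf) : ∃ ζ ∈ Q, g ζ = p := by
  obtain ⟨z, rfl⟩ := dbl.proj_surjective p
  exact ⟨z + Complex.I, add_I_mem z.2, by rw [g_add_I z.2, dbl.projExt_coe]⟩

lemma continuousOn_g_band (n : ℤ) :
    ContinuousOn g (Q ∩ {ζ | (2 : ℝ) ^ n ≤ ζ.im ∧ ζ.im ≤ 2 ^ (n + 1)}) := by
  have h1 : ContinuousOn (fun ζ : ℂ => dbl.projExt (ζ / (2 : ℂ) ^ n - Complex.I))
      (Q ∩ {ζ | (2 : ℝ) ^ n ≤ ζ.im ∧ ζ.im ≤ 2 ^ (n + 1)}) := by
    apply dbl.continuousOn_projExt.comp (by fun_prop)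
    rintro ζ ⟨hζ, h1, h2⟩
    exact sub_mem hζ h1 h2
  apply h1.congr
  rintro ζ ⟨hζ, h1, h2⟩
  exact g_eq hζ h1 h2

lemma exists_band {ζ : ℂ} (hζ : ζ ∈ Q) : ∃ n : ℤ, (2 : ℝ) ^ n < ζ.im ∧ ζ.im < 2 ^ (n + 2) := by
  obtain ⟨n, h1, h2⟩ := exists_zpow hζ
  refine ⟨n - 1, ?_, ?_⟩
  · refine lt_of_lt_of_le ?_ h1
    exact zpow_lt_zpow_right₀ (by norm_num) (by omega)
  · rw [show n - 1 + 2 = n + 1 by ring]
    exact h2

lemma band_nhds {a b : ℝ} {ζ : ℂ} (h1 : a < ζ.im) (h2 : ζ.im < b) :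
    {w : ℂ | a < w.im ∧ w.im < b} ∈ 𝓝 ζ := by
  have h3 : IsOpen {w : ℂ | a < w.im ∧ w.im < b} :=
    (isOpen_lt continuous_const Complex.continuous_im).inter
      (isOpen_lt Complex.continuous_im continuous_const)
  exact h3.mem_nhds ⟨h1, h2⟩

lemma continuousAt_g {ζ : ℂ} (hζ : ζ ∈ Q) : ContinuousAt g ζ := by
  obtain ⟨n, h1, h2⟩ := exists_band hζ
  have hA := continuousOn_g_band n
  have hB := continuousOn_g_band (n + 1)
  rw [show n + 1 + 1 = n + 2 by ring] at hB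
  rcases lt_trichotomy ζ.im (2 ^ (n + 1)) with h | h | h
  · apply hA.continuousAt
    have h3 : {ζ : ℂ | (2 : ℝ) ^ n < ζ.im ∧ ζ.im < 2 ^ (n + 1)} ∈ 𝓝 ζ := band_nhds h1 h
    filter_upwards [isOpen_Q.mem_nhds hζ, h3] with w hw1 hw2
    exact ⟨hw1, hw2.1.le, hw2.2.le⟩
  · have hwA := hA ζ ⟨hζ, h1.le, h.le⟩
    have hwB := hB ζ ⟨hζ, h.ge, h2.le⟩
    have := hwA.union hwB
    apply this.continuousAt
    have h3 : {ζ : ℂ | (2 : ℝ) ^ n < ζ.im ∧ ζ.im < 2 ^ (n + 2)} ∈ 𝓝 ζ := band_nhds h1 h2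
    filter_upwards [isOpen_Q.mem_nhds hζ, h3] with w hw1 hw2
    rcases le_total w.im (2 ^ (n + 1)) with h4 | h4
    · exact Or.inl ⟨hw1, hw2.1.le, h4⟩
    · exact Or.inr ⟨hw1, h4, hw2.2.le⟩
  · apply hB.continuousAt
    have h3 : {ζ : ℂ | (2 : ℝ) ^ (n + 1) < ζ.im ∧ ζ.im < 2 ^ (n + 2)} ∈ 𝓝 ζ := band_nhds h h2
    filter_upwards [isOpen_Q.mem_nhds hζ, h3] with w hw1 hw2
    exact ⟨hw1, hw2.1.le, hw2.2.le⟩

lemma continuousOn_g : ContinuousOn g Q := fun _ hζ => (continuousAt_g hζ).continuousWithinAt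

lemma f_injective : Function.Injective f := by
  intro p q hpq
  obtain ⟨z, rfl⟩ := dbl.proj_surjective p
  obtain ⟨w, rfl⟩ := dbl.proj_surjective q
  rw [f_proj, f_proj] at hpq
  obtain ⟨n, hn⟩ := E_eq_iff (add_I_mem z.2) (add_I_mem w.2) hpq
  have hz := mem_carrier.mp z.2
  have hw := mem_carrier.mp w.2
  rw [zpow_cast] at hn
  have hre := congrArg Complex.re hn
  have him := congrArg Complex.im hn
  rw [Complex.re_ofReal_mul] at hre
  rw [Complex.im_ofReal_mul] at him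
  simp only [Complex.add_re, Complex.add_im, Complex.I_re, Complex.I_im, add_zero] at hre him
  rw [dbl.proj_eq_iff]
  have hp : (0 : ℝ) < 2 ^ n := by positivity
  rcases lt_trichotomy n 0 with h | h | h
  · -- 2^n ≤ 1/2
    have h1 : (2 : ℝ) ^ n ≤ 2 ^ (-1 : ℤ) := zpow_le_zpow_right₀ (by norm_num) (by omega)
    rw [show ((2 : ℝ) ^ (-1 : ℤ)) = 1 / 2 by norm_num] at h1
    have h2 : (w : ℂ).im = 1 := by nlinarith
    have h3 : (z : ℂ).im = 0 := by nlinarith
    have h4 : (2 : ℝ) ^ n = 1 / 2 := by rw [h2, h3] at him; linarith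
    right; left
    refine ⟨h3, ?_⟩
    apply Complex.ext
    · show _ = (((2 * (z : ℂ).re : ℝ) : ℂ) + Complex.I).re
      rw [Complex.add_re, Complex.ofReal_re, Complex.I_re, hre, h4]
      ring
    · show _ = (((2 * (z : ℂ).re : ℝ) : ℂ) + Complex.I).im
      rw [Complex.add_im, Complex.ofReal_im, Complex.I_im, h2]
      ring
  · subst h
    simp only [zpow_zero, one_mul] at hre him
    left
    apply Subtype.ext
    apply Complex.ext hre
    linarith
  · have h1 : (2 : ℝ) ^ (1 : ℤ) ≤ 2 ^ n := zpow_le_zpow_right₀ (by norm_num) (by omega)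
    rw [zpow_one] at h1
    have h2 : (z : ℂ).im = 1 := by nlinarith
    have h3 : (w : ℂ).im = 0 := by nlinarith
    have h4 : (2 : ℝ) ^ n = 2 := by rw [h2, h3] at him; linarith
    right; right
    refine ⟨h3, ?_⟩
    apply Complex.ext
    · show _ = (((2 * (w : ℂ).re : ℝ) : ℂ) + Complex.I).re
      rw [Complex.add_re, Complex.ofReal_re, Complex.I_re, hre, h4]
      ring
    · show _ = (((2 * (w : ℂ).re : ℝ) : ℂ) + Complex.I).im
      rw [Complex.add_im, Complex.ofReal_im, Complex.I_im, h2]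
      ring

lemma isOpenMap_f : IsOpenMap f := by
  intro U hU
  have h1 : f '' U = E '' (Q ∩ g ⁻¹' U) := by
    ext w
    constructor
    · rintro ⟨p, hp, rfl⟩
      obtain ⟨ζ, hζ, rfl⟩ := g_surj p
      exact ⟨ζ, ⟨hζ, hp⟩, (f_g hζ).symm⟩
    · rintro ⟨ζ, ⟨hζ, hp⟩, rfl⟩
      exact ⟨g ζ, hp, f_g hζ⟩
  rw [h1]
  have h2 : IsOpen (Q ∩ g ⁻¹' U) := continuousOn_g.isOpen_inter_preimage isOpen_Q hU
  have hA : AnalyticOnNhd ℂ E Q := differentiableOn_E.analyticOnNhd isOpen_Q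
  rcases hA.is_constant_or_isOpen isPreconnected_Q with ⟨w, hw⟩ | h
  · exfalso
    have m1 : (1 + Complex.I : ℂ) ∈ Q := by constructor <;> simp
    have m2 : (1 + 2 * Complex.I : ℂ) ∈ Q := by constructor <;> simp
    obtain ⟨n, hn⟩ := E_eq_iff m2 m1 ((hw _ m2).trans (hw _ m1).symm)
    rw [zpow_cast] at hn
    have hre := congrArg Complex.re hn
    have him := congrArg Complex.im hn
    rw [Complex.re_ofReal_mul] at hre
    rw [Complex.im_ofReal_mul] at him
    simp at hre him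
    linarith
  · exact h _ inter_subset_left h2

lemma isOpenEmbedding_f : IsOpenEmbedding f :=
  IsOpenEmbedding.of_continuous_injective_isOpenMap continuous_f f_injective isOpenMap_f

/-- the image ring -/
def ring : Set ℂ := {w | Real.exp (-(c * (Real.pi / 2))) < ‖w‖ ∧ ‖w‖ < 1}

lemma arg_mem {ζ : ℂ} (hζ : ζ ∈ Q) : 0 < Complex.arg ζ ∧ Complex.arg ζ < Real.pi / 2 := by
  constructor
  · rcases lt_or_eq_of_le (Complex.arg_nonneg_iff.mpr hζ.2.le) with h | h
    · exact h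
    · have := (Complex.arg_eq_zero_iff.mp h.symm).2
      have h2 := hζ.2
      linarith
  · have := (Complex.abs_arg_lt_pi_div_two_iff (z := ζ)).mpr (Or.inl hζ.1)
    exact (abs_lt.mp this).2

lemma E_mem_ring {ζ : ℂ} (hζ : ζ ∈ Q) : E ζ ∈ ring := by
  obtain ⟨h1, h2⟩ := arg_mem hζ
  have hc := c_pos
  refine ⟨?_, ?_⟩
  · rw [norm_E, Real.exp_lt_exp]
    nlinarith
  · rw [norm_E, Real.exp_lt_one_iff]
    nlinarith

lemma exists_E {w : ℂ} (hw : w ∈ ring) : ∃ ζ ∈ Q, E ζ = w := by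
  obtain ⟨h1, h2⟩ := hw
  have hc := c_pos
  have hpi := Real.pi_pos
  have hw0 : w ≠ 0 := by
    intro h
    rw [h, norm_zero] at h1
    exact absurd h1 (not_lt.mpr (Real.exp_pos _).le)
  have hwn : 0 < ‖w‖ := norm_pos_iff.mpr hw0
  have h3 : Real.log ‖w‖ < 0 := Real.log_neg hwn h2
  have h4 : -(c * (Real.pi / 2)) < Real.log ‖w‖ := by
    rwa [Real.lt_log_iff_exp_lt hwn]
  set s : ℂ := Complex.log w / (Complex.I * c) with hs
  have hc0 : (c : ℂ) ≠ 0 := by exact_mod_cast hc.ne'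
  have hsim : s.im = -Real.log ‖w‖ / c := by
    have : s = (Complex.arg w / c : ℝ) + ((-Real.log ‖w‖ / c : ℝ) : ℂ) * Complex.I := by
      rw [hs]
      have hl : Complex.log w = Real.log ‖w‖ + Complex.arg w * Complex.I := by
        apply Complex.ext <;> simp [Complex.log_re, Complex.log_im]
      rw [hl]
      push_cast
      field_simp
      linear_combination ((Real.log ‖w‖ : ℝ) : ℂ) * Complex.I_sq
    rw [this]
    simp
  have hs0 : 0 < s.im := by
    rw [hsim]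
    exact div_pos (by linarith) hc
  have hs1 : s.im < Real.pi / 2 := by
    rw [hsim, div_lt_iff₀ hc]
    linarith
  refine ⟨Complex.exp s, ⟨?_, ?_⟩, ?_⟩
  · rw [Complex.exp_re]
    apply mul_pos (Real.exp_pos _)
    apply Real.cos_pos_of_mem_Ioo
    constructor <;> linarith
  · rw [Complex.exp_im]
    apply mul_pos (Real.exp_pos _)
    apply Real.sin_pos_of_pos_of_lt_pi hs0
    linarith
  · unfold E
    rw [Complex.log_exp (by linarith) (by linarith), hs]
    rw [mul_div_cancel₀ _ (mul_ne_zero Complex.I_ne_zero hc0)]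
    exact Complex.exp_log hw0

lemma range_f : range f = ring := by
  ext w
  constructor
  · rintro ⟨p, rfl⟩
    obtain ⟨ζ, hζ, rfl⟩ := g_surj p
    rw [f_g hζ]
    exact E_mem_ring hζ
  · intro hw
    obtain ⟨ζ, hζ, rfl⟩ := exists_E hw
    exact ⟨g ζ, f_g hζ⟩

instance : Nonempty dbl.Surf := ⟨dbl.proj ⟨_, dbl.base_mem⟩⟩

end Dbl

end Pool.Agent.ConfSewing
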