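import Pool.Agent.ConfSewing.Lift

set_option autoImplicit false

open Set Filter Topology MeasureTheory
open scoped ENNReal

namespace Pool.Agent.ConfSewing

/-! ### One-dimensional facts -/

lemma incr_le {f : ℝ → ℂ} {a b : ℝ} (hab : a ≤ b) (hc : ContinuousOn f (Icc a b))
    (hd : DifferentiableOn ℝ f (Ioo a b)) :
    ‖f b - f a‖ₑ ≤ ∫⁻ t in Ioo a b, ‖deriv f t‖ₑ := by
  by_cases hfin : ∫⁻ t in Ioo a b, ‖deriv f t‖ₑ = ⊤
  · rw [hfin]; exact le_top
  · have hmeas : AEStronglyMeasurable (deriv f) (volume.restrict (Ioo a b)) :=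
      aestronglyMeasurable_deriv _ _
    have hint : IntegrableOn (deriv f) (Ioo a b) :=
      ⟨hmeas, lt_top_iff_ne_top.mpr hfin⟩
    have hii : IntervalIntegrable (fun t => ‖deriv f t‖) volume a b := by
      rw [intervalIntegrable_iff_integrableOn_Ioo_of_le hab]
      exact hint.norm
    have h := norm_sub_le_integral_of_norm_deriv_le_of_le hab hc hd
      (B := fun t => ‖deriv f t‖) (Eventually.of_forall fun t _ => le_rfl) hii
    rw [intervalIntegral.integral_of_le hab, integral_Ioc_eq_integral_Ioo] at h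
    have h2 : ‖f b - f a‖ₑ = ENNReal.ofReal ‖f b - f a‖ := (ofReal_norm _).symm
    rw [h2]
    refine (ENNReal.ofReal_le_ofReal h).trans ?_
    rw [ofReal_integral_eq_lintegral_ofReal hint.norm
      (Eventually.of_forall fun t => norm_nonneg _)]
    apply le_of_eq
    apply lintegral_congr
    intro t
    exact ofReal_norm _

lemma lint_affine_pos {f : ℝ → ℝ≥0∞} {r : ℝ} (hr : 0 < r) (a : ℝ) :
    ∫⁻ v in Ioo (0 : ℝ) 1, f (a + r * v) =
      ENNReal.ofReal r⁻¹ * ∫⁻ x in Ioo a (a + r), f x := by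
  have himg : (fun v : ℝ => a + r * v) '' Ioo 0 1 = Ioo a (a + r) := by
    ext x
    simp only [mem_image, mem_Ioo]
    constructor
    · rintro ⟨v, ⟨h1, h2⟩, rfl⟩
      constructor <;> nlinarith
    · rintro ⟨h1, h2⟩
      refine ⟨(x - a) / r, ⟨?_, ?_⟩, ?_⟩
      · apply div_pos (by linarith) hr
      · rw [div_lt_one hr]; linarith
      · field_simp; ring
  have h := lintegral_image_eq_lintegral_abs_deriv_mul (s := Ioo (0 : ℝ) 1)
    (f := fun v : ℝ => a + r * v) (f' := fun _ => r) measurableSet_Ioo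
    (fun v _ => by
      have : HasDerivAt (fun v : ℝ => a + r * v) (r * 1) v :=
        ((hasDerivAt_id v).const_mul r).const_add a
      rw [mul_one] at this
      exact this.hasDerivWithinAt)
    (fun v _ w _ hvw => by
      have : r * v = r * w := by simpa using hvw
      exact mul_left_cancel₀ hr.ne' this) f
  rw [himg] at h
  rw [h, lintegral_const_mul' _ _ ENNReal.ofReal_ne_top, ← mul_assoc, abs_of_pos hr,
    ← ENNReal.ofReal_mul (by positivity), inv_mul_cancel₀ hr.ne']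
  simp

lemma lint_affine_neg {f : ℝ → ℝ≥0∞} {r : ℝ} (hr : 0 < r) (a : ℝ) :
    ∫⁻ v in Ioo (0 : ℝ) 1, f (a - r * v) =
      ENNReal.ofReal r⁻¹ * ∫⁻ x in Ioo (a - r) a, f x := by
  have himg : (fun v : ℝ => a - r * v) '' Ioo 0 1 = Ioo (a - r) a := by
    ext x
    simp only [mem_image, mem_Ioo]
    constructor
    · rintro ⟨v, ⟨h1, h2⟩, rfl⟩
      constructor <;> nlinarith
    · rintro ⟨h1, h2⟩
      refine ⟨(a - x) / r, ⟨?_, ?_⟩, ?_⟩
      · apply div_pos (by linarith) hr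
      · rw [div_lt_one hr]; linarith
      · field_simp; ring
  have h := lintegral_image_eq_lintegral_abs_deriv_mul (s := Ioo (0 : ℝ) 1)
    (f := fun v : ℝ => a - r * v) (f' := fun _ => -r) measurableSet_Ioo
    (fun v _ => by
      have : HasDerivAt (fun v : ℝ => a - r * v) (-(r * 1)) v :=
        ((hasDerivAt_id v).const_mul r).const_sub a
      rw [mul_one] at this
      exact this.hasDerivWithinAt)
    (fun v _ w _ hvw => by
      have : r * v = r * w := by simpa using hvw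
      exact mul_left_cancel₀ hr.ne' this) f
  rw [himg] at h
  rw [h, lintegral_const_mul' _ _ ENNReal.ofReal_ne_top, ← mul_assoc, abs_neg, abs_of_pos hr,
    ← ENNReal.ofReal_mul (by positivity), inv_mul_cancel₀ hr.ne']
  simp

lemma lin_bound (a : ℝ≥0∞) {l : ℝ} (hl : 0 < l) :
    a ≤ ENNReal.ofReal (l / 2) * a ^ 2 + ENNReal.ofReal (1 / (2 * l)) := by
  induction a with
  | top =>
    have : ENNReal.ofReal (l / 2) * (⊤ : ℝ≥0∞) ^ 2 = ⊤ := by
      rw [ENNReal.top_pow two_ne_zero, ENNReal.mul_top]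
      simpa using hl
    rw [this]; simp
  | coe a =>
    have h1 : (a : ℝ≥0∞) = ENNReal.ofReal (a : ℝ) := by simp
    rw [h1, ← ENNReal.ofReal_pow a.coe_nonneg, ← ENNReal.ofReal_mul (by positivity),
      ← ENNReal.ofReal_add (by positivity) (by positivity)]
    apply ENNReal.ofReal_le_ofReal
    have h2 : 0 ≤ (l * a - 1) ^ 2 := sq_nonneg _
    have h3 : l / 2 * (a : ℝ) ^ 2 + 1 / (2 * l) - a = (l * a - 1) ^ 2 / (2 * l) := by
      field_simp; ring
    have h4 : 0 ≤ (l * a - 1) ^ 2 / (2 * l) := by positivity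
    linarith

lemma rect_lin {k : ℝ × ℝ → ℝ≥0∞} (x₁ x₂ y₁ y₂ : ℝ) {l : ℝ} (hl : 0 < l) :
    ∫⁻ p in Ioo x₁ x₂ ×ˢ Ioo y₁ y₂, k p ≤
      ENNReal.ofReal (l / 2) * (∫⁻ p in Ioo x₁ x₂ ×ˢ Ioo y₁ y₂, k p ^ 2) +
        ENNReal.ofReal (1 / (2 * l)) * (ENNReal.ofReal (x₂ - x₁) * ENNReal.ofReal (y₂ - y₁)) := by
  calc ∫⁻ p in Ioo x₁ x₂ ×ˢ Ioo y₁ y₂, k p
      ≤ ∫⁻ p in Ioo x₁ x₂ ×ˢ Ioo y₁ y₂,
        (ENNReal.ofReal (l / 2) * k p ^ 2 + ENNReal.ofReal (1 / (2 * l))) :=
        lintegral_mono fun p => lin_bound (k p) hl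
    _ = _ := by
        rw [lintegral_add_right _ measurable_const, lintegral_const_mul' _ _ ENNReal.ofReal_ne_top,
          setLIntegral_const, Measure.volume_eq_prod, Measure.prod_prod, Real.volume_Ioo,
          Real.volume_Ioo]

/-- abstract data: a function on a half-plane strip with a density controlling increments -/
structure Ctrl (K : ℝ → ℝ → ℂ) (k : ℝ × ℝ → ℝ≥0∞) (M : ℝ) : Prop where
  meas : Measurable k
  cont : Continuous fun p : ℝ × ℝ => K p.1 p.2
  vert : ∀ x t₁ t₂, M < x → 0 ≤ t₁ → t₁ ≤ t₂ → t₂ ≤ 1 →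
    ‖K x t₂ - K x t₁‖ₑ ≤ ∫⁻ t in Ioo t₁ t₂, k (x, t)
  horiz : ∀ t x₁ x₂, 0 < t → t < 1 → M < x₁ → x₁ ≤ x₂ →
    ‖K x₂ t - K x₁ t‖ₑ ≤ ∫⁻ x in Ioo x₁ x₂, k (x, t)

/-- the square annulus around `(c, 0)` -/
def ann (c r : ℝ) : Set (ℝ × ℝ) :=
  {p | |p.1 - c| < 2 * r ∧ 0 < p.2 ∧ p.2 < 2 * r ∧ (r < |p.1 - c| ∨ r < p.2)}

lemma measurableSet_ann (c r : ℝ) : MeasurableSet (ann c r) := by
  have h1 : Continuous fun p : ℝ × ℝ => |p.1 - c| := by fun_prop
  have : IsOpen (ann c r) := by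
    apply (isOpen_lt h1 continuous_const).inter
    apply (isOpen_lt continuous_const continuous_snd).inter
    apply (isOpen_lt continuous_snd continuous_const).inter
    exact (isOpen_lt continuous_const h1).union (isOpen_lt continuous_const continuous_snd)
  exact this.measurableSet

lemma arc_pointwise {K : ℝ → ℝ → ℂ} {k : ℝ × ℝ → ℝ≥0∞} {M : ℝ} (hK : Ctrl K k M) {c r s : ℝ}
    (hr : 0 < r) (hM : M < c - 2 * r) (hr1 : 2 * r ≤ 1) (hs1 : r < s) (hs2 : s < 2 * r) :
    ‖K (c + s) 0 - K (c - s) 0‖ₑ ≤ (∫⁻ t in Ioo 0 (2 * r), k (c - s, t)) +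
      (∫⁻ x in Ioo (c - 2 * r) (c + 2 * r), k (x, s)) +
      (∫⁻ t in Ioo 0 (2 * r), k (c + s, t)) := by
  have hs0 : 0 < s := hr.trans hs1
  have h1 := hK.vert (c - s) 0 s (by linarith) le_rfl hs0.le (by linarith)
  have h2 := hK.horiz s (c - s) (c + s) hs0 (by linarith) (by linarith) (by linarith)
  have h3 := hK.vert (c + s) 0 s (by linarith) le_rfl hs0.le (by linarith)
  have e : K (c + s) 0 - K (c - s) 0 = (K (c - s) s - K (c - s) 0) +
      (K (c + s) s - K (c - s) s) - (K (c + s) s - K (c + s) 0) := by ring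
  rw [e]
  calc ‖(K (c - s) s - K (c - s) 0) + (K (c + s) s - K (c - s) s) -
        (K (c + s) s - K (c + s) 0)‖ₑ
      ≤ ‖(K (c - s) s - K (c - s) 0) + (K (c + s) s - K (c - s) s)‖ₑ +
        ‖K (c + s) s - K (c + s) 0‖ₑ := enorm_sub_le
    _ ≤ (‖K (c - s) s - K (c - s) 0‖ₑ + ‖K (c + s) s - K (c - s) s‖ₑ) +
        ‖K (c + s) s - K (c + s) 0‖ₑ := by
        gcongr
        exact enorm_add_le _ _
    _ ≤ _ := by
        gcongr
        · exact h1.trans (lintegral_mono_set (Ioo_subset_Ioo_right hs2.le))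
        · exact h2.trans (lintegral_mono_set (Ioo_subset_Ioo (by linarith) (by linarith)))
        · exact h3.trans (lintegral_mono_set (Ioo_subset_Ioo_right hs2.le))

lemma rect_fst {k : ℝ × ℝ → ℝ≥0∞} (hk : Measurable k) (A B : Set ℝ) :
    ∫⁻ x in A, ∫⁻ t in B, k (x, t) = ∫⁻ p in A ×ˢ B, k p := by
  rw [Measure.volume_eq_prod, ← Measure.prod_restrict, lintegral_prod _ hk.aemeasurable]

lemma rect_snd {k : ℝ × ℝ → ℝ≥0∞} (hk : Measurable k) (A B : Set ℝ) :
    ∫⁻ t in B, ∫⁻ x in A, k (x, t) = ∫⁻ p in A ×ˢ B, k p := by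
  rw [Measure.volume_eq_prod, ← Measure.prod_restrict, lintegral_prod_symm _ hk.aemeasurable]

lemma meas_vert {k : ℝ × ℝ → ℝ≥0∞} (hk : Measurable k) (B : Set ℝ) :
    Measurable fun x => ∫⁻ t in B, k (x, t) :=
  Measurable.lintegral_prod_right' hk

lemma meas_horiz {k : ℝ × ℝ → ℝ≥0∞} (hk : Measurable k) (A : Set ℝ) :
    Measurable fun t => ∫⁻ x in A, k (x, t) :=
  Measurable.lintegral_prod_left' hk

/-- three rectangles -/
lemma three_rect {k : ℝ × ℝ → ℝ≥0∞} {c r L : ℝ} (hr : 0 < r) (hL : 0 < L) :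
    ENNReal.ofReal r⁻¹ * ((∫⁻ p in Ioo (c - 2 * r) (c - r) ×ˢ Ioo 0 (2 * r), k p) +
      (∫⁻ p in Ioo (c - 2 * r) (c + 2 * r) ×ˢ Ioo r (2 * r), k p) +
      (∫⁻ p in Ioo (c + r) (c + 2 * r) ×ˢ Ioo 0 (2 * r), k p)) ≤
    ENNReal.ofReal (3 * L / 2) * (∫⁻ p in ann c r, k p ^ 2) + ENNReal.ofReal (4 / L) := by
  have hrL : 0 < r * L := mul_pos hr hL
  have h1 := rect_lin (k := k) (c - 2 * r) (c - r) 0 (2 * r) hrL
  have h2 := rect_lin (k := k) (c - 2 * r) (c + 2 * r) r (2 * r) hrL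
  have h3 := rect_lin (k := k) (c + r) (c + 2 * r) 0 (2 * r) hrL
  have s1 : Ioo (c - 2 * r) (c - r) ×ˢ Ioo 0 (2 * r) ⊆ ann c r := by
    rintro ⟨x, y⟩ ⟨⟨hx1, hx2⟩, hy1, hy2⟩
    simp only at hx1 hx2 hy1 hy2
    refine ⟨?_, hy1, hy2, Or.inl ?_⟩
    · simp only; rw [abs_lt]; constructor <;> linarith
    · simp only; rw [lt_abs]; right; linarith
  have s2 : Ioo (c - 2 * r) (c + 2 * r) ×ˢ Ioo r (2 * r) ⊆ ann c r := by
    rintro ⟨x, y⟩ ⟨⟨hx1, hx2⟩, hy1, hy2⟩
    simp only at hx1 hx2 hy1 hy2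
    refine ⟨?_, ?_, hy2, Or.inr hy1⟩
    · simp only; rw [abs_lt]; constructor <;> linarith
    · simp only; linarith
  have s3 : Ioo (c + r) (c + 2 * r) ×ˢ Ioo 0 (2 * r) ⊆ ann c r := by
    rintro ⟨x, y⟩ ⟨⟨hx1, hx2⟩, hy1, hy2⟩
    simp only at hx1 hx2 hy1 hy2
    refine ⟨?_, hy1, hy2, Or.inl ?_⟩
    · simp only; rw [abs_lt]; constructor <;> linarith
    · simp only; rw [lt_abs]; left; linarith
  set A := ∫⁻ p in ann c r, k p ^ 2 with hA
  have h1' := h1.trans (add_le_add_left (mul_le_mul_right (lintegral_mono_set s1)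
    (ENNReal.ofReal (r * L / 2))) _)
  have h2' := h2.trans (add_le_add_left (mul_le_mul_right (lintegral_mono_set s2)
    (ENNReal.ofReal (r * L / 2))) _)
  have h3' := h3.trans (add_le_add_left (mul_le_mul_right (lintegral_mono_set s3)
    (ENNReal.ofReal (r * L / 2))) _)
  rw [← hA] at h1' h2' h3'
  calc _ ≤ ENNReal.ofReal r⁻¹ * ((ENNReal.ofReal (r * L / 2) * A + ENNReal.ofReal (1 / (2 * (r * L))) *
          (ENNReal.ofReal (c - r - (c - 2 * r)) * ENNReal.ofReal (2 * r - 0))) +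
        (ENNReal.ofReal (r * L / 2) * A + ENNReal.ofReal (1 / (2 * (r * L))) *
          (ENNReal.ofReal (c + 2 * r - (c - 2 * r)) * ENNReal.ofReal (2 * r - r))) +
        (ENNReal.ofReal (r * L / 2) * A + ENNReal.ofReal (1 / (2 * (r * L))) *
          (ENNReal.ofReal (c + 2 * r - (c + r)) * ENNReal.ofReal (2 * r - 0)))) := by
        gcongr
    _ = _ := by
        have e1 : c - r - (c - 2 * r) = r := by ring
        have e2 : c + 2 * r - (c - 2 * r) = 4 * r := by ring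
        have e3 : c + 2 * r - (c + r) = r := by ring
        have e4 : 2 * r - 0 = 2 * r := by ring
        have e5 : 2 * r - r = r := by ring
        rw [e1, e2, e3, e4, e5]
        rw [← ENNReal.ofReal_mul hr.le, ← ENNReal.ofReal_mul (by positivity : (0:ℝ) ≤ 4 * r),
          ← ENNReal.ofReal_mul (by positivity : (0:ℝ) ≤ 1 / (2 * (r * L))),
          ← ENNReal.ofReal_mul (by positivity : (0:ℝ) ≤ 1 / (2 * (r * L)))]
        have key : ∀ (a b d d' : ℝ), 0 ≤ a → 0 ≤ b → 0 ≤ d → 0 ≤ d' →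
            ENNReal.ofReal a * ((ENNReal.ofReal b * A + ENNReal.ofReal d) +
              (ENNReal.ofReal b * A + ENNReal.ofReal d') +
              (ENNReal.ofReal b * A + ENNReal.ofReal d)) =
            ENNReal.ofReal (a * (3 * b)) * A + ENNReal.ofReal (a * (2 * d + d')) := by
          intro a b d d' ha hb hd hd'
          rw [ENNReal.ofReal_mul ha, ENNReal.ofReal_mul ha, ENNReal.ofReal_mul (by norm_num),
            ENNReal.ofReal_add (by positivity) hd', ENNReal.ofReal_mul (by norm_num : (0:ℝ) ≤ 2)]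
          have h3 : ENNReal.ofReal 3 = 3 := by simp
          have h2 : ENNReal.ofReal 2 = 2 := by simp
          rw [h3, h2]
          ring
        rw [key _ _ _ _ (by positivity) (by positivity) (by positivity) (by positivity)]
        congr 1
        · congr 2; field_simp
        · congr 1; field_simp; ring

/-- averaged arc estimate, radius `r (2 - v)` -/
lemma arc_avg_two_sub {K : ℝ → ℝ → ℂ} {k : ℝ × ℝ → ℝ≥0∞} {M : ℝ} (hK : Ctrl K k M) {c r L : ℝ}
    (hr : 0 < r) (hM : M < c - 2 * r) (hr1 : 2 * r ≤ 1) (hL : 0 < L) :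
    ∫⁻ v in Ioo (0 : ℝ) 1, ‖K (c + r * (2 - v)) 0 - K (c - r * (2 - v)) 0‖ₑ ≤
      ENNReal.ofReal (3 * L / 2) * (∫⁻ p in ann c r, k p ^ 2) + ENNReal.ofReal (4 / L) := by
  refine le_trans ?_ (three_rect hr hL)
  calc ∫⁻ v in Ioo (0 : ℝ) 1, ‖K (c + r * (2 - v)) 0 - K (c - r * (2 - v)) 0‖ₑ
      ≤ ∫⁻ v in Ioo (0 : ℝ) 1, ((∫⁻ t in Ioo 0 (2 * r), k ((c - 2 * r) + r * v, t)) +
        (∫⁻ x in Ioo (c - 2 * r) (c + 2 * r), k (x, 2 * r - r * v)) +
        (∫⁻ t in Ioo 0 (2 * r), k ((c + 2 * r) - r * v, t))) := by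
        apply setLIntegral_mono' measurableSet_Ioo
        intro v hv
        have h := arc_pointwise hK (s := r * (2 - v)) hr hM hr1 (by nlinarith [hv.2])
          (by nlinarith [hv.1])
        have e1 : c - r * (2 - v) = (c - 2 * r) + r * v := by ring
        have e2 : r * (2 - v) = 2 * r - r * v := by ring
        have e3 : c + r * (2 - v) = (c + 2 * r) - r * v := by ring
        rw [e1, e3, e2] at h
        rw [e1, e3]
        exact h
    _ = _ := by
        have m1 := meas_vert hK.meas (Ioo 0 (2 * r))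
        have m2 := meas_horiz hK.meas (Ioo (c - 2 * r) (c + 2 * r))
        rw [lintegral_add_left, lintegral_add_left]
        · rw [lint_affine_pos (f := fun x => ∫⁻ t in Ioo 0 (2 * r), k (x, t)) hr,
            lint_affine_neg (f := fun t => ∫⁻ x in Ioo (c - 2 * r) (c + 2 * r), k (x, t)) hr,
            lint_affine_neg (f := fun x => ∫⁻ t in Ioo 0 (2 * r), k (x, t)) hr]
          have e1 : c - 2 * r + r = c - r := by ring
          have e2 : 2 * r - r = r := by ring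
          have e3 : c + 2 * r - r = c + r := by ring
          rw [e1, e2, e3, rect_fst hK.meas, rect_snd hK.meas, rect_fst hK.meas, mul_add, mul_add]
        · exact m1.comp (by fun_prop)
        · exact (m1.comp (by fun_prop)).add (m2.comp (by fun_prop))

/-- averaged arc estimate, radius `r (1 + v)` -/
lemma arc_avg_one_add {K : ℝ → ℝ → ℂ} {k : ℝ × ℝ → ℝ≥0∞} {M : ℝ} (hK : Ctrl K k M) {c r L : ℝ}
    (hr : 0 < r) (hM : M < c - 2 * r) (hr1 : 2 * r ≤ 1) (hL : 0 < L) :
    ∫⁻ v in Ioo (0 : ℝ) 1, ‖K (c + r * (1 + v)) 0 - K (c - r * (1 + v)) 0‖ₑ ≤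
      ENNReal.ofReal (3 * L / 2) * (∫⁻ p in ann c r, k p ^ 2) + ENNReal.ofReal (4 / L) := by
  refine le_trans ?_ (three_rect hr hL)
  calc ∫⁻ v in Ioo (0 : ℝ) 1, ‖K (c + r * (1 + v)) 0 - K (c - r * (1 + v)) 0‖ₑ
      ≤ ∫⁻ v in Ioo (0 : ℝ) 1, ((∫⁻ t in Ioo 0 (2 * r), k ((c - r) - r * v, t)) +
        (∫⁻ x in Ioo (c - 2 * r) (c + 2 * r), k (x, r + r * v)) +
        (∫⁻ t in Ioo 0 (2 * r), k ((c + r) + r * v, t))) := by
        apply setLIntegral_mono' measurableSet_Ioo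
        intro v hv
        have h := arc_pointwise hK (s := r * (1 + v)) hr hM hr1 (by nlinarith [hv.1])
          (by nlinarith [hv.2])
        have e1 : c - r * (1 + v) = (c - r) - r * v := by ring
        have e2 : r * (1 + v) = r + r * v := by ring
        have e3 : c + r * (1 + v) = (c + r) + r * v := by ring
        rw [e1, e3, e2] at h
        rw [e1, e3]
        exact h
    _ = _ := by
        have m1 := meas_vert hK.meas (Ioo 0 (2 * r))
        have m2 := meas_horiz hK.meas (Ioo (c - 2 * r) (c + 2 * r))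
        rw [lintegral_add_left, lintegral_add_left]
        · rw [lint_affine_neg (f := fun x => ∫⁻ t in Ioo 0 (2 * r), k (x, t)) hr,
            lint_affine_pos (f := fun t => ∫⁻ x in Ioo (c - 2 * r) (c + 2 * r), k (x, t)) hr,
            lint_affine_pos (f := fun x => ∫⁻ t in Ioo 0 (2 * r), k (x, t)) hr]
          have e1 : c - r - r = c - 2 * r := by ring
          have e2 : r + r = 2 * r := by ring
          have e3 : c + r + r = c + 2 * r := by ring
          rw [e1, e2, e3, rect_fst hK.meas, rect_snd hK.meas, rect_fst hK.meas, mul_add, mul_add]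
        · exact m1.comp (by fun_prop)
        · exact (m1.comp (by fun_prop)).add (m2.comp (by fun_prop))

end Pool.Agent.ConfSewing
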