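import Pool.Agent.ConfSewing.Basic

set_option autoImplicit false

open Set Filter Topology MeasureTheory
open scoped Manifold ContDiff ENNReal

namespace Pool.Agent.ConfSewing

lemma det_complex (a : ℂ) :
    ((ContinuousLinearMap.toSpanSingleton ℂ a : ℂ →L[ℂ] ℂ).restrictScalars ℝ).det = ‖a‖ ^ 2 := by
  rw [ContinuousLinearMap.det]
  have : (((ContinuousLinearMap.toSpanSingleton ℂ a : ℂ →L[ℂ] ℂ).restrictScalars ℝ : ℂ →L[ℝ] ℂ) :
      ℂ →ₗ[ℝ] ℂ) = ((ContinuousLinearMap.toSpanSingleton ℂ a : ℂ →L[ℂ] ℂ) :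
      ℂ →ₗ[ℂ] ℂ).restrictScalars ℝ := rfl
  rw [this, LinearMap.det_restrictScalars, Algebra.norm_complex_apply, Complex.normSq_eq_norm_sq]
  congr 2
  have h2 := ContinuousLinearMap.det_toSpanSingleton (𝕜 := ℂ) a
  rw [ContinuousLinearMap.det] at h2
  exact h2

lemma area_bound {V : Set ℂ} (hV : IsOpen V) {F G : ℂ → ℂ} {ρ : ℝ}
    (hF : DifferentiableOn ℂ F V) (hinj : InjOn F V) (hG : DifferentiableOn ℂ G V)
    (hFG : ∀ z ∈ V, Complex.exp (G z) = F z) (h1 : ∀ z ∈ V, 1 < ‖F z‖)
    (h2 : ∀ z ∈ V, ‖F z‖ < ρ) :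
    ∫⁻ z in V, ‖deriv G z‖ₑ ^ 2 < ⊤ := by
  have hle : ∫⁻ z in V, ‖deriv G z‖ₑ ^ 2 ≤ ∫⁻ z in V, ‖deriv F z‖ₑ ^ 2 := by
    apply setLIntegral_mono' hV.measurableSet
    intro z hz
    have hd : deriv F z = F z * deriv G z := by
      have h3 : F =ᶠ[𝓝 z] fun z => Complex.exp (G z) := by
        filter_upwards [hV.mem_nhds hz] with w hw using (hFG w hw).symm
      rw [h3.deriv_eq]
      have hGd := (hG.differentiableAt (hV.mem_nhds hz)).hasDerivAt
      rw [hGd.cexp.deriv, hFG z hz]
    rw [hd, enorm_mul]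
    have : (1 : ℝ≥0∞) ≤ ‖F z‖ₑ := by
      rw [← ofReal_norm]
      simpa using ENNReal.ofReal_le_ofReal (h1 z hz).le
    gcongr
    calc ‖deriv G z‖ₑ = 1 * ‖deriv G z‖ₑ := (one_mul _).symm
      _ ≤ ‖F z‖ₑ * ‖deriv G z‖ₑ := by gcongr
  refine lt_of_le_of_lt hle ?_
  have harea : ∫⁻ _ in F '' V, (1 : ℝ≥0∞) = ∫⁻ z in V, ‖deriv F z‖ₑ ^ 2 := by
    rw [lintegral_image_eq_lintegral_abs_det_fderiv_mul volume hV.measurableSet
      (f' := fun z => (ContinuousLinearMap.toSpanSingleton ℂ (deriv F z) : ℂ →L[ℂ] ℂ).restrictScalars ℝ)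
      (fun z hz => ?_) hinj (fun _ => 1)]
    · apply setLIntegral_congr_fun hV.measurableSet
      intro z _
      simp only [mul_one, det_complex]
      rw [abs_of_nonneg (by positivity), ENNReal.ofReal_pow (norm_nonneg _),
        ofReal_norm]
    · have h3 := (hF.differentiableAt (hV.mem_nhds hz)).hasDerivAt.hasFDerivAt
      exact (h3.restrictScalars ℝ).hasFDerivWithinAt
  rw [← harea]
  calc ∫⁻ _ in F '' V, (1 : ℝ≥0∞) = volume (F '' V) := by simp
    _ ≤ volume (Metric.ball (0 : ℂ) ρ) := by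
        apply measure_mono
        rintro _ ⟨z, hz, rfl⟩
        simpa using h2 z hz
    _ < ⊤ := measure_ball_lt_top

lemma exists_int_const {S : Set ℝ} (hS : IsPreconnected S) {f : ℝ → ℂ} (hf : ContinuousOn f S)
    {x₀ : ℝ} (hx₀ : x₀ ∈ S)
    (h : ∀ x ∈ S, ∃ n : ℤ, f x = n * (2 * Real.pi * Complex.I)) :
    ∃ n : ℤ, ∀ x ∈ S, f x = n * (2 * Real.pi * Complex.I) := by
  choose! m hm using h
  have hmc : ContinuousOn m S := by
    rw [Int.isClosedEmbedding_coe_real.isInducing.continuousOn_iff]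
    have h1 : ContinuousOn (fun θ => ((f θ).im) / (2 * Real.pi)) S :=
      (Complex.continuous_im.comp_continuousOn hf).div_const _
    refine h1.congr (fun x hx => ?_)
    have hpi : (Real.pi : ℝ) ≠ 0 := Real.pi_ne_zero
    simp [hm x hx]
  refine ⟨m x₀, fun x hx => ?_⟩
  rw [← hS.constant hmc hx hx₀]
  exact hm x hx

namespace Sewing

variable (α : Sewing)

lemma closedS_subset {M : ℝ} (hM : α.start < M) : closedS M ⊆ α.carrier := by
  rintro z ⟨h1, h2, h3⟩
  exact ⟨⟨lt_of_le_of_lt α.start_nonneg (hM.trans_le h1), h2, h3⟩, fun _ => hM.trans_le h1⟩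

lemma heightFun_le (hx : ∀ x : ℝ, 0 < x → x ≤ α.toFun x) {z : ℂ} (hz : z ∈ α.carrier) :
    z.re ≤ α.heightFun z ∧ α.heightFun z ≤ α.toFun z.re := by
  have h1 := hx z.re hz.1.1
  have h2 := hz.1.2.1
  have h3 := hz.1.2.2
  unfold heightFun
  constructor <;> nlinarith

/-- the topological heart: the period of the lifted logarithm is not zero -/
lemma period_ne_zero (hx : ∀ x : ℝ, 0 < x → x ≤ α.toFun x) {M : ℝ} (hM : α.start < M)
    {U : Set α.Surf} {ρ : ℝ} (hρ : 1 < ρ) (e : OpenPartialHomeomorph α.Surf ℂ)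
    (hU : ∀ z ∈ closedS M, α.projExt z ∈ U) (hs : e.source = U)
    (ht : e.target = {w : ℂ | 1 < ‖w‖ ∧ ‖w‖ < ρ}) {G : ℂ → ℂ} (hG : Continuous G)
    (hexp : ∀ z ∈ closedS M, Complex.exp (G z) = e (α.projExt z))
    (hglue : ∀ x : ℝ, M ≤ x → G (α.toFun x + Complex.I) = G x) : False := by
  classical
  have hsub := α.closedS_subset hM
  have hM0 : 0 < M := lt_of_le_of_lt α.start_nonneg hM
  -- `N ≥ t₀` implies that representatives lie in `closedS M`
  set t₀ := α.toFun M with ht₀
  have hrep : ∀ z ∈ α.carrier, t₀ ≤ α.heightFun z → z ∈ closedS M := by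
    intro z hz h
    refine ⟨?_, hz.1.2.1, hz.1.2.2⟩
    by_contra hlt
    push Not at hlt
    have h1 := α.strictMonoOn (show z.re ∈ Ioi 0 from hz.1.1) (show M ∈ Ioi 0 from hM0) hlt
    have h2 := (α.heightFun_le hx hz).2
    linarith
  -- the descended function
  let rep : α.Surf → ℂ := fun p => ((Function.surjInv α.proj_surjective p : α.carrier) : ℂ)
  have hrepc : ∀ p, rep p ∈ α.carrier := fun p => (Function.surjInv α.proj_surjective p).2
  have hrepp : ∀ p, α.projExt (rep p) = p := by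
    intro p
    rw [α.projExt_of_mem (hrepc p)]
    exact Function.surjInv_eq α.proj_surjective p
  let g : α.Surf → ℂ := fun p => G (rep p)
  have hg : ∀ z ∈ closedS M, g (α.projExt z) = G z ∨ ¬ t₀ ≤ α.heightFun z := by
    intro z hz
    by_cases hN : t₀ ≤ α.heightFun z
    · left
      have hzc := hsub hz
      have h1 := hrepp (α.projExt z)
      have h2 := hrepc (α.projExt z)
      have h3 : t₀ ≤ α.heightFun (rep (α.projExt z)) := by
        rw [← α.height_projExt h2, h1, α.height_projExt hzc]; exact hN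
      have h4 := hrep _ h2 h3
      rcases (α.projExt_eq_iff h2 hzc).mp h1 with h | ⟨h5, h6⟩ | ⟨h5, h6⟩
      · show G _ = G z; rw [h]
      · have e1 : G z = G (rep (α.projExt z)).re := by
          have := congrArg G h6
          rw [hglue _ h4.1] at this
          exact this
        have e2 : (((rep (α.projExt z)).re : ℝ) : ℂ) = rep (α.projExt z) :=
          Complex.ext (by simp) (by simp [h5])
        show G (rep (α.projExt z)) = G z
        rw [e1, e2]
      · have e1 : G (rep (α.projExt z)) = G z.re := by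
          have := congrArg G h6
          rw [hglue _ hz.1] at this
          exact this
        have e2 : ((z.re : ℝ) : ℂ) = z := Complex.ext (by simp) (by simp [h5])
        show G (rep (α.projExt z)) = G z
        rw [e1, e2]
    · right; exact hN
  have hg' : ∀ z ∈ α.carrier, t₀ ≤ α.heightFun z → g (α.projExt z) = G z := by
    intro z hz hN
    exact (hg z (hrep z hz hN)).resolve_right (not_not.mpr hN)
  -- continuity of `g`
  have hNc := α.continuous_height
  have hgc : ContinuousOn g {p | t₀ < α.height p} := by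
    have hopen : IsOpen {p | t₀ < α.height p} := isOpen_lt continuous_const hNc
    rw [continuousOn_open_iff hopen]
    intro V hV
    rw [← α.isQuotientMap_proj.isOpen_preimage]
    have : α.proj ⁻¹' ({p | t₀ < α.height p} ∩ g ⁻¹' V) =
        {z : α.carrier | t₀ < α.height (α.proj z)} ∩ (fun z : α.carrier => G z) ⁻¹' V := by
      ext z
      simp only [preimage_inter, mem_inter_iff, mem_preimage, mem_ofPred_eq]
      constructor
      · rintro ⟨h1, h2⟩
        refine ⟨h1, ?_⟩
        rw [← α.projExt_coe z] at h1 h2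
        rw [α.height_projExt z.2] at h1
        rwa [hg' z z.2 h1.le] at h2
      · rintro ⟨h1, h2⟩
        refine ⟨h1, ?_⟩
        rw [← α.projExt_coe z] at h1 ⊢
        rw [α.height_projExt z.2] at h1
        rwa [hg' z z.2 h1.le]
    rw [this]
    exact (isOpen_lt continuous_const (hNc.comp α.continuous_proj)).inter
      (hV.preimage (hG.comp continuous_subtype_val))
  -- sets
  set t₁ := t₀ + 1 with ht₁
  set E : Set α.Surf := {p | t₁ < α.height p} with hE
  set C : Set α.Surf := {p | α.height p = t₁} with hC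
  set D : Set α.Surf := {p | α.height p < t₁} with hD
  have hEo : IsOpen E := isOpen_lt continuous_const hNc
  have hDo : IsOpen D := isOpen_lt hNc continuous_const
  have hinU : ∀ p, t₀ ≤ α.height p → p ∈ U := by
    intro p hp
    have h1 := hrepp p
    rw [← h1]
    apply hU
    apply hrep _ (hrepc p)
    rw [← α.height_projExt (hrepc p), h1]
    exact hp
  -- `C` is compact
  have hCc : IsCompact C := by
    have h1 : C ⊆ α.projExt '' {z : ℂ | z ∈ closedS M ∧ z.re ≤ t₁ ∧ α.height (α.projExt z) = t₁} := by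
      intro p hp
      have h2 := hrepp p
      have h3 := hrepc p
      refine ⟨rep p, ⟨?_, ?_, ?_⟩, h2⟩
      · apply hrep _ h3
        rw [← α.height_projExt h3, h2, show α.height p = t₁ from hp]
        linarith
      · have h4 := (α.heightFun_le hx h3).1
        rw [← α.height_projExt h3, h2, show α.height p = t₁ from hp] at h4
        exact h4
      · rw [h2]; exact hp
    have h2 : α.projExt '' {z : ℂ | z ∈ closedS M ∧ z.re ≤ t₁ ∧ α.height (α.projExt z) = t₁} ⊆ C := by
      rintro _ ⟨z, ⟨_, _, hz⟩, rfl⟩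
      exact hz
    rw [h1.antisymm h2]
    apply IsCompact.image_of_continuousOn
    · -- the set is compact: closed in a rectangle
      have hrect : IsCompact ((Icc M t₁) ×ℂ (Icc (0 : ℝ) 1)) :=
        IsCompact.reProdIm isCompact_Icc isCompact_Icc
      have hsubrect : (Icc M t₁) ×ℂ (Icc (0 : ℝ) 1) ⊆ α.carrier := by
        intro z hz
        rw [Complex.mem_reProdIm] at hz
        exact hsub ⟨hz.1.1, hz.2.1, hz.2.2⟩
      have heq : {z : ℂ | z ∈ closedS M ∧ z.re ≤ t₁ ∧ α.height (α.projExt z) = t₁} =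
          ((Icc M t₁) ×ℂ (Icc (0 : ℝ) 1)) ∩ (fun z => α.height (α.projExt z)) ⁻¹' {t₁} := by
        ext z
        simp only [mem_ofPred_eq, closedS, mem_inter_iff, Complex.mem_reProdIm, mem_Icc,
          mem_preimage, mem_singleton_iff]
        tauto
      rw [heq]
      have hcont : ContinuousOn (fun z => α.height (α.projExt z)) ((Icc M t₁) ×ℂ (Icc (0 : ℝ) 1)) :=
        hNc.comp_continuousOn (α.continuousOn_projExt.mono hsubrect)
      exact hrect.of_isClosed_subset
        (hcont.preimage_isClosed_of_isClosed hrect.isClosed isClosed_singleton) inter_subset_left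
    · exact α.continuousOn_projExt.mono (fun z hz => hsub hz.1)
  have hCU : C ⊆ e.source := by
    rw [hs]; intro p hp
    exact hinU p (by rw [show α.height p = t₁ from hp]; linarith)
  have hEU : E ⊆ e.source := by
    rw [hs]; intro p hp
    exact hinU p (by have : t₁ < α.height p := hp; linarith)
  have heC : IsCompact (e '' C) := hCc.image_of_continuousOn (e.continuousOn.mono hCU)
  -- bounds r₀, r₁
  have hbound : ∃ r₀ r₁ : ℝ, 1 < r₀ ∧ r₀ < ρ ∧ 1 < r₁ ∧ r₁ < ρ ∧
      ∀ w ∈ e '' C, r₀ ≤ ‖w‖ ∧ ‖w‖ ≤ r₁ := by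
    rcases (e '' C).eq_empty_or_nonempty with h | h
    · refine ⟨(1 + ρ) / 2, (1 + ρ) / 2, by linarith, by linarith, by linarith, by linarith, ?_⟩
      intro w hw; rw [h] at hw; exact absurd hw (notMem_empty _)
    · have htar : ∀ w ∈ e '' C, 1 < ‖w‖ ∧ ‖w‖ < ρ := by
        rintro _ ⟨p, hp, rfl⟩
        have := e.map_source (hCU hp)
        rw [ht] at this
        exact this
      obtain ⟨w₀, hw₀, hmin⟩ := heC.exists_isMinOn h continuous_norm.continuousOn
      obtain ⟨w₁, hw₁, hmax⟩ := heC.exists_isMaxOn h continuous_norm.continuousOn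
      exact ⟨‖w₀‖, ‖w₁‖, (htar _ hw₀).1, (htar _ hw₀).2, (htar _ hw₁).1, (htar _ hw₁).2,
        fun w hw => ⟨hmin hw, hmax hw⟩⟩
  obtain ⟨r₀, r₁, hr₀, hr₀ρ, hr₁, hr₁ρ, hr⟩ := hbound
  -- the images of E and D
  set WE : Set ℂ := e.target ∩ e.symm ⁻¹' E with hWE
  set WD : Set ℂ := e.target ∩ e.symm ⁻¹' D with hWD
  have hWEo : IsOpen WE := e.isOpen_inter_preimage_symm hEo
  have hWDo : IsOpen WD := e.isOpen_inter_preimage_symm hDo
  have hdisj : Disjoint WE WD := by
    rw [Set.disjoint_left]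
    rintro w ⟨_, h1⟩ ⟨_, h2⟩
    have h1' : t₁ < α.height (e.symm w) := h1
    have h2' : α.height (e.symm w) < t₁ := h2
    linarith
  have hcov : ∀ w ∈ e.target, w ∉ e '' C → w ∈ WE ∪ WD := by
    intro w hw hwC
    rcases lt_trichotomy (α.height (e.symm w)) t₁ with h | h | h
    · exact Or.inr ⟨hw, h⟩
    · exfalso; apply hwC
      exact ⟨e.symm w, h, e.right_inv hw⟩
    · exact Or.inl ⟨hw, h⟩
  -- a circle inside `WE` is impossible
  have hcirc : ∀ r : ℝ, 1 < r → {w : ℂ | ‖w‖ = r} ⊆ WE → False := by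
    intro r hr1 hsubr
    apply no_log_on_circle (r := r) (by linarith) (h := fun w => g (e.symm w))
    · apply hgc.comp (e.continuousOn_symm.mono (fun w hw => (hsubr hw).1))
      intro w hw
      have : t₁ < α.height (e.symm w) := (hsubr hw).2
      show t₀ < α.height (e.symm w)
      linarith
    · intro w hw
      have hwE := hsubr hw
      have h1 : t₁ < α.height (e.symm w) := hwE.2
      have h2 := hrepp (e.symm w)
      have h3 := hrepc (e.symm w)
      have h4 : rep (e.symm w) ∈ closedS M := by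
        apply hrep _ h3
        rw [← α.height_projExt h3, h2]; linarith
      show Complex.exp (G (rep (e.symm w))) = w
      rw [hexp _ h4, h2, e.right_inv hwE.1]
  -- the two collars
  have hout : IsPreconnected {w : ℂ | r₁ < ‖w‖ ∧ ‖w‖ < ρ} :=
    annulus_preconnected (by linarith) (by linarith)
  have hin : IsPreconnected {w : ℂ | 1 < ‖w‖ ∧ ‖w‖ < r₀} :=
    annulus_preconnected one_pos (by linarith)
  have hout' : {w : ℂ | r₁ < ‖w‖ ∧ ‖w‖ < ρ} ⊆ WE ∪ WD := by
    rintro w ⟨h1, h2⟩
    apply hcov w (by rw [ht]; exact ⟨by linarith, h2⟩)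
    intro hwC
    have := (hr w hwC).2
    linarith
  have hin' : {w : ℂ | 1 < ‖w‖ ∧ ‖w‖ < r₀} ⊆ WE ∪ WD := by
    rintro w ⟨h1, h2⟩
    apply hcov w (by rw [ht]; exact ⟨h1, by linarith⟩)
    intro hwC
    have := (hr w hwC).1
    linarith
  have hcase1 := hout.subset_or_subset hWEo hWDo hdisj hout'
  have hcase2 := hin.subset_or_subset hWEo hWDo hdisj hin'
  rcases hcase1 with h1 | h1
  · apply hcirc ((r₁ + ρ) / 2) (by linarith)
    intro w hw
    have hw' : ‖w‖ = (r₁ + ρ) / 2 := hw
    exact h1 ⟨by rw [hw']; linarith, by rw [hw']; linarith⟩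
  rcases hcase2 with h2 | h2
  · apply hcirc ((1 + r₀) / 2) (by linarith)
    intro w hw
    have hw' : ‖w‖ = (1 + r₀) / 2 := hw
    exact h2 ⟨by rw [hw']; linarith, by rw [hw']; linarith⟩
  -- both collars are in `WD`: then `E ∪ C` is compact
  have hK : IsCompact {p : α.Surf | t₁ ≤ α.height p} := by
    have hcl : IsCompact ({w : ℂ | r₀ ≤ ‖w‖ ∧ ‖w‖ ≤ r₁} \ WD) := by
      apply IsCompact.diff _ hWDo
      apply (isCompact_closedBall (0 : ℂ) r₁).of_isClosed_subset
      · exact (isClosed_le continuous_const continuous_norm).inter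
          (isClosed_le continuous_norm continuous_const)
      · rintro w ⟨_, h⟩; simpa using h
    have hsubt : ({w : ℂ | r₀ ≤ ‖w‖ ∧ ‖w‖ ≤ r₁} \ WD) ⊆ e.target := by
      rintro w ⟨⟨h3, h4⟩, _⟩
      rw [ht]; exact ⟨by linarith, by linarith⟩
    have himg := hcl.image_of_continuousOn (e.continuousOn_symm.mono hsubt)
    apply himg.of_isClosed_subset (isClosed_le continuous_const hNc)
    intro p hp
    have hpU : p ∈ e.source := by
      rw [hs]; exact hinU p (by have : t₁ ≤ α.height p := hp; linarith)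
    have hpt := e.map_source hpU
    have hnD : e p ∉ WD := by
      rintro ⟨_, h3⟩
      have h3' : α.height (e.symm (e p)) < t₁ := h3
      rw [e.left_inv hpU] at h3'
      have : t₁ ≤ α.height p := hp
      linarith
    refine ⟨e p, ⟨⟨?_, ?_⟩, hnD⟩, e.left_inv hpU⟩
    · by_contra hlt
      push Not at hlt
      rw [ht] at hpt
      exact hnD (h2 ⟨hpt.1, hlt⟩)
    · by_contra hlt
      push Not at hlt
      rw [ht] at hpt
      exact hnD (h1 ⟨hlt, hpt.2⟩)
  obtain ⟨B, hB⟩ := (hK.image_of_continuousOn hNc.continuousOn).bddAbove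
  -- but the height is unbounded
  have hex : ∃ x : ℝ, 0 < x ∧ max (t₁ + 1) (B + 1) ≤ x :=
    ⟨max (max (t₁ + 1) (B + 1)) 1, lt_of_lt_of_le one_pos (le_max_right _ _), le_max_left _ _⟩
  obtain ⟨x, hx0, hxB⟩ := hex
  have h3 : α.height (α.projExt x) = α.toFun x := by
    rw [α.height_projExt (α.bottom_mem hx0)]
    simp [heightFun]
  have h4 : x ≤ α.toFun x := hx x hx0
  have h5 : α.projExt x ∈ {p : α.Surf | t₁ ≤ α.height p} := by
    show t₁ ≤ α.height (α.projExt x)
    rw [h3]
    have := le_max_left (t₁ + 1) (B + 1)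
    linarith
  have h6 := hB (mem_image_of_mem _ h5)
  rw [h3] at h6
  have := le_max_right (t₁ + 1) (B + 1)
  linarith

/-- Data extracted from a hyperbolic end. -/
theorem exists_G (hx : ∀ x : ℝ, 0 < x → x ≤ α.toFun x) (cs : ChartedSpace ℂ α.Surf)
    (hq : letI := cs; MDifferentiableOn 𝓘(ℂ) 𝓘(ℂ) α.projExt openStrip)
    (hh : α.HasHyperbolicEnd cs) :
    ∃ (M : ℝ) (G : ℂ → ℂ) (n : ℤ), 0 < M ∧ n ≠ 0 ∧ Continuous G ∧
      DifferentiableOn ℂ G (openS M) ∧
      (∀ x : ℝ, M ≤ x → G (α.toFun x + Complex.I) = G x + n * (2 * Real.pi * Complex.I)) ∧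
      ∫⁻ z in openS M, ‖deriv G z‖ₑ ^ 2 < ⊤ := by
  letI := cs
  obtain ⟨U, γ, ρ, e, hUo, ⟨M₀, hM₀⟩, -, -, -, hρ, hs, ht, hed, -⟩ := hh
  set M := max (M₀ + 1) (α.start + 1) with hM
  have hM1 : α.start < M := lt_of_lt_of_le (by linarith) (le_max_right _ _)
  have hM2 : M₀ < M := lt_of_lt_of_le (by linarith) (le_max_left _ _)
  have hM0 : 0 < M := lt_of_le_of_lt α.start_nonneg hM1
  have hsub := α.closedS_subset hM1
  have hU : ∀ z ∈ closedS M, α.projExt z ∈ U := by
    intro z hz
    rw [α.projExt_of_mem (hsub hz)]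
    exact hM₀ _ (lt_of_lt_of_le hM2 hz.1)
  set F : ℂ → ℂ := fun z => e (α.projExt z) with hF
  have hFc : ContinuousOn F (closedS M) := by
    apply e.continuousOn.comp (α.continuousOn_projExt.mono hsub)
    intro z hz; rw [hs]; exact hU z hz
  have hFt : ∀ z ∈ closedS M, 1 < ‖F z‖ ∧ ‖F z‖ < ρ := by
    intro z hz
    have := e.map_source (by rw [hs]; exact hU z hz : α.projExt z ∈ e.source)
    rw [ht] at this
    exact this
  have hF0 : ∀ z ∈ closedS M, F z ≠ 0 := by
    intro z hz h
    have := (hFt z hz).1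
    rw [h, norm_zero] at this
    linarith
  obtain ⟨G, hGc, hGe⟩ := exists_log hFc hF0
  have hopen := isOpen_openS M
  have hFd : DifferentiableOn ℂ F (openS M) := by
    have h1 : MDifferentiableOn 𝓘(ℂ) 𝓘(ℂ) (e ∘ α.projExt) (openS M) := by
      apply MDifferentiableOn.comp (u := U) hed
      · exact hq.mono (fun z hz => ⟨hM0.trans hz.1, hz.2.1, hz.2.2⟩)
      · intro z hz; exact hU z (openS_subset M hz)
    exact h1.differentiableOn
  have hFi : InjOn F (openS M) := by
    intro z hz w hw hzw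
    have h1 : α.projExt z = α.projExt w := e.injOn (by rw [hs]; exact hU z (openS_subset M hz))
      (by rw [hs]; exact hU w (openS_subset M hw)) hzw
    rcases (α.projExt_eq_iff (hsub (openS_subset M hz)) (hsub (openS_subset M hw))).mp h1 with
      h | ⟨h, _⟩ | ⟨h, _⟩
    · exact h
    · exact absurd h hz.2.1.ne'
    · exact absurd h hw.2.1.ne'
  have hGd : DifferentiableOn ℂ G (openS M) :=
    differentiableOn_log hopen hGc hFd (fun z hz => hGe z (openS_subset M hz))
  have hint := area_bound hopen hFd hFi hGd (fun z hz => hGe z (openS_subset M hz))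
    (fun z hz => (hFt z (openS_subset M hz)).1) (fun z hz => (hFt z (openS_subset M hz)).2)
  -- gluing
  have hbot : ∀ x : ℝ, M ≤ x → (x : ℂ) ∈ closedS M := by
    intro x hx'; exact ⟨by simpa using hx', by simp, by simp⟩
  have htop : ∀ x : ℝ, M ≤ x → (α.toFun x + Complex.I : ℂ) ∈ closedS M := by
    intro x hx'
    refine ⟨?_, by simp, by simp⟩
    simpa using hx'.trans (hx x (hM0.trans_le hx'))
  have hper : ∀ x ∈ Ici M, ∃ n : ℤ, G (α.toFun x + Complex.I) - G x =
      n * (2 * Real.pi * Complex.I) := by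
    intro x hx'
    have h1 : Complex.exp (G (α.toFun x + Complex.I)) = Complex.exp (G x) := by
      rw [hGe _ (htop x hx'), hGe _ (hbot x hx'), hF]
      simp only
      rw [α.projExt_glue (hM0.trans_le hx')]
    obtain ⟨n, hn⟩ := Complex.exp_eq_exp_iff_exists_int.mp h1
    exact ⟨n, by rw [hn]; ring⟩
  have hcont : ContinuousOn (fun x : ℝ => G (α.toFun x + Complex.I) - G x) (Ici M) := by
    have h1 : ContinuousOn (fun x : ℝ => (α.toFun x + Complex.I : ℂ)) (Ici M) := by
      have h2 := α.continuousOn.mono (fun x hx' => lt_of_lt_of_le hM0 hx' : Ici M ⊆ Ioi 0)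
      exact (Complex.continuous_ofReal.comp_continuousOn h2).add continuousOn_const
    exact (hGc.comp_continuousOn h1).sub
      (hGc.comp Complex.continuous_ofReal).continuousOn
  obtain ⟨n, hn⟩ := exists_int_const isPreconnected_Ici hcont (mem_Ici.mpr le_rfl) hper
  have hn' : ∀ x : ℝ, M ≤ x → G (α.toFun x + Complex.I) =
      G x + n * (2 * Real.pi * Complex.I) := by
    intro x hx'
    have := hn x hx'
    rw [sub_eq_iff_eq_add] at this
    rw [this]; ring
  refine ⟨M, G, n, hM0, ?_, hGc, hGd, hn', hint⟩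
  rintro rfl
  apply α.period_ne_zero hx hM1 hρ e hU hs ht hGc hGe
  intro x hx'
  rw [hn' x hx']
  simp

end Sewing

end Pool.Agent.ConfSewing
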