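import Pool.Agent.ConfSewing.Charts

set_option autoImplicit false

open Set Filter Topology
open scoped Manifold ContDiff ComplexConjugate

namespace Pool.Agent.ConfSewing

lemma up_one (ζ : ℂ) : up 1 ζ = ζ := by unfold up; simp
lemma dn_one (ζ : ℂ) : dn 1 ζ = ζ := by unfold dn; simp

lemma dn_ofReal_nonneg {κ : ℂ} {t : ℝ} (ht : 0 ≤ t) : dn κ t = up κ t := by
  rw [dn_eq_cpow, up]
  rw [Complex.arg_ofReal_of_nonneg ht]
  exact Real.pi_ne_zero.symm

namespace Sewing

variable (α : Sewing)

/-- affine germs on both sides of `x` with left slope `s₁`, right slope `s₂` on radius `δ` -/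
structure Brk (x s₁ s₂ δ : ℝ) : Prop where
  s₁pos : 0 < s₁
  s₂pos : 0 < s₂
  δpos : 0 < δ
  δlt : δ < x
  right : ∀ u, x ≤ u → u < x + δ → α.toFun u = α.toFun x + s₂ * (u - x)
  left : ∀ u, x - δ < u → u ≤ x → α.toFun u = α.toFun x + s₁ * (u - x)

/-- the chart region at the seam point `x` -/
def seamU (x s₁ s₂ δ : ℝ) : Set ℂ :=
  {z | (z.im < 1 / 2 ∧ x - δ < z.re ∧ z.re < x + δ) ∨
    (1 / 2 < z.im ∧ α.toFun x - s₁ * δ < z.re ∧ z.re < α.toFun x + s₂ * δ)} ∩ α.carrier

/-- the chart function at the seam point `x` -/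
noncomputable def seamF (x s₁ s₂ : ℝ) (z : ℂ) : ℂ :=
  if z.im < 1 / 2 then up (kap (s₁ / s₂)) (z - x)
  else dn (kap (s₁ / s₂)) ((z - Complex.I - α.toFun x) / s₂)

variable {α} {x s₁ s₂ δ : ℝ}

lemma seamF_bot {z : ℂ} (hz : z.im < 1 / 2) :
    α.seamF x s₁ s₂ z = up (kap (s₁ / s₂)) (z - x) := if_pos hz

lemma seamF_top {z : ℂ} (hz : 1 / 2 < z.im) :
    α.seamF x s₁ s₂ z = dn (kap (s₁ / s₂)) ((z - Complex.I - α.toFun x) / s₂) :=
  if_neg (not_lt.mpr hz.le)

namespace Brk

variable (h : α.Brk x s₁ s₂ δ)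
include h

lemma xpos : 0 < x := h.δpos.trans h.δlt

lemma rpos : 0 < s₁ / s₂ := div_pos h.s₁pos h.s₂pos

lemma bounds {u : ℝ} (h1 : x - δ < u) (h2 : u < x + δ) :
    α.toFun x - s₁ * δ < α.toFun u ∧ α.toFun u < α.toFun x + s₂ * δ := by
  have hs1 := h.s₁pos
  have hs2 := h.s₂pos
  have hd := h.δpos
  rcases le_total x u with hu | hu
  · rw [h.right u hu h2]
    constructor <;> nlinarith
  · rw [h.left u h1 hu]
    constructor <;> nlinarith

lemma bounds_conv {u : ℝ} (hu0 : 0 < u) (h1 : α.toFun x - s₁ * δ < α.toFun u)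
    (h2 : α.toFun u < α.toFun x + s₂ * δ) : x - δ < u ∧ u < x + δ := by
  have hs1 := h.s₁pos
  have hs2 := h.s₂pos
  have hd := h.δpos
  have hx := h.xpos
  have hδ := h.δlt
  constructor
  · by_contra hcon
    push Not at hcon
    have hlt : α.toFun u < α.toFun x := α.strictMonoOn hu0 hx (by linarith)
    set v := x + (α.toFun u - α.toFun x) / s₁ with hv
    have hq1 : (α.toFun u - α.toFun x) / s₁ < 0 := div_neg_of_neg_of_pos (by linarith) hs1
    have hq2 : -δ < (α.toFun u - α.toFun x) / s₁ := by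
      rw [lt_div_iff₀ hs1]; linarith
    have hv1 := h.left v (by rw [hv]; linarith) (by rw [hv]; linarith)
    have hv2 : α.toFun v = α.toFun u := by
      rw [hv1, hv]; field_simp; ring
    have hv3 : v = u := α.strictMonoOn.injOn (show v ∈ Ioi 0 by rw [mem_Ioi, hv]; linarith) hu0 hv2
    rw [← hv3, hv] at hcon
    linarith
  · by_contra hcon
    push Not at hcon
    have hlt : α.toFun x < α.toFun u := α.strictMonoOn hx hu0 (by linarith)
    set v := x + (α.toFun u - α.toFun x) / s₂ with hv
    have hq1 : 0 < (α.toFun u - α.toFun x) / s₂ := div_pos (by linarith) hs2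
    have hq2 : (α.toFun u - α.toFun x) / s₂ < δ := by
      rw [div_lt_iff₀ hs2]; linarith
    have hv1 := h.right v (by rw [hv]; linarith) (by rw [hv]; linarith)
    have hv2 : α.toFun v = α.toFun u := by
      rw [hv1, hv]; field_simp; ring
    have hv3 : v = u := α.strictMonoOn.injOn (show v ∈ Ioi 0 by rw [mem_Ioi, hv]; linarith) hu0 hv2
    rw [← hv3, hv] at hcon
    linarith

lemma chartData : α.ChartData (α.seamU x s₁ s₂ δ) (α.seamF x s₁ s₂) where
  opn := by
    refine ⟨_, ?_, rfl⟩
    apply IsOpen.union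
    · exact (isOpen_lt Complex.continuous_im continuous_const).inter
        ((isOpen_lt continuous_const Complex.continuous_re).inter
          (isOpen_lt Complex.continuous_re continuous_const))
    · exact (isOpen_lt continuous_const Complex.continuous_im).inter
        ((isOpen_lt continuous_const Complex.continuous_re).inter
          (isOpen_lt Complex.continuous_re continuous_const))
  sat := by
    intro u hu
    have hb := α.bottom_mem hu
    have ht := α.top_mem (α.toFun_gt hu)
    constructor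
    · rintro ⟨h1 | h1, _⟩
      · simp only [Complex.ofReal_re] at h1
        have := h.bounds h1.2.1 h1.2.2
        refine ⟨Or.inr ⟨?_, ?_, ?_⟩, ht⟩
        · norm_num
        · simpa using this.1
        · simpa using this.2
      · have := h1.1
        rw [Complex.ofReal_im] at this
        norm_num at this
    · rintro ⟨h1 | h1, _⟩
      · have := h1.1
        norm_num at this
      · have h2 : α.toFun x - s₁ * δ < α.toFun u := by simpa using h1.2.1
        have h3 : α.toFun u < α.toFun x + s₂ * δ := by simpa using h1.2.2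
        have := h.bounds_conv hu h2 h3
        refine ⟨Or.inl ⟨?_, ?_, ?_⟩, hb⟩
        · norm_num
        · simpa using this.1
        · simpa using this.2
  cont := by
    have hκ := kap_re_pos (s₁ / s₂)
    rintro z ⟨hz | hz, hzc⟩
    · have h1 : ContinuousWithinAt (fun z : ℂ => up (kap (s₁ / s₂)) (z - x))
          (α.seamU x s₁ s₂ δ) z := by
        have h2 := (continuousOn_up hκ) (z - x) (by simpa using hzc.1.2.1)
        apply h2.comp (f := fun z : ℂ => z - x) (by fun_prop)
        intro w hw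
        simpa using hw.2.1.2.1
      apply h1.congr_of_eventuallyEq _ (seamF_bot hz.1)
      have : ∀ᶠ w : ℂ in 𝓝 z, w.im < 1 / 2 :=
        (isOpen_lt Complex.continuous_im continuous_const).mem_nhds hz.1
      exact (this.filter_mono nhdsWithin_le_nhds).mono fun w hw => seamF_bot hw
    · have hs2 := h.s₂pos
      have him : ∀ w ∈ α.carrier, ((w - Complex.I - α.toFun x) / s₂ : ℂ).im ≤ 0 := by
        intro w hw
        rw [Complex.div_ofReal_im]
        apply div_nonpos_of_nonpos_of_nonneg _ hs2.le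
        have := hw.1.2.2
        simp
        linarith
      have h1 : ContinuousWithinAt
          (fun z : ℂ => dn (kap (s₁ / s₂)) ((z - Complex.I - α.toFun x) / s₂))
          (α.seamU x s₁ s₂ δ) z := by
        have h2 := (continuousOn_dn hκ) ((z - Complex.I - α.toFun x) / s₂) (him z hzc)
        apply h2.comp (f := fun z : ℂ => (z - Complex.I - α.toFun x) / s₂) (by fun_prop)
        intro w hw
        exact him w hw.2
      apply h1.congr_of_eventuallyEq _ (seamF_top hz.1)
      have : ∀ᶠ w : ℂ in 𝓝 z, 1 / 2 < w.im :=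
        (isOpen_lt continuous_const Complex.continuous_im).mem_nhds hz.1
      exact (this.filter_mono nhdsWithin_le_nhds).mono fun w hw => seamF_top hw
  glue := by
    intro u hu hU
    have hs1 := h.s₁pos
    have hs2 := h.s₂pos
    have hs2c : (s₂ : ℂ) ≠ 0 := by exact_mod_cast hs2.ne'
    have hb : x - δ < u ∧ u < x + δ := by
      rcases hU.1 with h1 | h1
      · simpa using h1.2
      · have := h1.1
        rw [Complex.ofReal_im] at this
        norm_num at this
    rw [seamF_bot (z := (u : ℂ)) (by norm_num),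
      seamF_top (z := α.toFun u + Complex.I) (by norm_num)]
    have e1 : (α.toFun u + Complex.I - Complex.I - α.toFun x : ℂ) / s₂ =
        (((α.toFun u - α.toFun x) / s₂ : ℝ) : ℂ) := by push_cast; ring
    have e2 : (u - x : ℂ) = ((u - x : ℝ) : ℂ) := by push_cast; ring
    rw [e1, e2]
    rcases le_or_gt x u with hxu | hxu
    · rw [h.right u hxu hb.2]
      have e3 : (α.toFun x + s₂ * (u - x) - α.toFun x) / s₂ = u - x := by
        field_simp; ring
      rw [e3, dn_ofReal_nonneg (by linarith)]
    · rw [h.left u hb.1 hxu.le]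
      have e3 : (α.toFun x + s₁ * (u - x) - α.toFun x) / s₂ = s₁ / s₂ * (u - x) := by
        field_simp; ring
      rw [e3]
      have h4 := dn_eq_lm h.rpos (ζ := ((u - x : ℝ) : ℂ)) (by simpa using hxu) (by simp)
      have h5 := up_eq_lm (κ := kap (s₁ / s₂)) (ζ := ((u - x : ℝ) : ℂ)) (by simpa using hxu)
        (by simp)
      rw [h5, ← h4]
      congr 1
      push_cast
      ring

lemma mixed {z w : ℂ} (hz : z ∈ α.seamU x s₁ s₂ δ) (hw : w ∈ α.seamU x s₁ s₂ δ)
    (hz1 : z.im < 1 / 2) (hw1 : 1 / 2 < w.im)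
    (he : α.seamF x s₁ s₂ z = α.seamF x s₁ s₂ w) : α.projExt z = α.projExt w := by
  have hs1 := h.s₁pos
  have hs2 := h.s₂pos
  have hs2c : (s₂ : ℂ) ≠ 0 := by exact_mod_cast hs2.ne'
  have hb : x - δ < z.re ∧ z.re < x + δ := by
    rcases hz.1 with h1 | h1
    · exact h1.2
    · exact absurd h1.1 (not_lt.mpr hz1.le)
  rw [seamF_bot hz1, seamF_top hw1] at he
  have him1 : 0 ≤ (z - x : ℂ).im := by simpa using hz.2.1.2.1
  have him2 : ((w - Complex.I - α.toFun x) / s₂ : ℂ).im ≤ 0 := by
    rw [Complex.div_ofReal_im]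
    apply div_nonpos_of_nonpos_of_nonneg _ hs2.le
    have := hw.2.1.2.2
    simp
    linarith
  rcases up_dn_inj h.rpos him1 him2 he with ⟨t, ht, e1, e2⟩ | ⟨t, ht, e1, e2⟩
  · have ez : z = ((x + t : ℝ) : ℂ) := by push_cast; linear_combination e1
    have ew : w = α.toFun x + s₂ * t + Complex.I := by
      rw [div_eq_iff hs2c] at e2
      linear_combination e2
    have hzre : z.re = x + t := by rw [ez]; simp
    have hα := h.right (x + t) (by linarith) (by rw [← hzre]; exact hb.2)
    have hpos : 0 < x + t := by have := h.xpos; linarith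
    have hg := α.projExt_glue hpos
    rw [hα] at hg
    rw [ez, ew, ← hg]
    congr 1
    push_cast
    ring
  · have ez : z = ((x + t : ℝ) : ℂ) := by push_cast; linear_combination e1
    have ew : w = α.toFun x + s₁ * t + Complex.I := by
      rw [div_eq_iff hs2c] at e2
      have e3 : ((s₁ / s₂ * t : ℝ) : ℂ) * s₂ = s₁ * t := by
        push_cast; field_simp
      rw [e3] at e2
      linear_combination e2
    have hzre : z.re = x + t := by rw [ez]; simp
    have hα := h.left (x + t) (by rw [← hzre]; exact hb.1) (by linarith)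
    have hpos : 0 < x + t := by have := h.δlt; linarith
    have hg := α.projExt_glue hpos
    rw [hα] at hg
    rw [ez, ew, ← hg]
    congr 1
    push_cast
    ring

lemma inj {z w : ℂ} (hz : z ∈ α.seamU x s₁ s₂ δ) (hw : w ∈ α.seamU x s₁ s₂ δ)
    (he : α.seamF x s₁ s₂ z = α.seamF x s₁ s₂ w) : α.projExt z = α.projExt w := by
  have hs2 := h.s₂pos
  have hs2c : (s₂ : ℂ) ≠ 0 := by exact_mod_cast hs2.ne'
  have hz' : z.im < 1 / 2 ∨ 1 / 2 < z.im := hz.1.imp (fun h => h.1) (fun h => h.1)
  have hw' : w.im < 1 / 2 ∨ 1 / 2 < w.im := hw.1.imp (fun h => h.1) (fun h => h.1)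
  rcases hz' with hz1 | hz1 <;> rcases hw' with hw1 | hw1
  · rw [seamF_bot hz1, seamF_bot hw1] at he
    have := up_inj (by simpa using hz.2.1.2.1) (by simpa using hw.2.1.2.1) he
    have hzw : z = w := sub_left_injective this
    rw [hzw]
  · exact h.mixed hz hw hz1 hw1 he
  · exact (h.mixed hw hz hw1 hz1 he.symm).symm
  · rw [seamF_top hz1, seamF_top hw1] at he
    have him : ∀ w ∈ α.carrier, ((w - Complex.I - α.toFun x) / s₂ : ℂ).im ≤ 0 := by
      intro w hw
      rw [Complex.div_ofReal_im]
      apply div_nonpos_of_nonpos_of_nonneg _ hs2.le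
      have := hw.1.2.2
      simp
      linarith
    have := dn_inj (him z hz.2) (him w hw.2) he
    rw [div_left_inj' hs2c] at this
    have hzw : z = w := by linear_combination this
    rw [hzw]

end Brk

/-! ### neighbourhoods of seam points -/

lemma seam_nhds {y : ℝ} (hy : 0 < y) (s : ℝ) (hs : 0 < s) {O : Set α.Surf}
    (hO : O ∈ 𝓝 (α.projExt y)) : ∀ᶠ ζ : ℂ in 𝓝 0,
      (0 ≤ ζ.im → (y + ζ : ℂ) ∈ α.carrier ∧ α.projExt (y + ζ) ∈ O) ∧
      (ζ.im ≤ 0 → (α.toFun y + Complex.I + s * ζ : ℂ) ∈ α.carrier ∧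
        α.projExt (α.toFun y + Complex.I + s * ζ) ∈ O) := by
  have hcarb : ∀ᶠ ζ : ℂ in 𝓝 0, 0 ≤ ζ.im → (y + ζ : ℂ) ∈ α.carrier := by
    have h1 : ∀ᶠ ζ : ℂ in 𝓝 0, -y < ζ.re ∧ ζ.im < 1 := by
      apply ((isOpen_lt continuous_const Complex.continuous_re).inter
        (isOpen_lt Complex.continuous_im continuous_const)).mem_nhds
      constructor
      · simpa using hy
      · simp
    filter_upwards [h1] with ζ hζ him
    refine ⟨⟨?_, ?_, ?_⟩, ?_⟩
    · simp; linarith [hζ.1]
    · simpa using him
    · simpa using hζ.2.le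
    · intro h2
      simp at h2
      linarith [hζ.2]
  have hα0 := α.toFun_gt hy
  have hcart : ∀ᶠ ζ : ℂ in 𝓝 0, ζ.im ≤ 0 → (α.toFun y + Complex.I + s * ζ : ℂ) ∈ α.carrier := by
    have h1 : ∀ᶠ ζ : ℂ in 𝓝 0, α.start < α.toFun y + s * ζ.re ∧ 0 < 1 + s * ζ.im := by
      apply ((isOpen_lt continuous_const (by fun_prop : Continuous fun ζ : ℂ =>
        α.toFun y + s * ζ.re)).inter
        (isOpen_lt continuous_const (by fun_prop : Continuous fun ζ : ℂ =>
        1 + s * ζ.im))).mem_nhds
      constructor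
      · simpa using hα0
      · simp
    filter_upwards [h1] with ζ hζ him
    have hst := α.start_nonneg
    refine ⟨⟨?_, ?_, ?_⟩, ?_⟩
    · simp; linarith [hζ.1]
    · simp; linarith [hζ.2]
    · simp; nlinarith
    · intro _
      simp; linarith [hζ.1]
  have hb : Tendsto α.projExt (𝓝[α.carrier] (y : ℂ)) (𝓝 (α.projExt y)) :=
    α.continuousOn_projExt _ (α.bottom_mem hy)
  have ht : Tendsto α.projExt (𝓝[α.carrier] (α.toFun y + Complex.I : ℂ)) (𝓝 (α.projExt y)) := by
    rw [← α.projExt_glue hy]
    exact α.continuousOn_projExt _ (α.top_mem hα0)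
  have hb2 : ∀ᶠ z in 𝓝 (y : ℂ), z ∈ α.carrier → α.projExt z ∈ O :=
    eventually_nhdsWithin_iff.mp (hb.eventually hO)
  have ht2 : ∀ᶠ z in 𝓝 (α.toFun y + Complex.I : ℂ), z ∈ α.carrier → α.projExt z ∈ O :=
    eventually_nhdsWithin_iff.mp (ht.eventually hO)
  have cb : Tendsto (fun ζ : ℂ => (y + ζ : ℂ)) (𝓝 0) (𝓝 (y : ℂ)) := by
    have : Tendsto (fun ζ : ℂ => (y + ζ : ℂ)) (𝓝 0) (𝓝 (y + 0 : ℂ)) :=
      Continuous.tendsto (by fun_prop) 0
    rwa [add_zero] at this
  have ct : Tendsto (fun ζ : ℂ => (α.toFun y + Complex.I + s * ζ : ℂ)) (𝓝 0)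
      (𝓝 (α.toFun y + Complex.I : ℂ)) := by
    have : Tendsto (fun ζ : ℂ => (α.toFun y + Complex.I + s * ζ : ℂ)) (𝓝 0)
      (𝓝 (α.toFun y + Complex.I + s * 0 : ℂ)) := Continuous.tendsto (by fun_prop) 0
    rwa [mul_zero, add_zero] at this
  filter_upwards [hcarb, hcart, cb.eventually hb2, ct.eventually ht2] with ζ h1 h2 h3 h4
  exact ⟨fun him => ⟨h1 him, h3 (h1 him)⟩, fun him => ⟨h2 him, h4 (h2 him)⟩⟩

variable (α) in
/-- the canonical parametrisation at a regular seam point -/
noncomputable def lamS (y s : ℝ) (ζ : ℂ) : α.Surf :=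
  if 0 ≤ ζ.im then α.projExt (y + ζ) else α.projExt (α.toFun y + Complex.I + s * ζ)

lemma lamS_zero (y s : ℝ) : α.lamS y s 0 = α.projExt y := by
  unfold lamS; simp

lemma continuousAt_lamS {y s : ℝ} (hy : 0 < y) (hs : 0 < s) : ContinuousAt (α.lamS y s) 0 := by
  unfold ContinuousAt
  rw [lamS_zero]
  intro O hO
  have := seam_nhds hy s hs hO
  rw [mem_map]
  filter_upwards [this] with ζ hζ
  rw [mem_preimage]
  unfold lamS
  split_ifs with h1
  · exact (hζ.1 h1).2
  · exact (hζ.2 (not_le.mp h1).le).2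

lemma mem_seamU_bottom (h : α.Brk x s₁ s₂ δ) {y : ℝ} (h1 : x - δ < y) (h2 : y < x + δ) :
    (y : ℂ) ∈ α.seamU x s₁ s₂ δ := by
  have := h.δlt
  refine ⟨Or.inl ⟨by norm_num, by simpa using h1, by simpa using h2⟩, ?_⟩
  exact α.bottom_mem (by linarith)

lemma param_seam {y s : ℝ} (h : α.Brk y s s δ) :
    Param (α.projExt y) 0 (α.lamS y s) (α.seamF y s s ∘ α.rep) := by
  have hs := h.s₁pos
  have hsc : (s : ℂ) ≠ 0 := by exact_mod_cast hs.ne'
  have hd := h.δpos
  have hy := h.xpos
  have hk : kap (s / s) = 1 := by rw [div_self hs.ne', kap_one]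
  have hyU : (y : ℂ) ∈ α.seamU y s s δ := mem_seamU_bottom h (by linarith) (by linarith)
  have hcd := h.chartData
  refine ⟨lamS_zero y s, continuousAt_lamS h.xpos hs, ?_, ?_, ?_⟩
  · rw [hcd.comp_rep hyU, seamF_bot (by norm_num), hk, up_one, sub_self]
  · exact hcd.continuousOn.continuousAt (hcd.isOpen_image.mem_nhds (mem_image_of_mem _ hyU))
  · have : α.projExt '' (α.seamU y s s δ) ∈ 𝓝 (α.projExt y) :=
      hcd.isOpen_image.mem_nhds (mem_image_of_mem _ hyU)
    filter_upwards [this] with p hp
    obtain ⟨z, hz, rfl⟩ := hp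
    rw [hcd.comp_rep hz]
    rcases hz.1 with hz1 | hz1
    · rw [seamF_bot hz1.1, hk, up_one]
      unfold lamS
      rw [if_pos (by simpa using hz.2.1.2.1)]
      congr 1; ring
    · rw [seamF_top hz1.1, hk, dn_one]
      unfold lamS
      have him : ((z - Complex.I - α.toFun y) / s : ℂ).im = (z.im - 1) / s := by
        rw [Complex.div_ofReal_im]; simp
      split_ifs with h0
      · -- `z.im = 1`
        rw [him] at h0
        have h1 : z.im = 1 := by
          apply le_antisymm hz.2.1.2.2
          have : 0 ≤ z.im - 1 := by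
            by_contra hcon
            push Not at hcon
            have := div_neg_of_neg_of_pos hcon hs
            linarith
          linarith
        set t := (z.re - α.toFun y) / s with ht
        have e1 : ((z - Complex.I - α.toFun y) / s : ℂ) = (t : ℂ) := by
          apply Complex.ext
          · rw [Complex.div_ofReal_re, Complex.ofReal_re, ht]; simp
          · rw [him, h1, Complex.ofReal_im]; simp
        have ht1 : -δ < t := by
          rw [ht, lt_div_iff₀ hs]; linarith [hz1.2.1]
        have ht2 : t < δ := by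
          rw [ht, div_lt_iff₀ hs]; linarith [hz1.2.2]
        have hpos : 0 < y + t := by have := h.δlt; linarith
        have hα : α.toFun (y + t) = α.toFun y + s * t := by
          rcases le_total 0 t with h3 | h3
          · rw [h.right _ (by linarith) (by linarith)]; ring
          · rw [h.left _ (by linarith) (by linarith)]; ring
        rw [e1]
        have hg := α.projExt_glue hpos
        have e2 : z = α.toFun (y + t) + Complex.I := by
          apply Complex.ext
          · rw [hα, ht]; simp; field_simp; ring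
          · rw [h1]; simp
        rw [e2, hg]
        congr 1
        push_cast
        ring
      · congr 1
        field_simp
        ring

end Sewing

end Pool.Agent.ConfSewing
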