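import Pool.Agent.ConfSewing.Energy

set_option autoImplicit false

open Set Filter Topology MeasureTheory
open scoped ENNReal

namespace Pool.Agent.ConfSewing

/-- the half-strip in real coordinates -/
def QQ (M : ℝ) : Set (ℝ × ℝ) := {p | M < p.1 ∧ 0 < p.2 ∧ p.2 < 1}

lemma measurableSet_QQ (M : ℝ) : MeasurableSet (QQ M) := by
  have : IsOpen (QQ M) := by
    apply (isOpen_lt continuous_const continuous_fst).inter
    exact (isOpen_lt continuous_const continuous_snd).inter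
      (isOpen_lt continuous_snd continuous_const)
  exact this.measurableSet

section ctrl

variable {G : ℂ → ℂ} {M : ℝ}

lemma mem_openS {x t : ℝ} (hx : M < x) (h0 : 0 < t) (h1 : t < 1) :
    (x + t * Complex.I : ℂ) ∈ openS M := by
  refine ⟨?_, ?_, ?_⟩ <;> simpa

lemma ctrl_gen (hG : Continuous G) (hGd : DifferentiableOn ℂ G (openS M)) {y : ℝ → ℝ} {s : ℝ}
    (hs : |s| = 1) (hy : ∀ t, HasDerivAt y s t) (hy01 : ∀ t, 0 < t → t < 1 → 0 < y t ∧ y t < 1) :
    Ctrl (fun x t => G (x + y t * Complex.I))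
      (fun p => ‖deriv G (p.1 + y p.2 * Complex.I)‖ₑ) M := by
  have hyc : Continuous y := continuous_iff_continuousAt.mpr fun t => (hy t).continuousAt
  refine ⟨?_, ?_, ?_, ?_⟩
  · have h1 : Measurable (deriv G) := measurable_deriv G
    have h2 : Continuous fun p : ℝ × ℝ => (p.1 + y p.2 * Complex.I : ℂ) := by fun_prop
    exact (h1.comp h2.measurable).enorm
  · fun_prop
  · intro x t₁ t₂ hx h0 h12 h1
    have hc : Continuous fun t : ℝ => G (x + y t * Complex.I) := by fun_prop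
    have hder : ∀ t ∈ Ioo t₁ t₂, HasDerivAt (fun t : ℝ => G (x + y t * Complex.I))
        (deriv G (x + y t * Complex.I) * (s * Complex.I)) t := by
      intro t ht
      have ht01 := hy01 t (by linarith [ht.1]) (by linarith [ht.2])
      have hm := mem_openS (M := M) hx ht01.1 ht01.2
      have h2 := (hGd.differentiableAt ((isOpen_openS M).mem_nhds hm)).hasDerivAt
      have h3 : HasDerivAt (fun t : ℝ => (x + y t * Complex.I : ℂ)) (s * Complex.I) t := by
        have h4 : HasDerivAt (fun t : ℝ => ((y t : ℝ) : ℂ)) (s : ℂ) t := (hy t).ofReal_comp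
        exact (h4.mul_const Complex.I).const_add _
      exact h2.comp t h3
    refine (incr_le h12 hc.continuousOn (fun t ht =>
      (hder t ht).differentiableAt.differentiableWithinAt)).trans (le_of_eq ?_)
    apply setLIntegral_congr_fun measurableSet_Ioo
    intro t ht
    simp only
    rw [(hder t ht).deriv, enorm_mul]
    have : ‖(s * Complex.I : ℂ)‖ₑ = 1 := by
      rw [← ofReal_norm, norm_mul, Complex.norm_I, mul_one, Complex.norm_real, Real.norm_eq_abs, hs]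
      simp
    rw [this, mul_one]
  · intro t x₁ x₂ h0 h1 hx h12
    have ht01 := hy01 t h0 h1
    have hc : Continuous fun x : ℝ => G (x + y t * Complex.I) := by fun_prop
    have hder : ∀ x ∈ Ioo x₁ x₂, HasDerivAt (fun x : ℝ => G (x + y t * Complex.I))
        (deriv G (x + y t * Complex.I)) x := by
      intro x hx'
      have hm := mem_openS (M := M) (hx.trans hx'.1) ht01.1 ht01.2
      have h2 := (hGd.differentiableAt ((isOpen_openS M).mem_nhds hm)).hasDerivAt
      have h3 : HasDerivAt (fun x : ℝ => (x + y t * Complex.I : ℂ)) 1 x := by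
        have h4 : HasDerivAt (fun x : ℝ => ((x : ℝ) : ℂ)) (1 : ℂ) x := (hasDerivAt_id x).ofReal_comp
        exact h4.add_const _
      have := h2.comp x h3
      rwa [mul_one] at this
    refine (incr_le h12 hc.continuousOn (fun x hx' =>
      (hder x hx').differentiableAt.differentiableWithinAt)).trans (le_of_eq ?_)
    apply setLIntegral_congr_fun measurableSet_Ioo
    intro x hx'
    simp only
    rw [(hder x hx').deriv]

lemma ctrl_bot (hG : Continuous G) (hGd : DifferentiableOn ℂ G (openS M)) :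
    Ctrl (fun x t => G (x + t * Complex.I)) (fun p => ‖deriv G (p.1 + p.2 * Complex.I)‖ₑ) M := by
  apply ctrl_gen (y := fun t => t) (s := 1) hG hGd (by simp) (fun t => hasDerivAt_id t)
  intro t h0 h1; exact ⟨h0, h1⟩

lemma ctrl_top (hG : Continuous G) (hGd : DifferentiableOn ℂ G (openS M)) :
    Ctrl (fun x t => G (x + ((1 - t : ℝ) : ℂ) * Complex.I))
      (fun p => ‖deriv G (p.1 + ((1 - p.2 : ℝ) : ℂ) * Complex.I)‖ₑ) M := by
  apply ctrl_gen (y := fun t => 1 - t) (s := -1) hG hGd (by simp)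
    (fun t => by simpa using (hasDerivAt_id t).const_sub 1)
  intro t h0 h1; exact ⟨by linarith, by linarith⟩

end ctrl

lemma ann_disjoint_of_radius {c r r' : ℝ} (h : 2 * r' ≤ r) : Disjoint (ann c r) (ann c r') := by
  rw [Set.disjoint_left]
  rintro ⟨x, y⟩ ⟨_, _, _, h4⟩ ⟨h5, _, h7, _⟩
  simp only at h4 h5 h7
  rcases h4 with h4 | h4 <;> linarith

lemma ann_disjoint_of_center {c c' r r' : ℝ} (h : 2 * r + 2 * r' ≤ |c - c'|) :
    Disjoint (ann c r) (ann c' r') := by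
  rw [Set.disjoint_left]
  rintro ⟨x, y⟩ ⟨h1, _⟩ ⟨h2, _⟩
  simp only at h1 h2
  have h3 : |c - c'| ≤ |x - c| + |x - c'| := by
    have : c - c' = -(x - c) + (x - c') := by ring
    rw [this]
    refine (abs_add_le _ _).trans ?_
    rw [abs_neg]
  linarith

lemma ann_subset_QQ {c r M : ℝ} (h1 : M + 2 * r ≤ c) (h2 : 2 * r ≤ 1) : ann c r ⊆ QQ M := by
  rintro ⟨x, y⟩ ⟨h3, h4, h5, _⟩
  simp only at h3 h4 h5
  rw [abs_lt] at h3
  exact ⟨by simp only; linarith, h4, by simp only; linarith⟩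

lemma sum_lint_le {ι : Type*} (T : Finset ι) (s : ι → Set (ℝ × ℝ)) (hm : ∀ i, MeasurableSet (s i))
    (hd : (T : Set ι).PairwiseDisjoint s) {Q : Set (ℝ × ℝ)} (hQ : ∀ i ∈ T, s i ⊆ Q)
    (f : ℝ × ℝ → ℝ≥0∞) :
    ∑ i ∈ T, ∫⁻ p in s i, f p ≤ ∫⁻ p in Q, f p := by
  rw [← lintegral_biUnion_finset hd (fun i _ => hm i)]
  apply lintegral_mono_set
  intro p hp
  simp only [mem_iUnion] at hp
  obtain ⟨i, hi, hpi⟩ := hp
  exact hQ i hi hpi

/-- the vertical strips -/
def vstrip (h : ℝ) (i : ℕ) : Set (ℝ × ℝ) :=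
  Ioo (3 * h * i + h / 4) (3 * h * i + h / 2) ×ˢ Ioo (0 : ℝ) 1

lemma vert_avg {K : ℝ → ℝ → ℂ} {k : ℝ × ℝ → ℝ≥0∞} {M : ℝ} (hK : Ctrl K k M) {h L : ℝ} (i : ℕ)
    (hh : 0 < h) (hM : M < 3 * h * i + h / 4) (hL : 0 < L) :
    ∫⁻ v in Ioo (0 : ℝ) 1, ‖K (3 * h * i + h / 4 + h / 4 * v) 1 -
        K (3 * h * i + h / 4 + h / 4 * v) 0‖ₑ ≤
      ENNReal.ofReal (3 * L / 2) * (∫⁻ p in vstrip h i, k p ^ 2) +
        ENNReal.ofReal (2 / (h * L)) := by
  have hh4 : 0 < h / 4 := by positivity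
  have hl : 0 < h / 4 * L := by positivity
  calc ∫⁻ v in Ioo (0 : ℝ) 1, ‖K (3 * h * i + h / 4 + h / 4 * v) 1 -
        K (3 * h * i + h / 4 + h / 4 * v) 0‖ₑ
      ≤ ∫⁻ v in Ioo (0 : ℝ) 1, ∫⁻ t in Ioo (0 : ℝ) 1, k (3 * h * i + h / 4 + h / 4 * v, t) := by
        apply setLIntegral_mono' measurableSet_Ioo
        intro v hv
        exact hK.vert _ 0 1 (by nlinarith [hv.1]) le_rfl zero_le_one le_rfl
    _ = ENNReal.ofReal (h / 4)⁻¹ * ∫⁻ p in vstrip h i, k p := by
        rw [lint_affine_pos (f := fun x => ∫⁻ t in Ioo (0 : ℝ) 1, k (x, t)) hh4,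
          rect_fst hK.meas, vstrip]
        congr 4; ring_nf
    _ ≤ ENNReal.ofReal (h / 4)⁻¹ * (ENNReal.ofReal (h / 4 * L / 2) * (∫⁻ p in vstrip h i, k p ^ 2) +
          ENNReal.ofReal (1 / (2 * (h / 4 * L))) *
          (ENNReal.ofReal (3 * h * i + h / 2 - (3 * h * i + h / 4)) * ENNReal.ofReal (1 - 0))) := by
        gcongr
        exact rect_lin _ _ _ _ hl
    _ = ENNReal.ofReal (L / 2) * (∫⁻ p in vstrip h i, k p ^ 2) +
        ENNReal.ofReal (2 / (h * L)) := by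
        have e1 : 3 * h * i + h / 2 - (3 * h * i + h / 4) = h / 4 := by ring
        have e2 : (1 - 0 : ℝ) = 1 := by norm_num
        rw [e1, e2, ENNReal.ofReal_one, mul_one, mul_add, ← mul_assoc,
          ← ENNReal.ofReal_mul (by positivity), ← ENNReal.ofReal_mul (by positivity),
          ← ENNReal.ofReal_mul (by positivity)]
        congr 1
        · congr 2; field_simp
        · congr 1; field_simp; norm_num
    _ ≤ _ := by
        gcongr
        linarith

/-- the combinatorial structure of the sewing function in a stage -/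
structure StageFormula (β : ℝ → ℝ) (h : ℝ) (m : ℕ) : Prop where
  left : ∀ l a b : ℕ, m ≤ l → l ≤ 4 * m → 2 ≤ b → 1 ≤ a → a + b = l + 4 → ∀ v : ℝ, 0 ≤ v → v ≤ 1 →
    β (3 / 2 * h * l + 3 / 4 * h - h / 2 ^ b * (2 - v)) = 3 * h * l + h / 2 ^ a * (1 + v)
  right : ∀ l a b : ℕ, m ≤ l → l ≤ 4 * m → 2 ≤ b → 1 ≤ a → a + b = l + 6 → ∀ v : ℝ, 0 ≤ v → v ≤ 1 →
    β (3 / 2 * h * l + 3 / 4 * h + h / 2 ^ b * (2 - v)) =
      3 * h * (l + 1) - h / 2 ^ a * (1 + v)

section stage

variable {β : ℝ → ℝ} {h : ℝ} {m : ℕ} {G : ℂ → ℂ} {M : ℝ} {w : ℂ}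

/-- bottom radius -/
noncomputable def rb (h : ℝ) (i j : ℕ) : ℝ := h / 2 ^ (2 + (i - j))
/-- top radius -/
noncomputable def rt (h : ℝ) (j : ℕ) : ℝ := h / 2 ^ (2 + 2 * j)

lemma chain_identity (hβ : StageFormula β h m) (hh : 0 < h) (hM : M < 3 / 2 * h * m - h)
    (hglue : ∀ x : ℝ, M ≤ x → G (β x + Complex.I) = G x + w) {i : ℕ} (hi : m ≤ i)
    (hi2 : i < 2 * m) {v : ℝ} (hv0 : 0 ≤ v) (hv1 : v ≤ 1) :
    w = (G (((3 * h * i + h / 4 + h / 4 * v : ℝ) : ℂ) + Complex.I) -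
          G ((3 * h * i + h / 4 + h / 4 * v : ℝ) : ℂ)) +
      ∑ j ∈ Finset.range i,
        ((G (((3 * h * ((i + (j + 1) : ℕ) : ℝ) + rt h (j + 1) * (1 + v) : ℝ) : ℂ) +
            Complex.I) -
          G (((3 * h * ((i + (j + 1) : ℕ) : ℝ) - rt h (j + 1) * (1 + v) : ℝ) : ℂ) +
            Complex.I)) +
         (G ((3 / 2 * h * ((i + j : ℕ) : ℝ) + 3 / 4 * h + rb h i j * (2 - v) : ℝ) : ℂ) -
          G ((3 / 2 * h * ((i + j : ℕ) : ℝ) + 3 / 4 * h - rb h i j * (2 - v) : ℝ) : ℂ))) := by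
  -- positions
  set tp : ℕ → ℂ := fun j =>
    G (((3 * h * ((i + j : ℕ) : ℝ) + rt h j * (1 + v) : ℝ) : ℂ) + Complex.I) with htp
  set tm : ℕ → ℂ := fun j =>
    G (((3 * h * ((i + j : ℕ) : ℝ) - rt h j * (1 + v) : ℝ) : ℂ) + Complex.I) with htm
  set bp : ℕ → ℂ := fun j =>
    G ((3 / 2 * h * ((i + j : ℕ) : ℝ) + 3 / 4 * h + rb h i j * (2 - v) : ℝ) : ℂ) with hbp
  set bm : ℕ → ℂ := fun j =>
    G ((3 / 2 * h * ((i + j : ℕ) : ℝ) + 3 / 4 * h - rb h i j * (2 - v) : ℝ) : ℂ) with hbm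
  have hrb : ∀ j, rb h i j * (2 - v) ≤ h / 2 := by
    intro j
    have h1 : rb h i j ≤ h / 4 := by
      unfold rb
      apply div_le_div_of_nonneg_left hh.le (by norm_num)
      calc (4 : ℝ) = 2 ^ 2 := by norm_num
        _ ≤ 2 ^ (2 + (i - j)) := pow_le_pow_right₀ (by norm_num) (by omega)
    have h2 : 0 < rb h i j := by unfold rb; positivity
    nlinarith
  have hrb0 : ∀ j, 0 ≤ rb h i j * (2 - v) := by
    intro j
    have h2 : 0 < rb h i j := by unfold rb; positivity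
    nlinarith
  have hlm : ∀ j : ℕ, 3 / 2 * h * m ≤ 3 / 2 * h * ((i + j : ℕ) : ℝ) + 3 / 4 * h := by
    intro j
    have : (m : ℝ) ≤ ((i + j : ℕ) : ℝ) := by exact_mod_cast (by omega : m ≤ i + j)
    nlinarith
  have hL : ∀ j ≤ i, tp j = bm j + w := by
    intro j hj
    have h1 := hβ.left (i + j) (2 + 2 * j) (2 + (i - j)) (by omega) (by omega) (by omega)
      (by omega) (by omega) v hv0 hv1
    have h2 : M ≤ 3 / 2 * h * ((i + j : ℕ) : ℝ) + 3 / 4 * h - rb h i j * (2 - v) := by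
      have := hrb j; have := hlm j; linarith
    have h3 := hglue _ h2
    rw [htp, hbm]
    simp only
    rw [← h3]
    congr 2
    rw [show rb h i j = h / 2 ^ (2 + (i - j)) from rfl, h1]
    rfl
  have hR : ∀ j < i, tm (j + 1) = bp j + w := by
    intro j hj
    have h1 := hβ.right (i + j) (2 + 2 * (j + 1)) (2 + (i - j)) (by omega) (by omega) (by omega)
      (by omega) (by omega) v hv0 hv1
    have h2 : M ≤ 3 / 2 * h * ((i + j : ℕ) : ℝ) + 3 / 4 * h + rb h i j * (2 - v) := by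
      have := hrb0 j; have := hlm j; linarith
    have h3 := hglue _ h2
    rw [htm, hbp]
    simp only
    rw [← h3]
    congr 2
    rw [show rb h i j = h / 2 ^ (2 + (i - j)) from rfl, h1]
    congr 1
    rw [show rt h (j + 1) = h / 2 ^ (2 + 2 * (j + 1)) from rfl]
    push_cast
    ring
  have htel : ∀ k ≤ i, tp k - tp 0 = ∑ j ∈ Finset.range k,
      ((tp (j + 1) - tm (j + 1)) + (bp j - bm j)) := by
    intro k
    induction k with
    | zero => intro _; simp
    | succ k ih =>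
      intro hk
      rw [Finset.sum_range_succ, ← ih (by omega), hL k (by omega), hR k (by omega)]
      ring
  have h1 := htel i le_rfl
  have h2 := hL i le_rfl
  -- endpoints
  have e1 : tp 0 = G (((3 * h * i + h / 4 + h / 4 * v : ℝ) : ℂ) + Complex.I) := by
    rw [htp]; simp only
    congr 3
    unfold rt
    push_cast
    ring
  have e2 : bm i = G ((3 * h * i + h / 4 + h / 4 * v : ℝ) : ℂ) := by
    rw [hbm]; simp only
    congr 2
    unfold rb
    rw [Nat.sub_self]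
    push_cast
    ring
  rw [← e1, ← e2]
  have h3 : ∑ j ∈ Finset.range i, ((tp (j + 1) - tm (j + 1)) + (bp j - bm j)) = tp i - tp 0 :=
    h1.symm
  show w = tp 0 - bm i + ∑ j ∈ Finset.range i, ((tp (j + 1) - tm (j + 1)) + (bp j - bm j))
  rw [h3, h2]
  ring

/-- bottom density -/
noncomputable def kb (G : ℂ → ℂ) (p : ℝ × ℝ) : ℝ≥0∞ := ‖deriv G (p.1 + p.2 * Complex.I)‖ₑ
/-- top density -/
noncomputable def kt (G : ℂ → ℂ) (p : ℝ × ℝ) : ℝ≥0∞ :=
  ‖deriv G (p.1 + ((1 - p.2 : ℝ) : ℂ) * Complex.I)‖ₑ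

/-- bottom annuli -/
def annB (h : ℝ) (i j : ℕ) : Set (ℝ × ℝ) :=
  ann (3 / 2 * h * ((i + j : ℕ) : ℝ) + 3 / 4 * h) (rb h i j)
/-- top annuli -/
def annT (h : ℝ) (i j : ℕ) : Set (ℝ × ℝ) :=
  ann (3 * h * ((i + (j + 1) : ℕ) : ℝ)) (rt h (j + 1))

lemma rb_pos (hh : 0 < h) (i j : ℕ) : 0 < rb h i j := by unfold rb; positivity
lemma rt_pos (hh : 0 < h) (j : ℕ) : 0 < rt h j := by unfold rt; positivity
lemma rb_le (hh : 0 < h) (i j : ℕ) : rb h i j ≤ h / 4 := by
  unfold rb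
  apply div_le_div_of_nonneg_left hh.le (by norm_num)
  calc (4 : ℝ) = 2 ^ 2 := by norm_num
    _ ≤ 2 ^ (2 + (i - j)) := pow_le_pow_right₀ (by norm_num) (by omega)
lemma rt_le (hh : 0 < h) (j : ℕ) : rt h j ≤ h / 4 := by
  unfold rt
  apply div_le_div_of_nonneg_left hh.le (by norm_num)
  calc (4 : ℝ) = 2 ^ 2 := by norm_num
    _ ≤ 2 ^ (2 + 2 * j) := pow_le_pow_right₀ (by norm_num) (by omega)

lemma cast_ge {m i j : ℕ} (hi : m ≤ i) : (m : ℝ) ≤ ((i + j : ℕ) : ℝ) := by
  exact_mod_cast (by omega : m ≤ i + j)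

lemma chain_bound (hG : Continuous G) (hGd : DifferentiableOn ℂ G (openS M))
    (hβ : StageFormula β h m) (hh : 0 < h) (hh1 : h ≤ 1) (hm : 1 ≤ h * m)
    (hM : M < 3 / 2 * h * m - h)
    (hglue : ∀ x : ℝ, M ≤ x → G (β x + Complex.I) = G x + w)
    (hw : ENNReal.ofReal 6 ≤ ‖w‖ₑ) {i : ℕ} (hi : m ≤ i) (hi2 : i < 2 * m) :
    ENNReal.ofReal 3 ≤ ENNReal.ofReal (9 * m) * ((∫⁻ p in vstrip h i, kb G p ^ 2) +
      ((∑ j ∈ Finset.range i, ∫⁻ p in annT h i j, kt G p ^ 2) +
        ∑ j ∈ Finset.range i, ∫⁻ p in annB h i j, kb G p ^ 2)) := by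
  have hm0 : (0 : ℝ) < m := by
    by_contra hcon
    have : (m : ℝ) = 0 := le_antisymm (not_lt.mp hcon) (Nat.cast_nonneg m)
    rw [this] at hm; linarith
  have hL : (0 : ℝ) < 6 * m := by positivity
  have hcb := ctrl_bot hG hGd
  have hct := ctrl_top hG hGd
  -- the three terms
  set V : ℝ → ℂ := fun v => G (((3 * h * i + h / 4 + h / 4 * v : ℝ) : ℂ) + Complex.I) -
          G ((3 * h * i + h / 4 + h / 4 * v : ℝ) : ℂ) with hV
  set T : ℕ → ℝ → ℂ := fun j v =>
    (G (((3 * h * ((i + (j + 1) : ℕ) : ℝ) + rt h (j + 1) * (1 + v) : ℝ) : ℂ) +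
            Complex.I) -
          G (((3 * h * ((i + (j + 1) : ℕ) : ℝ) - rt h (j + 1) * (1 + v) : ℝ) : ℂ) +
            Complex.I)) with hT
  set B : ℕ → ℝ → ℂ := fun j v =>
    (G ((3 / 2 * h * ((i + j : ℕ) : ℝ) + 3 / 4 * h + rb h i j * (2 - v) : ℝ) : ℂ) -
          G ((3 / 2 * h * ((i + j : ℕ) : ℝ) + 3 / 4 * h - rb h i j * (2 - v) : ℝ) : ℂ)) with hB
  have hVc : Continuous V := by rw [hV]; fun_prop
  have hTc : ∀ j, Continuous (T j) := by intro j; rw [hT]; fun_prop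
  have hBc : ∀ j, Continuous (B j) := by intro j; rw [hB]; fun_prop
  have hpt : ∀ v ∈ Ioo (0 : ℝ) 1, ‖w‖ₑ ≤ ‖V v‖ₑ + ∑ j ∈ Finset.range i, (‖T j v‖ₑ + ‖B j v‖ₑ) := by
    intro v hv
    have h1 := chain_identity hβ hh hM hglue hi hi2 hv.1.le hv.2.le
    have h2 : w = V v + ∑ j ∈ Finset.range i, (T j v + B j v) := h1
    rw [h2]
    refine (enorm_add_le _ _).trans ?_
    gcongr
    refine (enorm_sum_le _ _).trans ?_
    gcongr
    exact enorm_add_le _ _
  have hint : ‖w‖ₑ ≤ (∫⁻ v in Ioo (0 : ℝ) 1, ‖V v‖ₑ) +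
      ∑ j ∈ Finset.range i, ((∫⁻ v in Ioo (0 : ℝ) 1, ‖T j v‖ₑ) +
        ∫⁻ v in Ioo (0 : ℝ) 1, ‖B j v‖ₑ) := by
    calc ‖w‖ₑ = ∫⁻ _ in Ioo (0 : ℝ) 1, ‖w‖ₑ := by
          rw [setLIntegral_const, Real.volume_Ioo]; simp
      _ ≤ ∫⁻ v in Ioo (0 : ℝ) 1, (‖V v‖ₑ + ∑ j ∈ Finset.range i, (‖T j v‖ₑ + ‖B j v‖ₑ)) :=
          setLIntegral_mono' measurableSet_Ioo hpt
      _ = _ := by
          rw [lintegral_add_left hVc.enorm.measurable, lintegral_finsetSum]
          · congr 1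
            apply Finset.sum_congr rfl
            intro j _
            rw [lintegral_add_left (hTc j).enorm.measurable]
          · intro j _
            exact ((hTc j).enorm.add (hBc j).enorm).measurable
  -- bounds for the three terms
  have hgeV : M < 3 * h * i + h / 4 := by
    have h1 : (m : ℝ) ≤ i := by exact_mod_cast hi
    nlinarith
  have bV : ∫⁻ v in Ioo (0 : ℝ) 1, ‖V v‖ₑ ≤
      ENNReal.ofReal (3 * (6 * m) / 2) * (∫⁻ p in vstrip h i, kb G p ^ 2) +
        ENNReal.ofReal (2 / (h * (6 * m))) := by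
    have h1 := vert_avg hcb (L := 6 * m) i hh hgeV hL
    refine le_trans (le_of_eq ?_) h1
    apply lintegral_congr
    intro v
    rw [hV]
    simp only [Complex.ofReal_one, one_mul, Complex.ofReal_zero, zero_mul, add_zero]
  have bT : ∀ j, ∫⁻ v in Ioo (0 : ℝ) 1, ‖T j v‖ₑ ≤
      ENNReal.ofReal (3 * (6 * m) / 2) * (∫⁻ p in annT h i j, kt G p ^ 2) +
        ENNReal.ofReal (4 / (6 * m)) := by
    intro j
    have hr := rt_le hh (j + 1)
    have hr0 := rt_pos hh (j + 1)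
    have hc := cast_ge (m := m) (i := i) (j := j + 1) hi
    have h1 := arc_avg_one_add hct (c := 3 * h * ((i + (j + 1) : ℕ) : ℝ))
      (r := rt h (j + 1)) (L := 6 * m) hr0 (by nlinarith) (by linarith) hL
    refine le_trans (le_of_eq ?_) h1
    apply lintegral_congr
    intro v
    rw [hT]
    simp only [sub_zero, Complex.ofReal_one, one_mul]
  have bB : ∀ j, ∫⁻ v in Ioo (0 : ℝ) 1, ‖B j v‖ₑ ≤
      ENNReal.ofReal (3 * (6 * m) / 2) * (∫⁻ p in annB h i j, kb G p ^ 2) +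
        ENNReal.ofReal (4 / (6 * m)) := by
    intro j
    have hr := rb_le hh i j
    have hr0 := rb_pos hh i j
    have hc := cast_ge (m := m) (i := i) (j := j) hi
    have h1 := arc_avg_two_sub hcb (c := 3 / 2 * h * ((i + j : ℕ) : ℝ) + 3 / 4 * h)
      (r := rb h i j) (L := 6 * m) hr0 (by nlinarith) (by linarith) hL
    refine le_trans (le_of_eq ?_) h1
    apply lintegral_congr
    intro v
    rw [hB]
    simp only [Complex.ofReal_zero, zero_mul, add_zero]
  have e9 : (3 * (6 * m) / 2 : ℝ) = 9 * m := by ring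
  rw [e9] at bV bT bB
  set AV := ∫⁻ p in vstrip h i, kb G p ^ 2 with hAV
  set AT : ℕ → ℝ≥0∞ := fun j => ∫⁻ p in annT h i j, kt G p ^ 2 with hAT
  set AB : ℕ → ℝ≥0∞ := fun j => ∫⁻ p in annB h i j, kb G p ^ 2 with hAB
  have htot : ‖w‖ₑ ≤ ENNReal.ofReal (9 * m) * (AV + ((∑ j ∈ Finset.range i, AT j) +
      ∑ j ∈ Finset.range i, AB j)) + ENNReal.ofReal 3 := by
    calc ‖w‖ₑ ≤ _ := hint
      _ ≤ (ENNReal.ofReal (9 * m) * AV + ENNReal.ofReal (2 / (h * (6 * m)))) +
          ∑ j ∈ Finset.range i, ((ENNReal.ofReal (9 * m) * AT j + ENNReal.ofReal (4 / (6 * m))) +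
            (ENNReal.ofReal (9 * m) * AB j + ENNReal.ofReal (4 / (6 * m)))) := by
          gcongr with j hj
          · exact bT j
          · exact bB j
      _ = ENNReal.ofReal (9 * m) * (AV + ((∑ j ∈ Finset.range i, AT j) +
            ∑ j ∈ Finset.range i, AB j)) + (ENNReal.ofReal (2 / (h * (6 * m))) +
            (i : ℝ≥0∞) * (ENNReal.ofReal (4 / (6 * m)) + ENNReal.ofReal (4 / (6 * m)))) := by
          simp only [Finset.sum_add_distrib, ← Finset.mul_sum, Finset.sum_const,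
            Finset.card_range, nsmul_eq_mul]
          ring
      _ ≤ _ := by
          gcongr
          rw [← ENNReal.ofReal_add (by positivity) (by positivity),
            show (i : ℝ≥0∞) = ENNReal.ofReal (i : ℝ) by simp,
            ← ENNReal.ofReal_mul (by positivity), ← ENNReal.ofReal_add (by positivity)
              (by positivity)]
          apply ENNReal.ofReal_le_ofReal
          have h1 : (i : ℝ) ≤ 2 * m := by exact_mod_cast hi2.le
          have h2 : 2 / (h * (6 * m)) ≤ 1 / 3 := by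
            rw [div_le_div_iff₀ (by positivity) (by norm_num)]
            nlinarith
          have h3 : (i : ℝ) * (4 / (6 * m) + 4 / (6 * m)) ≤ 8 / 3 := by
            have : (i : ℝ) * (4 / (6 * m) + 4 / (6 * m)) = 8 * i / (6 * m) := by field_simp; ring
            rw [this, div_le_div_iff₀ (by positivity) (by norm_num)]
            linarith
          linarith
  have h36 : ENNReal.ofReal 3 + ENNReal.ofReal 3 ≤ ENNReal.ofReal (9 * m) *
      (AV + ((∑ j ∈ Finset.range i, AT j) + ∑ j ∈ Finset.range i, AB j)) + ENNReal.ofReal 3 := by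
    rw [← ENNReal.ofReal_add (by norm_num) (by norm_num)]
    have : (3 + 3 : ℝ) = 6 := by norm_num
    rw [this]
    exact hw.trans htot
  exact (ENNReal.add_le_add_iff_right ENNReal.ofReal_ne_top).mp h36

lemma abs_cast_sub_ge {a b : ℕ} (hab : a ≠ b) : (1 : ℝ) ≤ |(a : ℝ) - b| := by
  rcases lt_or_gt_of_ne hab with h | h
  · have : (a : ℝ) + 1 ≤ b := by exact_mod_cast h
    rw [abs_of_nonpos (by linarith)]; linarith
  · have : (b : ℝ) + 1 ≤ a := by exact_mod_cast h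
    rw [abs_of_nonneg (by linarith)]; linarith

lemma div_pow_le {h : ℝ} (hh : 0 < h) {a b : ℕ} (hab : a + 1 ≤ b) :
    2 * (h / 2 ^ b) ≤ h / 2 ^ a := by
  have h1 : (2 : ℝ) ^ (a + 1) ≤ 2 ^ b := pow_le_pow_right₀ (by norm_num) hab
  rw [pow_succ] at h1
  rw [← mul_div_assoc, div_le_div_iff₀ (by positivity) (by positivity)]
  nlinarith

lemma sumB (hh : 0 < h) (hM : M < 3 / 2 * h * m - h) (hh1 : h ≤ 1) (f : ℝ × ℝ → ℝ≥0∞) :
    ∑ i ∈ Finset.Ico m (2 * m), ∑ j ∈ Finset.range i, ∫⁻ p in annB h i j, f p ≤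
      ∫⁻ p in QQ M, f p := by
  rw [Finset.sum_sigma']
  refine sum_lint_le _ (fun x : (_ : ℕ) × ℕ => annB h x.1 x.2) (fun _ => measurableSet_ann _ _)
    ?_ ?_ f
  · rintro ⟨i, j⟩ hij ⟨i', j'⟩ hij' hne
    simp only [Finset.coe_sigma, Set.mem_sigma_iff, Finset.coe_Ico, mem_Ico, Finset.coe_range,
      mem_Iio] at hij hij'
    show Disjoint (annB h i j) (annB h i' j')
    unfold annB
    by_cases hs : i + j = i' + j'
    · rw [hs]
      have hii : i ≠ i' := by
        rintro rfl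
        have : j = j' := by omega
        exact hne (by rw [this])
      rcases lt_or_gt_of_ne hii with hlt | hlt
      · have := div_pow_le hh (a := 2 + (i - j)) (b := 2 + (i' - j')) (by omega)
        exact ann_disjoint_of_radius this
      · have := div_pow_le hh (a := 2 + (i' - j')) (b := 2 + (i - j)) (by omega)
        exact (ann_disjoint_of_radius this).symm
    · apply ann_disjoint_of_center
      have h1 := rb_le hh i j
      have h2 := rb_le hh i' j'
      have h3 := abs_cast_sub_ge hs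
      have h4 : |3 / 2 * h * ((i + j : ℕ) : ℝ) + 3 / 4 * h - (3 / 2 * h * ((i' + j' : ℕ) : ℝ) + 3 / 4 * h)| =
          3 / 2 * h * |((i + j : ℕ) : ℝ) - ((i' + j' : ℕ) : ℝ)| := by
        rw [add_sub_add_right_eq_sub, ← mul_sub, abs_mul, abs_of_pos (by positivity)]
      rw [h4]
      nlinarith
  · rintro ⟨i, j⟩ hij
    simp only [Finset.mem_sigma, Finset.mem_Ico, Finset.mem_range] at hij
    show annB h i j ⊆ QQ M
    unfold annB
    have h1 := rb_le hh i j
    have h2 := cast_ge (m := m) (i := i) (j := j) hij.1.1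
    apply ann_subset_QQ
    · nlinarith
    · linarith

lemma sumT (hh : 0 < h) (hM : M < 3 / 2 * h * m - h) (hh1 : h ≤ 1) (f : ℝ × ℝ → ℝ≥0∞) :
    ∑ i ∈ Finset.Ico m (2 * m), ∑ j ∈ Finset.range i, ∫⁻ p in annT h i j, f p ≤
      ∫⁻ p in QQ M, f p := by
  rw [Finset.sum_sigma']
  refine sum_lint_le _ (fun x : (_ : ℕ) × ℕ => annT h x.1 x.2) (fun _ => measurableSet_ann _ _)
    ?_ ?_ f
  · rintro ⟨i, j⟩ hij ⟨i', j'⟩ hij' hne
    simp only [Finset.coe_sigma, Set.mem_sigma_iff, Finset.coe_Ico, mem_Ico, Finset.coe_range,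
      mem_Iio] at hij hij'
    show Disjoint (annT h i j) (annT h i' j')
    unfold annT
    by_cases hs : i + (j + 1) = i' + (j' + 1)
    · rw [hs]
      have hii : i ≠ i' := by
        rintro rfl
        have : j = j' := by omega
        exact hne (by rw [this])
      rcases lt_or_gt_of_ne hii with hlt | hlt
      · have := div_pow_le hh (a := 2 + 2 * (j' + 1)) (b := 2 + 2 * (j + 1)) (by omega)
        exact (ann_disjoint_of_radius this).symm
      · have := div_pow_le hh (a := 2 + 2 * (j + 1)) (b := 2 + 2 * (j' + 1)) (by omega)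
        exact ann_disjoint_of_radius this
    · apply ann_disjoint_of_center
      have h1 := rt_le hh (j + 1)
      have h2 := rt_le hh (j' + 1)
      have h3 := abs_cast_sub_ge hs
      have h4 : |(3 * h * ((i + (j + 1) : ℕ) : ℝ)) -
          (3 * h * ((i' + (j' + 1) : ℕ) : ℝ))| =
          3 * h * |((i + (j + 1) : ℕ) : ℝ) - ((i' + (j' + 1) : ℕ) : ℝ)| := by
        rw [← mul_sub, abs_mul, abs_of_pos (by positivity)]
      rw [h4]
      nlinarith
  · rintro ⟨i, j⟩ hij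
    simp only [Finset.mem_sigma, Finset.mem_Ico, Finset.mem_range] at hij
    show annT h i j ⊆ QQ M
    unfold annT
    have h1 := rt_le hh (j + 1)
    have h2 := cast_ge (m := m) (i := i) (j := j + 1) hij.1.1
    have h3 : (1 : ℝ) ≤ ((i + (j + 1) : ℕ) : ℝ) := by exact_mod_cast (by omega : 1 ≤ i + (j + 1))
    have h4 := mul_le_mul_of_nonneg_left h2 hh.le
    have h5 := mul_le_mul_of_nonneg_left h3 hh.le
    apply ann_subset_QQ
    · linarith
    · linarith

lemma sumV (hh : 0 < h) (hM : M < 3 / 2 * h * m - h) (f : ℝ × ℝ → ℝ≥0∞) :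
    ∑ i ∈ Finset.Ico m (2 * m), ∫⁻ p in vstrip h i, f p ≤ ∫⁻ p in QQ M, f p := by
  refine sum_lint_le _ (fun i : ℕ => vstrip h i) (fun _ => measurableSet_Ioo.prod measurableSet_Ioo)
    ?_ ?_ f
  · intro i hi j hj hne
    show Disjoint (vstrip h i) (vstrip h j)
    rw [Set.disjoint_left]
    rintro ⟨x, y⟩ ⟨⟨h1, h2⟩, _⟩ ⟨⟨h3, h4⟩, _⟩
    simp only at h1 h2 h3 h4
    rcases lt_or_gt_of_ne hne with hlt | hlt
    · have : (i : ℝ) + 1 ≤ j := by exact_mod_cast hlt
      nlinarith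
    · have : (j : ℝ) + 1 ≤ i := by exact_mod_cast hlt
      nlinarith
  · rintro i hi ⟨x, y⟩ ⟨⟨h1, h2⟩, h3, h4⟩
    simp only at h1 h2 h3 h4
    rw [Finset.mem_Ico] at hi
    have : (m : ℝ) ≤ i := by exact_mod_cast hi.1
    exact ⟨by simp only; nlinarith, h3, h4⟩

lemma measurable_kb (G : ℂ → ℂ) : Measurable (kb G) := by
  have h1 : Measurable (deriv G) := measurable_deriv G
  have h2 : Continuous fun p : ℝ × ℝ => (p.1 + p.2 * Complex.I : ℂ) := by fun_prop
  exact (h1.comp h2.measurable).enorm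

lemma kt_energy (G : ℂ → ℂ) (M : ℝ) :
    ∫⁻ p in QQ M, kt G p ^ 2 = ∫⁻ p in QQ M, kb G p ^ 2 := by
  have hmp : MeasurePreserving (fun p : ℝ × ℝ => (p.1, 1 - p.2)) volume volume := by
    rw [Measure.volume_eq_prod]
    exact (MeasurePreserving.id volume).prod (Measure.measurePreserving_sub_left volume (1 : ℝ))
  have h := hmp.setLIntegral_comp_preimage (measurableSet_QQ M)
    ((measurable_kb G).pow_const 2)
  rw [← h]
  have hpre : (fun p : ℝ × ℝ => (p.1, 1 - p.2)) ⁻¹' QQ M = QQ M := by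
    ext ⟨x, y⟩
    simp only [QQ, mem_preimage, mem_ofPred_eq]
    constructor
    · rintro ⟨h1, h2, h3⟩
      exact ⟨h1, by linarith, by linarith⟩
    · rintro ⟨h1, h2, h3⟩
      exact ⟨h1, by linarith, by linarith⟩
  rw [hpre]
  rfl

lemma kb_energy (G : ℂ → ℂ) (M : ℝ) :
    ∫⁻ p in QQ M, kb G p ^ 2 = ∫⁻ z in openS M, ‖deriv G z‖ₑ ^ 2 := by
  have hmp := Complex.volume_preserving_equiv_real_prod.symm
  have h := hmp.setLIntegral_comp_preimage (isOpen_openS M).measurableSet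
    (f := fun z => ‖deriv G z‖ₑ ^ 2) (((measurable_deriv G).enorm).pow_const 2)
  rw [← h]
  have hpre : Complex.measurableEquivRealProd.symm ⁻¹' openS M = QQ M := by
    ext ⟨x, y⟩
    rfl
  rw [hpre]
  apply lintegral_congr
  rintro ⟨x, y⟩
  unfold kb
  have : Complex.measurableEquivRealProd.symm (x, y) = (x + y * Complex.I : ℂ) := by
    apply Complex.ext <;> simp [Complex.measurableEquivRealProd]
  rw [this]

lemma stage_energy (hG : Continuous G) (hGd : DifferentiableOn ℂ G (openS M))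
    (hβ : StageFormula β h m) (hh : 0 < h) (hh1 : h ≤ 1) (hm : 1 ≤ h * m)
    (hM : M < 3 / 2 * h * m - h)
    (hglue : ∀ x : ℝ, M ≤ x → G (β x + Complex.I) = G x + w)
    (hw : ENNReal.ofReal 6 ≤ ‖w‖ₑ) :
    ENNReal.ofReal (1 / 9) ≤ ∫⁻ z in openS M, ‖deriv G z‖ₑ ^ 2 := by
  have hm0 : (0 : ℝ) < m := by
    by_contra hcon
    have : (m : ℝ) = 0 := le_antisymm (not_lt.mp hcon) (Nat.cast_nonneg m)
    rw [this] at hm; linarith
  set E := ∫⁻ z in openS M, ‖deriv G z‖ₑ ^ 2 with hE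
  have hEb : ∫⁻ p in QQ M, kb G p ^ 2 = E := kb_energy G M
  have hEt : ∫⁻ p in QQ M, kt G p ^ 2 = E := by rw [kt_energy, hEb]
  have h1 : ∑ i ∈ Finset.Ico m (2 * m), ENNReal.ofReal 3 ≤ ∑ i ∈ Finset.Ico m (2 * m),
      (ENNReal.ofReal (9 * m) * ((∫⁻ p in vstrip h i, kb G p ^ 2) +
      ((∑ j ∈ Finset.range i, ∫⁻ p in annT h i j, kt G p ^ 2) +
        ∑ j ∈ Finset.range i, ∫⁻ p in annB h i j, kb G p ^ 2))) := by
    apply Finset.sum_le_sum
    intro i hi
    rw [Finset.mem_Ico] at hi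
    exact chain_bound hG hGd hβ hh hh1 hm hM hglue hw hi.1 hi.2
  rw [← Finset.mul_sum, Finset.sum_add_distrib, Finset.sum_add_distrib] at h1
  have h2 := h1.trans (mul_le_mul_right (add_le_add (sumV hh hM _)
    (add_le_add (sumT hh hM hh1 _) (sumB hh hM hh1 _))) _)
  rw [hEb, hEt, Finset.sum_const, Nat.card_Ico, nsmul_eq_mul] at h2
  have h3 : ((2 * m - m : ℕ) : ℝ≥0∞) * ENNReal.ofReal 3 = ENNReal.ofReal (3 * m) := by
    rw [show 2 * m - m = m by omega, show (m : ℝ≥0∞) = ENNReal.ofReal (m : ℝ) by simp,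
      ← ENNReal.ofReal_mul (by positivity)]
    congr 1; ring
  have h4 : ENNReal.ofReal (9 * m) * (E + (E + E)) = ENNReal.ofReal (27 * m) * E := by
    have : (27 * m : ℝ) = 9 * m * 3 := by ring
    rw [this, ENNReal.ofReal_mul (p := 9 * (m : ℝ)) (by positivity),
      show ENNReal.ofReal 3 = 3 by simp]
    ring
  rw [h3, h4] at h2
  have h5 : ENNReal.ofReal (3 * m) = ENNReal.ofReal (27 * m) * ENNReal.ofReal (1 / 9) := by
    rw [← ENNReal.ofReal_mul (by positivity)]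
    congr 1; ring
  rw [h5] at h2
  exact (ENNReal.mul_le_mul_iff_right (by
    rw [Ne, ENNReal.ofReal_eq_zero, not_le]; positivity) ENNReal.ofReal_ne_top).mp h2

end stage

end Pool.Agent.ConfSewing
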